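import Pool.Agent.AdmG.Defs
import Pool.Agent.Adm.ADefs

/-! Coverings of trees of projective lines with monodromy data at the marked points. -/

namespace Pool.Agent.AdmG

open Pool.Agent.Adm (Cover Dat Aff LabD expand)
open scoped OnePoint

/-- A property of a group G, monodromy data indexed by ι and a subgroup of G. -/
abbrev AP (k ι : Type) [Field k] : Type 1 :=
  ∀ (G : Type) [Group G], (ι → Dat k G) → Subgroup G → Prop

section

variable {k k' ι ι' : Type} [Field k] [Field k']

/-- The datum seen from the other branch of a node. -/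
def dinv {G : Type} (x : Dat k G) : Dat k G := (x.1, x.2.1⁻¹, x.2.2)

/-- Push a datum along a map of groups. -/
def dpush {G G' : Type} (f : G → G') (x : Dat k G) : Dat k G' := (x.1, x.2.1, f x.2.2)

/-- One projective line with the marked points a. -/
def vtx (a : ι → OnePoint k) : AP k ι := fun G _ d H =>
  ∃ c : Cover k G, c.Tame (Set.range a) ∧ (∀ i, c.MD (a i) (d i)) ∧ c.ι.range = H

/-- Two curves glued at the marked points `none`. -/
def glue (P : AP k (Option ι)) (Q : AP k (Option ι')) : AP k (ι ⊕ ι') := fun G _ d H =>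
  ∃ (x : Dat k G) (H1 H2 : Subgroup G), P G (fun o => o.elim x fun i => d (.inl i)) H1 ∧
    Q G (fun o => o.elim (dinv x) fun i => d (.inr i)) H2 ∧ H = H1 ⊔ H2

/-- Renumbering of the marked points. -/
def reidx (e : ι ≃ ι') (P : AP k ι) : AP k ι' := fun G _ d H => P G (fun i => d (e i)) H

/-- Coverings of type P lift to coverings of type P' with the same data. -/
def Lifts (φ : k →+* k') (P : AP k ι) (P' : AP k' ι) : Prop :=
  ∀ (G : Type) [Group G] [Finite G] (d : ι → Dat k G) (H : Subgroup G), P G d H →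
    P' G (fun i => (d i).map φ) H

/-- ξ is a system of roots of the roots of unity of d. -/
def Roots (φ : k →+* k') (m : ℕ) {G : Type} (d : ι → Dat k G) (ξ : ι → k') : Prop :=
  ∀ i, IsPrimitiveRoot (ξ i) ((d i).1 * m) ∧ ξ i ^ m = φ (d i).2.1

/-- The data of a covering with group G × Aff F lying over d. -/
def ovr {G A : Type} (m : ℕ) (d : ι → Dat k G) (ξ : ι → k') (y : ι → A) : ι → Dat k' (G × A) :=
  fun i => ((d i).1 * m, ξ i, ((d i).2.2, y i))

/-- Coverings of type P are dominated by coverings of type P' with an affine quotient of labels n;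
if b holds, the dominating covering is strictly bigger. -/
def Dom {F : Type} [Field F] [Fintype F] (b : Prop) (φ : k →+* k') (θ : F →+* k') (P : AP k ι)
    (P' : AP k' ι) (n : ι → ℤ) : Prop :=
  ∀ (G : Type) [Group G] [Finite G] (d : ι → Dat k G) (H : Subgroup G), P G d H →
    ∀ ξ : ι → k', Roots φ (Fintype.card F - 1) d ξ →
      ∃ (y : ι → Aff F) (H' : Subgroup (G × Aff F)),
        P' (G × Aff F) (ovr (Fintype.card F - 1) d ξ y) H' ∧
        H'.map (MonoidHom.fst G (Aff F)) = H ∧
        (∀ i, θ (y i).u = (ξ i ^ (d i).1) ^ n i) ∧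
        (b → ∃ a : Aff F, a ≠ 1 ∧ ((1 : G), a) ∈ H')

/-- Every affine quotient with labels n has a fixed point. -/
def AllFix {F : Type} [Field F] [Fintype F] (θ : F →+* k) (P : AP k ι) (n : ι → ℤ) : Prop :=
  ∀ (G : Type) [Group G] (d : ι → Dat k G) (H : Subgroup G) (ψ : G →* Aff F), P G d H →
    (∀ i, LabD (Fintype.card F - 1) θ (Aff.lin.comp ψ) (d i) (n i)) → Aff.HasFix (H.map ψ)

end

/-- Properties describing trees of projective lines. -/
inductive Tr (k : Type) [Field k] : (ι : Type) → AP k ι → Prop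
  | vtx {ι : Type} [Finite ι] (a : ι → OnePoint k) (ha : Function.Injective a)
      (h3 : 2 < Nat.card ι) : Tr k ι (vtx a)
  | glue {ι ι' : Type} {P : AP k (Option ι)} {Q : AP k (Option ι')} (hP : Tr k _ P)
      (hQ : Tr k _ Q) : Tr k _ (glue P Q)
  | reidx {ι ι' : Type} (e : ι ≃ ι') {P : AP k ι} (hP : Tr k _ P) : Tr k _ (reidx e P)

/-- Formal properties of trees. -/
structure Nice {k ι : Type} [Field k] (P : AP k ι) : Prop where
  valid : ∀ (G : Type) [Group G] (d : ι → Dat k G) (H : Subgroup G), P G d H → ∀ i,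
    0 < (d i).1 ∧ IsPrimitiveRoot (d i).2.1 (d i).1 ∧ (d i).2.2 ^ (d i).1 = 1 ∧ (d i).2.2 ∈ H
  map : ∀ (G G' : Type) [Group G] [Group G'] (f : G →* G') (d : ι → Dat k G) (H : Subgroup G),
    P G d H → P G' (fun i => dpush f (d i)) (H.map f)
  restr : ∀ (G : Type) [Group G] (d : ι → Dat k G) (H M : Subgroup G), P G d H → H ≤ M →
    ∃ d' : ι → Dat k M, P M d' (H.subgroupOf M) ∧ ∀ i, dpush M.subtype (d' i) = d i
  triv : ∀ (G : Type) [Group G], P G (fun _ => (1, 1, 1)) ⊥

/-- Coverings of the curve obtained by gluing the marked points inl (inl j) and inl (inr j). -/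
def Cl {k J I : Type} [Field k] (P : AP k ((J ⊕ J) ⊕ I)) (G : Type) [Group G] : Prop :=
  ∃ (d : (J ⊕ J) ⊕ I → Dat k G) (H : Subgroup G) (t : J → G), P G d H ∧
    (∀ j, d (.inl (.inr j)) = dinv (dpush (fun x => (t j)⁻¹ * x * t j) (d (.inl (.inl j))))) ∧
    H ⊔ Subgroup.closure (Set.range t) = ⊤

/-- A tree of projective lines over an algebraically closed field of characteristic p. -/
structure Nd (p : ℕ) (ι : Type) : Type 1 where
  k : Type
  [field : Field k]
  [closed : IsAlgClosed k]
  [char : CharP k p]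
  P : AP k ι
  tr : Tr k ι P

attribute [instance] Nd.field Nd.closed Nd.char

/-- A strict generisation, detected by labels satisfying R. -/
def Step {k k' ι : Type} [Field k] [Field k'] (R : (ι → ℤ) → Prop) (φ : k →+* k') (P : AP k ι)
    (P' : AP k' ι) : Prop :=
  Lifts φ P P' ∧ ∃ (F : Type) (_ : Field F) (_ : Fintype F) (θ : F →+* k') (n : ι → ℤ),
    R n ∧ Dom True φ θ P P' n

/-- A sequence of generisations, r of them strict. -/
inductive Path {p : ℕ} {ι : Type} (R : (ι → ℤ) → Prop) (N : Nd p ι) :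
    (N' : Nd p ι) → (N.k →+* N'.k) → ℕ → Prop
  | refl : Path R N N (RingHom.id _) 0
  | lift {N' N'' : Nd p ι} {φ : N.k →+* N'.k} {r : ℕ} (h : Path R N N' φ r) (ψ : N'.k →+* N''.k)
      (hl : Lifts ψ N'.P N''.P) : Path R N N'' (ψ.comp φ) r
  | step {N' N'' : Nd p ι} {φ : N.k →+* N'.k} {r : ℕ} (h : Path R N N' φ r) (ψ : N'.k →+* N''.k)
      (hs : Step R ψ N'.P N''.P) : Path R N N'' (ψ.comp φ) (r + 1)

/-- Labels with sum zero. -/
def R0 {ι : Type} [Fintype ι] (n : ι → ℤ) : Prop := ∑ i, n i = 0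

/-- Labels that are opposite on glued pairs. -/
def RP {J I : Type} (n : (J ⊕ J) ⊕ I → ℤ) : Prop :=
  ∀ j, n (.inl (.inr j)) = -n (.inl (.inl j))

/-- An operation on trees over extensions of k0 that preserves generisations. -/
structure Ctx (k0 ι ι' : Type) [Field k0] (R : (ι → ℤ) → Prop) (R' : (ι' → ℤ) → Prop) :
    Type 1 where
  Φ : ∀ (K : Type) [Field K], (k0 →+* K) → AP K ι → AP K ι'
  tr : ∀ (K : Type) [Field K] (ψ : k0 →+* K) (P : AP K ι), Tr K ι P → Tr K ι' (Φ K ψ P)
  lifts : ∀ (K K' : Type) [Field K] [IsAlgClosed K] [Field K'] [IsAlgClosed K'] (ψ : k0 →+* K)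
    (χ : K →+* K') (P : AP K ι) (P' : AP K' ι), Lifts χ P P' →
      Lifts χ (Φ K ψ P) (Φ K' (χ.comp ψ) P')
  step : ∀ (K K' : Type) [Field K] [IsAlgClosed K] [Field K'] [IsAlgClosed K'] (ψ : k0 →+* K)
    (χ : K →+* K') (P : AP K ι) (P' : AP K' ι), Tr K ι P → Tr K' ι P' → Step R χ P P' →
      Step R' χ (Φ K ψ P) (Φ K' (χ.comp ψ) P')

/-- A node in a context. -/
@[reducible] def Nd.ctx {p : ℕ} {k0 ι ι' : Type} [Field k0] {R : (ι → ℤ) → Prop}
    {R' : (ι' → ℤ) → Prop} (N : Nd p ι) (C : Ctx k0 ι ι' R R') (ψ : k0 →+* N.k) : Nd p ι' :=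
  { k := N.k, P := C.Φ N.k ψ N.P, tr := C.tr _ _ _ N.tr }

/-- A family of trees over all extensions of k0, compatible with base change. -/
structure Fam (k0 ι : Type) [Field k0] : Type 1 where
  Q : ∀ (K : Type) [Field K], (k0 →+* K) → AP K ι
  tr : ∀ (K : Type) [Field K] (ψ : k0 →+* K), Tr K ι (Q K ψ)
  lifts : ∀ (K K' : Type) [Field K] [IsAlgClosed K] [Field K'] [IsAlgClosed K'] (ψ : k0 →+* K)
    (χ : K →+* K'), Lifts χ (Q K ψ) (Q K' (χ.comp ψ))

/-- Three more indices, for the points infinity, 0 and 1. -/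
abbrev W (κ : Type) : Type := Option (Option (Option κ))

/-- The points infinity, 0, 1, s. -/
def gen {k κ : Type} [Field k] (s : κ → k) : W κ → OnePoint k := fun o =>
  o.elim ∞ fun o => ((o.elim 0 fun o => o.elim 1 s : k) : OnePoint k)

/-- The finite points 0, 1, s. -/
def fin {k κ : Type} [Field k] (s : κ → k) : Option (Option κ) → k := fun o =>
  o.elim 0 fun o => o.elim 1 s

theorem gen_none {k κ : Type} [Field k] (s : κ → k) : gen s none = ∞ := rfl

theorem gen_some {k κ : Type} [Field k] (s : κ → k) (o : Option (Option κ)) :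
    gen s (some o) = ((fin s o : k) : OnePoint k) := rfl

/-- Algebraic independence over the image of φ. -/
def Ind {k K κ : Type} [Field k] [Field K] (φ : k →+* K) (s : κ → K) : Prop :=
  @AlgebraicIndependent κ k K s _ _ φ.toAlgebra

/-- There is a tree defined over every field from which r strict generisations lead to the generic
smooth curve with marked points W κ. -/
def Ch (p : ℕ) (κ : Type) [Fintype κ] (r : ℕ) : Prop :=
  ∃ S : ∀ (k : Type) [Field k], AP k (W κ), (∀ (k : Type) [Field k], Tr k _ (S k)) ∧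
    (∀ (k k' : Type) [Field k] [IsAlgClosed k] [Field k'] [IsAlgClosed k'] (φ : k →+* k'),
      Lifts φ (S k) (S k')) ∧
    ∀ N : Nd p (W κ), N.P = S N.k → ∃ (N' : Nd p (W κ)) (φ : N.k →+* N'.k) (s : κ → N'.k),
      Ind φ s ∧ N'.P = vtx (gen s) ∧ Path R0 N N' φ r

/-- Exchange of the first two extra indices. -/
def sw (α : Type) : Option (Option α) ≃ Option (Option α) where
  toFun o := o.elim (some none) fun o => o.elim none fun a => some (some a)
  invFun o := o.elim (some none) fun o => o.elim none fun a => some (some a)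
  left_inv := by rintro (_ | _ | a) <;> rfl
  right_inv := by rintro (_ | _ | a) <;> rfl

/-- The line with the points infinity, 0, 1. -/
def tri (k : Type) [Field k] : AP k (W Empty) := vtx (gen Empty.elim)

/-- A with its point infinity glued to the point 0 of a line with the points infinity, 0, 1. -/
def two {k κ : Type} [Field k] (A : AP k (W κ)) : AP k (W (Option κ)) := fun G _ d H =>
  ∃ (x : Dat k G) (H1 H2 : Subgroup G),
    A G (fun o => o.elim x fun o => o.elim (d (some none)) fun o => d (some (some (some o)))) H1 ∧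
    tri k G (fun o => o.elim (d none) fun o => o.elim (dinv x) fun _ => d (some (some none))) H2 ∧
    H = H1 ⊔ H2

/-- The chain A, line with three points, B: infinity of A is glued to 0 of the line, infinity of
the line to 0 of B. -/
def three {k κ : Type} [Field k] (A B : AP k (W κ)) : AP k (W (Option κ ⊕ Option κ)) :=
  fun G _ d H => ∃ (x y : Dat k G) (H1 H2 H3 : Subgroup G),
    A G (fun o => o.elim x fun o => o.elim (d (some none))
      fun o => d (some (some (some (.inl o))))) H1 ∧
    tri k G (fun o => o.elim y fun o => o.elim (dinv x) fun _ => d (some (some none))) H2 ∧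
    B G (fun o => o.elim (d none) fun o => o.elim (dinv y)
      fun o => d (some (some (some (.inr o))))) H3 ∧
    H = H1 ⊔ H2 ⊔ H3

/-- A tree of projective lines as a geometric object. -/
structure RC (k ι : Type) [Field k] : Type 1 where
  V : Type
  [finV : Fintype V]
  ne : Nonempty V
  E : Type
  [finE : Fintype E]
  pt : (E ⊕ E) ⊕ ι → V × OnePoint k
  inj : Function.Injective pt
  conn : ∀ v w, Relation.EqvGen
    (fun a b => ∃ ε, (pt (.inl (.inl ε))).1 = a ∧ (pt (.inl (.inr ε))).1 = b) v w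
  card : Fintype.card E + 1 = Fintype.card V
  stable : ∀ v, 2 < Nat.card {h // (pt h).1 = v}
  gauge : ∀ (G : Type) [Group G] (t : E → G), ∃ u : V → G,
    ∀ ε, t ε = (u (pt (.inl (.inl ε))).1)⁻¹ * u (pt (.inl (.inr ε))).1

attribute [instance] RC.finV RC.finE

/-- Coverings of a tree. -/
def RC.Adm {k ι : Type} [Field k] (X : RC k ι) : AP k ι := fun G _ d H =>
  ∃ c : X.V → Cover k G, (∀ v, (c v).Tame {a | (v, a) ∈ Set.range X.pt}) ∧
    (∀ ε, ∃ x : Dat k G, (c (X.pt (.inl (.inl ε))).1).MD (X.pt (.inl (.inl ε))).2 x ∧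
      (c (X.pt (.inl (.inr ε))).1).MD (X.pt (.inl (.inr ε))).2 (dinv x)) ∧
    (∀ i, (c (X.pt (.inr i)).1).MD (X.pt (.inr i)).2 (d i)) ∧ ⨆ v, (c v).ι.range = H

/-- First branches of the nodes after gluing pairs of marked points. -/
def RC.src {k J I : Type} [Field k] (X : RC k ((J ⊕ J) ⊕ I)) : X.E ⊕ J → X.V × OnePoint k :=
  Sum.elim (fun ε => X.pt (.inl (.inl ε))) fun j => X.pt (.inr (.inl (.inl j)))

/-- Second branches of the nodes after gluing pairs of marked points. -/
def RC.tgt {k J I : Type} [Field k] (X : RC k ((J ⊕ J) ⊕ I)) : X.E ⊕ J → X.V × OnePoint k :=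
  Sum.elim (fun ε => X.pt (.inl (.inr ε))) fun j => X.pt (.inr (.inl (.inr j)))

/-- Connected coverings of the curve obtained by gluing pairs of marked points. -/
def RC.Cv {k J I : Type} [Field k] (X : RC k ((J ⊕ J) ⊕ I)) (G : Type) [Group G] : Prop :=
  ∃ (c : X.V → Cover k G) (t : X.E ⊕ J → G), (∀ v, (c v).Tame {a | (v, a) ∈ Set.range X.pt}) ∧
    (∀ ε, ∃ e ζ x, (c (X.src ε).1).Mono (X.src ε).2 e ζ x ∧
      (c (X.tgt ε).1).Mono (X.tgt ε).2 e ζ⁻¹ ((t ε)⁻¹ * x * t ε)) ∧
    ∀ a b : X.V × G, Relation.EqvGen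
      (fun a b => (a.1 = b.1 ∧ a.2⁻¹ * b.2 ∈ (c a.1).ι.range) ∨
        ∃ ε, a.1 = (X.src ε).1 ∧ b = ((X.tgt ε).1, a.2 * t ε)) a b

/-- A place above a, with a generator of its inertia group. -/
structure Chart {k G : Type} [Field k] [Group G] (c : Cover k G) (a : OnePoint k) : Type where
  e : ℕ
  ζ : k
  he : 0 < e
  hζ : IsPrimitiveRoot ζ e
  j : c.L →+* LaurentSeries k
  hC : ∀ x : k, j (algebraMap (RatFunc k) c.L (RatFunc.C x)) = HahnSeries.C x
  hX : j (algebraMap (RatFunc k) c.L RatFunc.X) = expand a e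
  σ : c.L ≃ₐ[RatFunc k] c.L
  hσ : ∀ x, j (σ x) = Pool.Agent.Adm.scL ζ (hζ.ne_zero he.ne') (j x)

/-- π a is the place of k(X) at the point a. -/
def IsPlc {k : Type} [Field k] (π : OnePoint k → Place k (RatFunc k)) : Prop :=
  ∀ (a : OnePoint k) (j : RatFunc k →+* LaurentSeries k),
    (∀ c, j (RatFunc.C c) = HahnSeries.C c) → j RatFunc.X = expand a 1 →
      ∀ f, f ≠ 0 → (π a).1 f = WithZero.exp (-(j f).order)

/-- A covering of the line in the two descriptions. -/
def toCov {k G : Type} [Field k] [Group G] (c : Cover k G) : Cov (RatFunc k) G :=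
  { L := c.L, ι := c.ι }

/-- A covering of the line in the two descriptions. -/
def ofCov {k G : Type} [Field k] [Group G] (c : Cov (RatFunc k) G) : Cover k G :=
  { L := c.L, ι := c.ι }

/-- The finite quotients of Y are finite quotients of X. -/
def QLe {p g n : ℕ} (Y X : StableCurve p g n) : Prop :=
  ∀ (G : Type) [Group G] [Finite G], Y.HasCover G → X.HasCover G

end Pool.Agent.AdmG
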