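import Pool.Agent.AdmG.AP
import Pool.Agent.Adm.VF4
import Pool.Agent.Adm.GA
import Pool.Agent.Adm.TW

/-! Functions without poles are constant. -/

namespace Pool.Agent.AdmG

open Pool.Agent.Adm
open scoped OnePoint

variable {k G : Type} [Field k] [Group G]

theorem Chart.of_mono {c : Cover k G} {a : OnePoint k} {e : ℕ} {ζ : k} {g : G}
    (h : c.Mono a e ζ g) : ∃ ch : Chart c a, ch.e = e ∧ ch.ζ = ζ ∧ c.ι ch.σ = g := by
  obtain ⟨he, hζ, j, hC, hX, σ, hg, hσ⟩ := h
  exact ⟨⟨e, ζ, he, hζ, j, hC, hX, σ, fun x => HahnSeries.ext (funext (hσ x))⟩, rfl, rfl, hg⟩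

theorem Chart.mono {c : Cover k G} {a : OnePoint k} (ch : Chart c a) :
    c.Mono a ch.e ch.ζ (c.ι ch.σ) := by
  exact ⟨ch.he, ch.hζ, ch.j, ch.hC, ch.hX, ch.σ, rfl, fun x n => by rw [ch.hσ, scL_coeff]⟩

theorem Chart.alg {c : Cover k G} {a : OnePoint k} (ch : Chart c a)
    {J : OnePoint k → RatFunc k →+* LaurentSeries k} (hJ : IsCharts J) (r : RatFunc k) :
    ch.j (algebraMap (RatFunc k) c.L r) = powL ch.e ch.he (J a r) := by
  refine DFunLike.congr_fun (ratFunc_hom_ext (ch.j.comp (algebraMap (RatFunc k) c.L))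
    ((powL ch.e ch.he).comp (J a)) (fun x => ?_) ?_) r
  · rw [RingHom.comp_apply, RingHom.comp_apply, ch.hC, (hJ a).1, powL_C]
  · rw [RingHom.comp_apply, RingHom.comp_apply, ch.hX, (hJ a).2, powL_expand, mul_one]

theorem reg_powL_iff (e : ℕ) (he : 0 < e) (x : LaurentSeries k) : Reg (powL e he x) ↔ Reg x := by
  have h0 : (0 : ℤ) < e := by exact_mod_cast he
  refine ⟨fun h n hn => ?_, fun h n hn => ?_⟩
  · rw [← powL_coeff_mul e he x n]
    exact h _ (mul_neg_of_pos_of_neg h0 hn)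
  · by_cases hd : (e : ℤ) ∣ n
    · obtain ⟨m, rfl⟩ := hd
      rw [powL_coeff_mul]
      exact h m (neg_of_mul_neg_right hn h0.le)
    · exact powL_coeff_of_not_dvd e he x n hd

theorem reg_C (x : k) : Reg (HahnSeries.C x : LaurentSeries k) := by
  exact reg_C_VF4 x

theorem rat_const_Bd1 [IsAlgClosed k] {J : OnePoint k → RatFunc k →+* LaurentSeries k}
    (hJ : IsCharts J) (r : RatFunc k) (h : ∀ a, Reg (J a r)) : ∃ x : k, RatFunc.C x = r := by
  obtain ⟨P, rfl⟩ := hJ.exists_poly r fun a => h a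
  refine ⟨P.coeff 0, ?_⟩
  have e : P = Polynomial.C (P.coeff 0) := by
    ext n
    rw [Polynomial.coeff_C]
    split_ifs with hn
    · rw [hn]
    · have := h ∞ (-(n : ℤ)) (by omega)
      rw [hJ.coeff_infty, if_pos (by omega)] at this
      simpa using this
  conv_rhs => rw [e]
  exact (RatFunc.algebraMap_C _).symm

theorem const_of_reg [IsAlgClosed k] (c : Cover k G) (ch : ∀ a, Chart c a) (w : c.L)
    (h : ∀ a (σ : c.L ≃ₐ[RatFunc k] c.L), Reg ((ch a).j (σ w))) :
    ∃ x : k, w = algebraMap (RatFunc k) c.L (RatFunc.C x) := by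
  obtain ⟨J, hJ⟩ := exists_isCharts k
  let S : Subring c.L :=
    { carrier := {x | ∀ a, Reg ((ch a).j x)}
      mul_mem' := fun hx hy a => by rw [map_mul]; exact (hx a).mul (hy a)
      one_mem' := fun a => by rw [map_one]; exact reg_C 1
      add_mem' := fun hx hy a => by rw [map_add]; exact (hx a).add (hy a)
      zero_mem' := fun a => by rw [map_zero]; exact reg_zero_VF4
      neg_mem' := fun {x} hx a => by
        rw [map_neg, ← zero_sub]
        exact reg_zero_VF4.sub (hx a) }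
  have hp : MulSemiringAction.charpoly (c.L ≃ₐ[RatFunc k] c.L) w ∈
      Polynomial.lifts ((algebraMap (RatFunc k) c.L).comp RatFunc.C) := by
    rw [Polynomial.lifts_iff_coeff_lifts]
    intro n
    obtain ⟨r, hr⟩ := (IsGalois.mem_range_algebraMap_iff_fixed (F := RatFunc k) _).2 fun σ =>
      MulSemiringAction.smul_coeff_charpoly w n σ
    have e : MulSemiringAction.charpoly (c.L ≃ₐ[RatFunc k] c.L) w = Polynomial.map S.subtype
        (∏ σ : c.L ≃ₐ[RatFunc k] c.L, (Polynomial.X - Polynomial.C (⟨σ w, fun a => h a σ⟩ : S))) := by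
      rw [MulSemiringAction.charpoly_eq, Polynomial.map_prod]
      refine Finset.prod_congr rfl fun σ _ => ?_
      rw [Polynomial.map_sub, Polynomial.map_X, Polynomial.map_C]
      rfl
    have hS : algebraMap (RatFunc k) c.L r ∈ S := by
      rw [hr, e, Polynomial.coeff_map]
      exact Subtype.property _
    obtain ⟨x, rfl⟩ := rat_const_Bd1 hJ r fun a =>
      (reg_powL_iff _ (ch a).he _).1 ((ch a).alg hJ r ▸ hS a)
    exact ⟨x, hr⟩
  obtain ⟨P, hP⟩ := (Polynomial.mem_lifts _).1 hp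
  obtain ⟨x, hx⟩ := mem_range_TW ((algebraMap (RatFunc k) c.L).comp RatFunc.C) w P (by
    rintro rfl
    rw [Polynomial.map_zero] at hP
    exact (MulSemiringAction.monic_charpoly _ w).ne_zero hP.symm) (by
    rw [← Polynomial.eval_map, hP, MulSemiringAction.eval_charpoly])
  exact ⟨x, hx.symm⟩

end Pool.Agent.AdmG
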