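import Pool.Agent.AdmG.Bd1
import Pool.Agent.Adm.LabL

/-! Local form of an Artin-Schreier generator. -/

namespace Pool.Agent.AdmG

open Pool.Agent.Adm
open scoped OnePoint
open Polynomial

variable {k G F : Type} [Field k] [Group G] [Field F] [Fintype F]

theorem Chart.local_form {c : Cover k G} {a : OnePoint k} (ch : Chart c a) (θ : F →+* k)
    (ψ : G →* Aff F) (y w : c.L) (hy0 : y ≠ 0)
    (hy : ∀ σ : c.L ≃ₐ[RatFunc k] c.L,
      σ y = algebraMap (RatFunc k) c.L (RatFunc.C (θ (ψ (c.ι σ)).u)) * y)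
    (hw : ∀ σ : c.L ≃ₐ[RatFunc k] c.L,
      σ w = algebraMap (RatFunc k) c.L (RatFunc.C (θ (ψ (c.ι σ)).u)) * w +
        algebraMap (RatFunc k) c.L (RatFunc.C (θ (ψ (c.ι σ)).b))) :
    ∃ (β : k) (V : LaurentSeries k),
      ch.j w = HahnSeries.C β + powL ch.e ch.he V * ch.j y := by
  have hj0 : ch.j y ≠ 0 := (_root_.map_ne_zero ch.j).2 hy0
  have hu0 : θ ((ψ (c.ι ch.σ)).u : F) ≠ 0 := (_root_.map_ne_zero θ).2 (Units.ne_zero _)
  obtain ⟨β, hβ⟩ : ∃ β : k, θ ((ψ (c.ι ch.σ)).u : F) * β + θ (ψ (c.ι ch.σ)).b = β := by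
    by_cases hu : (ψ (c.ι ch.σ)).u = 1
    · have : NeZero ch.e := ⟨ch.he.ne'⟩
      have he : (ch.e : F) ≠ 0 := by
        intro h
        have h1 : (ch.e : k) ≠ 0 := ch.hζ.neZero'.out
        apply h1
        rw [← map_natCast θ, h, map_zero]
      have h1 : ψ (c.ι ch.σ) = 1 :=
        Aff.eq_one_of_pow he (by rw [← map_pow, ch.mono.pow_eq_one, map_one]) hu
      exact ⟨0, by simp [h1]⟩
    · have h1 : θ ((ψ (c.ι ch.σ)).u : F) - 1 ≠ 0 := by
        have := (_root_.map_ne_zero θ).2 (Aff.u_sub_one_ne_AffL hu)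
        rwa [map_sub, map_one] at this
      refine ⟨-(θ (ψ (c.ι ch.σ)).b) / (θ ((ψ (c.ι ch.σ)).u : F) - 1), ?_⟩
      field_simp
      ring
  have h1 : scL ch.ζ (ch.hζ.ne_zero ch.he.ne') (ch.j y) =
      HahnSeries.C (θ ((ψ (c.ι ch.σ)).u : F)) * ch.j y := by
    rw [← ch.hσ, hy, map_mul, ch.hC]
  have h2 : scL ch.ζ (ch.hζ.ne_zero ch.he.ne') (ch.j w) =
      HahnSeries.C (θ ((ψ (c.ι ch.σ)).u : F)) * ch.j w + HahnSeries.C (θ (ψ (c.ι ch.σ)).b) := by
    rw [← ch.hσ, hw, map_add, map_mul, ch.hC, ch.hC]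
  have h3 : (HahnSeries.C β : LaurentSeries k) =
      HahnSeries.C (θ ((ψ (c.ι ch.σ)).u : F)) * HahnSeries.C β +
        HahnSeries.C (θ (ψ (c.ι ch.σ)).b) := by
    rw [← map_mul, ← map_add, hβ]
  have hC0 : (HahnSeries.C (θ ((ψ (c.ι ch.σ)).u : F)) : LaurentSeries k) ≠ 0 :=
    (_root_.map_ne_zero _).2 hu0
  obtain ⟨V, hV⟩ := exists_powL_of_scL ch.e ch.he ch.ζ ch.hζ
    ((ch.j w - HahnSeries.C β) / ch.j y) (by
      rw [map_div₀, map_sub, h1, h2, scL_C, div_eq_div_iff (mul_ne_zero hC0 hj0) hj0]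
      linear_combination (-(ch.j y)) * h3)
  refine ⟨β, V, ?_⟩
  rw [hV, div_mul_cancel₀ _ hj0]
  ring

theorem reg_of_pow {x : LaurentSeries k} {m : ℕ} (hm : 0 < m) (h : Reg (x ^ m)) : Reg x := by
  apply reg_of_order_VF4
  have h1 := h.order_nonneg_VF4
  rw [HahnSeries.order_pow, nsmul_eq_mul] at h1
  have h2 : (0 : ℤ) < m := by exact_mod_cast hm
  exact nonneg_of_mul_nonneg_right h1 h2

theorem reg_of_pow_sub {x : LaurentSeries k} {q : ℕ} (hq : 1 < q) (h : Reg (x ^ q - x)) :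
    Reg x := by
  apply reg_of_order_VF4
  by_contra h0
  rw [not_le] at h0
  have hx : x ≠ 0 := by
    rintro rfl
    simp at h0
  have h2 : (1 : ℤ) < q := by exact_mod_cast hq
  have h3 : (x ^ q).order = q * x.order := by rw [HahnSeries.order_pow, nsmul_eq_mul]
  have h4 : (q : ℤ) * x.order < x.order := by nlinarith
  have h5 := h (q * x.order) (by linarith)
  rw [HahnSeries.coeff_sub, HahnSeries.coeff_eq_zero_of_lt_order h4, sub_zero, ← h3,
    HahnSeries.coeff_order_eq_zero] at h5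
  exact pow_ne_zero _ hx h5

theorem exists_finset_reg (c : Cover k G) (ch : ∀ a, Chart c a) (θ : F →+* k) (ψ : G →* Aff F)
    (f : k[X]) (hf : f ≠ 0) (y w : c.L)
    (hm : y ^ (Fintype.card F - 1) = algebraMap (RatFunc k) c.L (algebraMap k[X] (RatFunc k) f))
    (hy : ∀ σ : c.L ≃ₐ[RatFunc k] c.L,
      σ y = algebraMap (RatFunc k) c.L (RatFunc.C (θ (ψ (c.ι σ)).u)) * y)
    (hw : ∀ σ : c.L ≃ₐ[RatFunc k] c.L,
      σ w = algebraMap (RatFunc k) c.L (RatFunc.C (θ (ψ (c.ι σ)).u)) * w +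
        algebraMap (RatFunc k) c.L (RatFunc.C (θ (ψ (c.ι σ)).b))) :
    (∀ a : k, Reg ((ch a).j y)) ∧ ∃ S : Finset k, ∀ a : k, a ∉ S → Reg ((ch a).j w) := by
  obtain ⟨J, hJ⟩ := exists_isCharts k
  have hq : 1 < Fintype.card F := Fintype.one_lt_card
  have hy0 : y ≠ 0 := by
    rintro rfl
    rw [zero_pow (by omega), eq_comm, map_eq_zero, map_eq_zero_iff _
      (IsFractionRing.injective k[X] (RatFunc k))] at hm
    exact hf hm
  have hreg : ∀ a : k, Reg ((ch a).j y) := by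
    intro a
    apply reg_of_pow (m := Fintype.card F - 1) (by omega)
    rw [← map_pow, hm, (ch a).alg hJ, reg_powL_iff]
    exact hJ.reg_poly a f
  refine ⟨hreg, ?_⟩
  let Θ : F →+* c.L := (algebraMap (RatFunc k) c.L).comp ((RatFunc.C : k →+* RatFunc k).comp θ)
  have hΘ : ∀ x : F, algebraMap (RatFunc k) c.L (RatFunc.C (θ x)) = Θ x := fun _ => rfl
  have hfix : ∀ σ : c.L ≃ₐ[RatFunc k] c.L,
      σ ((w ^ Fintype.card F - w) / y) = (w ^ Fintype.card F - w) / y := by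
    intro σ
    have hu0 : Θ ((ψ (c.ι σ)).u : F) ≠ 0 := (_root_.map_ne_zero Θ).2 (Units.ne_zero _)
    rw [map_div₀, map_sub, map_pow, hy, hw, hΘ, hΘ, add_pow_card_of_hom Θ, mul_pow, ← map_pow,
      ← map_pow, FiniteField.pow_card, FiniteField.pow_card,
      div_eq_div_iff (mul_ne_zero hu0 hy0) hy0]
    ring
  obtain ⟨h, hh⟩ := (IsGalois.mem_range_algebraMap_iff_fixed _).2 hfix
  obtain ⟨S, hS⟩ := hJ.exists_finset h
  refine ⟨S, fun a ha => reg_of_pow_sub hq ?_⟩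
  have h1 : w ^ Fintype.card F - w = algebraMap (RatFunc k) c.L h * y := by
    rw [hh, div_mul_cancel₀ _ hy0]
  rw [← map_pow, ← map_sub, h1, map_mul, (ch a).alg hJ]
  exact ((reg_powL_iff _ _ _).2 (hS a ha)).mul (hreg a)

end Pool.Agent.AdmG
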