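import Pool.Agent.AdmG.Bd2

/-! Removing poles from an Artin-Schreier generator. -/

namespace Pool.Agent.AdmG

open Pool.Agent.Adm
open scoped OnePoint
open Polynomial

variable {k G F : Type} [Field k] [Group G] [Field F] [Fintype F]

theorem reg_sum_Bd3 {ι : Type} (S : Finset ι) (x : ι → LaurentSeries k) (h : ∀ i ∈ S, Reg (x i)) :
    Reg (∑ i ∈ S, x i) :=
  Finset.sum_induction x Reg (fun _ _ => Reg.add) reg_zero_VF4 h

theorem ne_zero_Bd3 (c : Cover k G) (m : ℕ) (hm0 : 0 < m) (f : k[X]) (hf : f ≠ 0) (y : c.L)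
    (hm : y ^ m = algebraMap (RatFunc k) c.L (algebraMap k[X] (RatFunc k) f)) : y ≠ 0 := by
  rintro rfl
  rw [zero_pow hm0.ne'] at hm
  exact (_root_.map_ne_zero _).2 (RatFunc.algebraMap_ne_zero hf) hm.symm

theorem exists_normal (c : Cover k G) (ch : ∀ a, Chart c a) (θ : F →+* k) (ψ : G →* Aff F)
    (f : k[X]) (hf : f ≠ 0) (y w : c.L)
    (hm : y ^ (Fintype.card F - 1) = algebraMap (RatFunc k) c.L (algebraMap k[X] (RatFunc k) f))
    (hy : ∀ σ : c.L ≃ₐ[RatFunc k] c.L,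
      σ y = algebraMap (RatFunc k) c.L (RatFunc.C (θ (ψ (c.ι σ)).u)) * y)
    (hw : ∀ σ : c.L ≃ₐ[RatFunc k] c.L,
      σ w = algebraMap (RatFunc k) c.L (RatFunc.C (θ (ψ (c.ι σ)).u)) * w +
        algebraMap (RatFunc k) c.L (RatFunc.C (θ (ψ (c.ι σ)).b))) :
    ∃ (r : RatFunc k) (β : k) (V : LaurentSeries k),
      (∀ a : k, Reg ((ch a).j (w - algebraMap (RatFunc k) c.L r * y))) ∧
      (ch ∞).j (w - algebraMap (RatFunc k) c.L r * y) =
        HahnSeries.C β + powL (ch ∞).e (ch ∞).he V * (ch ∞).j y ∧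
      ∀ n ≤ 0, V.coeff n = 0 := by
  classical
  have hy0 : y ≠ 0 := ne_zero_Bd3 c _ (Nat.sub_pos_of_lt Fintype.one_lt_card) f hf y hm
  obtain ⟨J, hJ⟩ := exists_isCharts k
  obtain ⟨hyr, S, hS⟩ := exists_finset_reg c ch θ ψ f hf y w hm hy hw
  choose β V hV using fun a : OnePoint k => (ch a).local_form θ ψ y w hy0 hy hw
  choose r hr hr' using fun a : k => hJ.exists_polar a (V a)
  obtain ⟨P, hP⟩ := hJ.exists_polar_infty (V ∞ - J ∞ (∑ a ∈ S, r a))
  have key : ∀ (a : OnePoint k) (s : RatFunc k), (ch a).j (w - algebraMap (RatFunc k) c.L s * y) =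
      HahnSeries.C (β a) + powL (ch a).e (ch a).he (V a - J a s) * (ch a).j y := by
    intro a s
    rw [map_sub, map_mul, (ch a).alg hJ, hV a, map_sub]
    ring
  refine ⟨∑ a ∈ S, r a + algebraMap k[X] (RatFunc k) P, β ∞, _, fun a => ?_, key ∞ _, ?_⟩
  · by_cases ha : a ∈ S
    · rw [key]
      refine (reg_C _).add (Reg.mul ((reg_powL_iff _ _ _).2 ?_) (hyr a))
      rw [← Finset.add_sum_erase S r ha, map_add, map_add, map_sum, ← sub_sub, ← sub_sub]
      refine ((hr a).sub (reg_sum_Bd3 _ _ fun b hb => hr' b a ?_)).sub (hJ.reg_poly a P)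
      exact (Finset.ne_of_mem_erase hb).symm
    · rw [map_sub, map_mul, (ch a).alg hJ]
      refine (hS a ha).sub (Reg.mul ((reg_powL_iff _ _ _).2 ?_) (hyr a))
      rw [map_add, map_sum]
      refine (reg_sum_Bd3 _ _ fun b hb => hr' b a ?_).add (hJ.reg_poly a P)
      rintro rfl
      exact ha hb
  · rw [map_add, ← sub_sub]
    exact hP

theorem reg_infty (c : Cover k G) (ch : Chart c ∞) (m r : ℕ) (hm0 : 0 < m) (f : k[X])
    (hf : f ≠ 0) (hd : f.natDegree ≤ r * m) (y : c.L)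
    (hm : y ^ m = algebraMap (RatFunc k) c.L (algebraMap k[X] (RatFunc k) f))
    (V : LaurentSeries k) (hV : ∀ n ≤ (r : ℤ), V.coeff n = 0) :
    Reg (powL ch.e ch.he V * ch.j y) := by
  have hy0 : ch.j y ≠ 0 := (_root_.map_ne_zero _).2 (ne_zero_Bd3 c m hm0 f hf y hm)
  by_cases h0 : powL ch.e ch.he V = 0
  · rw [h0, zero_mul]
    exact reg_zero_VF4
  have he : (0 : ℤ) < ch.e := by exact_mod_cast ch.he
  have h1 : ch.j y ^ m = f.eval₂ HahnSeries.C (expand (∞ : OnePoint k) ch.e) := by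
    rw [← map_pow, hm]
    exact hom_algebraMap (ch.j.comp (algebraMap (RatFunc k) c.L)) HahnSeries.C _ ch.hC ch.hX f
  have h2 := order_eval₂_expand_infty ch.e ch.he f hf
  rw [← h1, HahnSeries.order_pow, nsmul_eq_mul] at h2
  have h3 : -(ch.e * r : ℤ) ≤ (ch.j y).order := by
    have h4 : (f.natDegree : ℤ) ≤ r * m := by exact_mod_cast hd
    have h5 : (0 : ℤ) < m := by exact_mod_cast hm0
    refine le_of_mul_le_mul_left ?_ h5
    rw [h2]
    nlinarith
  have h6 : (ch.e * r : ℤ) ≤ (powL ch.e ch.he V).order := by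
    have h7 : (powL ch.e ch.he V).coeff (powL ch.e ch.he V).order ≠ 0 :=
      HahnSeries.coeff_order_eq_zero.not.2 h0
    by_cases hdv : (ch.e : ℤ) ∣ (powL ch.e ch.he V).order
    · obtain ⟨n, hn⟩ := hdv
      rw [hn, powL_coeff_mul] at h7
      rw [hn]
      refine mul_le_mul_of_nonneg_left ?_ he.le
      by_contra h8
      exact h7 (hV n (not_le.1 h8).le)
    · exact absurd (powL_coeff_of_not_dvd _ _ _ _ hdv) h7
  apply reg_of_order_VF4
  rw [HahnSeries.order_mul h0 hy0]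
  omega

end Pool.Agent.AdmG
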