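import Pool.Agent.AdmG.Bd3
import Pool.Agent.Adm.VF

/-! A linear relation between cocycles. -/

namespace Pool.Agent.AdmG

open Pool.Agent.Adm
open scoped OnePoint
open Polynomial

theorem reg_sum_Bd4 {k ι : Type} [Field k] (s : Finset ι) (f : ι → LaurentSeries k)
    (h : ∀ i ∈ s, Reg (f i)) : Reg (∑ i ∈ s, f i) :=
  Finset.sum_induction f Reg (fun _ _ => Reg.add) reg_zero_VF4 h

theorem exists_ker_Bd4 {k : Type} [Field k] (r : ℕ) (V : Fin (r + 1) → LaurentSeries k)
    (hV : ∀ i, ∀ n ≤ 0, (V i).coeff n = 0) : ∃ l : Fin (r + 1) → k, l ≠ 0 ∧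
      ∀ n ≤ (r : ℤ), (∑ i, HahnSeries.C (l i) * V i : LaurentSeries k).coeff n = 0 := by
  let M : Matrix (Fin r) (Fin (r + 1)) k := fun t i => (V i).coeff ((t : ℕ) + 1)
  obtain ⟨l, h1, h2⟩ := (Submodule.ne_bot_iff _).1
    (LinearMap.ker_ne_bot_of_finrank_lt (f := M.mulVecLin) (by simp))
  refine ⟨l, h2, fun n hn => ?_⟩
  simp only [HahnSeries.coeff_sum, HahnSeries.C_mul_eq_smul, HahnSeries.coeff_smul, smul_eq_mul]
  rcases le_or_gt n 0 with h | h
  · exact Finset.sum_eq_zero fun i _ => by rw [hV i n h, mul_zero]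
  · have h3 := congrFun (LinearMap.mem_ker.1 h1) ⟨(n - 1).toNat, by omega⟩
    have h4 : (((n - 1).toNat : ℕ) : ℤ) + 1 = n := by omega
    simpa only [Matrix.mulVecLin_apply, Matrix.mulVec, dotProduct, M, h4, mul_comm,
      Pi.zero_apply] using h3

variable {k G F : Type} [Field k] [IsAlgClosed k] [Group G] [Field F] [Fintype F]

omit [IsAlgClosed k] in
theorem exists_poly_Bd4 (c : Cover k G) (θ : F →+* k) {ι : Type} [Fintype ι] (a : ι → k)
    (ha : Function.Injective a) (S : Set (OnePoint k)) (hT : c.Tame S)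
    (hS : ∀ x : k, (x : OnePoint k) ∈ S → x ∈ Set.range a) (χ : G →* Fˣ) :
    ∃ f : k[X], f ≠ 0 ∧ f.natDegree ≤ Fintype.card ι * (Fintype.card F - 1) ∧
      ∀ x : k, ∃ e ζ g, c.Mono (x : OnePoint k) e ζ g ∧
        Lab (Fintype.card F - 1) e ζ (θ (χ g)) (f.rootMultiplicity x) := by
  classical
  choose e ζ g hm hg using hT
  have hm0 : 0 < Fintype.card F - 1 := Nat.sub_pos_of_lt Fintype.one_lt_card
  choose n hn hl using fun i => exists_lab (c := θ (χ (g (a i)))) hm0 (hm (a i)).1 (hm (a i)).2.1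
    (by rw [← map_pow, ← Units.val_pow_eq_pow_val, ← map_pow, (hm (a i)).pow_eq_one, map_one,
      Units.val_one, map_one])
    (by rw [← map_pow, FiniteField.pow_card_sub_one_eq_one _ (Units.ne_zero _), map_one])
  obtain ⟨h1, h2, h3, h4⟩ := rootMultiplicity_prod_X_sub_C a ha n
  refine ⟨_, h4.ne_zero, ?_, fun x => ⟨_, _, _, hm x, ?_⟩⟩
  · rw [h3]
    simpa using Finset.sum_le_card_nsmul Finset.univ n _ fun i _ => (hn i).le
  · by_cases hx : x ∈ Set.range a
    · obtain ⟨i, rfl⟩ := hx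
      rw [h1]
      exact hl i
    · rw [h2 x hx, hg x fun h => hx (hS x h), map_one, Units.val_one, map_one]
      exact lab_one _ _ _

theorem exists_relation (c : Cover k G) (θ : F →+* k) {ι : Type} [Fintype ι] (a : ι → k)
    (ha : Function.Injective a) (S : Set (OnePoint k)) (hT : c.Tame S)
    (hS : ∀ x : k, (x : OnePoint k) ∈ S → x ∈ Set.range a) (χ : G →* Fˣ)
    (ψ : Fin (Fintype.card ι + 1) → G →* Aff F) (hψ : ∀ i, Aff.lin.comp (ψ i) = χ) :
    ∃ l : Fin (Fintype.card ι + 1) → k, l ≠ 0 ∧ ∃ z : k, ∀ σ : c.L ≃ₐ[RatFunc k] c.L,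
      ∑ i, l i * θ (ψ i (c.ι σ)).b = z * (1 - θ (χ (c.ι σ))) := by
  have hu : ∀ i g, (ψ i g).u = χ g := fun i g => DFunLike.congr_fun (hψ i) g
  have hm0 : 0 < Fintype.card F - 1 := Nat.sub_pos_of_lt Fintype.one_lt_card
  have hch : ∀ x, Nonempty (Chart c x) := fun x => by
    obtain ⟨e, ζ, g, h, -⟩ := hT x
    exact ⟨(Chart.of_mono h).choose⟩
  let ch : ∀ x, Chart c x := fun x => (hch x).some
  obtain ⟨f, hf, hd, hl⟩ := exists_poly_Bd4 c θ a ha S hT hS χ
  choose y w hy1 hy2 hw using fun i =>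
    c.exists_norm_gens θ (ψ i) f hf (by simpa only [hu] using hl)
  choose r β V h1 h2 h3 using fun i => exists_normal c ch θ (ψ i) f hf (y 0) (w i) (hy1 0)
    (by simpa only [hu] using hy2 0) (hw i)
  obtain ⟨l, hl0, hl1⟩ := exists_ker_Bd4 _ V h3
  refine ⟨l, hl0, ?_⟩
  set W : c.L := ∑ i, algebraMap (RatFunc k) c.L (RatFunc.C (l i)) *
    (w i - algebraMap (RatFunc k) c.L (r i) * y 0) with hW
  have hσ : ∀ σ : c.L ≃ₐ[RatFunc k] c.L,
      σ W = algebraMap (RatFunc k) c.L (RatFunc.C (θ (χ (c.ι σ)))) * W +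
        algebraMap (RatFunc k) c.L (RatFunc.C (∑ i, l i * θ (ψ i (c.ι σ)).b)) := fun σ => by
    simp only [hW, map_sum, map_mul, map_sub, AlgEquiv.commutes, hy2, hw, hu, Finset.mul_sum,
      ← Finset.sum_add_distrib]
    exact Finset.sum_congr rfl fun i _ => by ring
  have hreg : ∀ x, Reg ((ch x).j W) := fun x => by
    induction x using OnePoint.rec with
    | infty =>
      have h4 := reg_infty c (ch ∞) _ _ hm0 f hf hd (y 0) (hy1 0) _ hl1
      have h5 : (ch ∞).j W = HahnSeries.C (∑ i, l i * β i) +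
          powL (ch ∞).e (ch ∞).he (∑ i, HahnSeries.C (l i) * V i) * (ch ∞).j (y 0) := by
        rw [hW, map_sum]
        simp only [map_mul (ch ∞).j (algebraMap (RatFunc k) c.L (RatFunc.C _)), h2, (ch ∞).hC]
        simp only [map_sum, map_mul, powL_C, Finset.sum_mul, ← Finset.sum_add_distrib]
        exact Finset.sum_congr rfl fun i _ => by ring
      rw [h5]
      exact (reg_C_VF4 _).add h4
    | coe x =>
      rw [hW, map_sum]
      refine reg_sum_Bd4 _ _ fun i _ => ?_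
      rw [map_mul, (ch x).hC]
      exact (reg_C_VF4 _).mul (h1 i x)
  obtain ⟨z, hz⟩ := const_of_reg c ch W fun x σ => by
    rw [hσ, map_add, map_mul, (ch x).hC, (ch x).hC]
    exact ((reg_C_VF4 _).mul (hreg x)).add (reg_C_VF4 _)
  refine ⟨z, fun σ => ?_⟩
  have h6 := hσ σ
  rw [hz, AlgEquiv.commutes, ← map_mul, ← map_add, ← map_mul, ← map_add] at h6
  have h7 := RatFunc.C.injective ((algebraMap (RatFunc k) c.L).injective h6)
  linear_combination -h7

end Pool.Agent.AdmG
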