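import Pool.Agent.AdmG.AP
import Pool.Agent.Adm.LabL

/-! Counting homomorphisms to the affine group. -/

namespace Pool.Agent.AdmG

open Pool.Agent.Adm
open scoped OnePoint

variable {k G F : Type} [Field k] [Group G] [Finite G] [Field F] [Fintype F]

/-- The cocycles for a character. -/
def cocy_Bd5 (χ : G →* Fˣ) : Submodule F (G → F) where
  carrier := {b | ∀ g h, b (g * h) = χ h * b g + b h}
  zero_mem' g h := by simp
  add_mem' ha hb g h := by
    simp only [Pi.add_apply, ha g h, hb g h]
    ring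
  smul_mem' c b hb g h := by
    simp only [Pi.smul_apply, smul_eq_mul, hb g h]
    ring

theorem card_fibre_le (θ : F →+* k) (χ : G →* Fˣ) (r : ℕ)
    (h : ∀ ψ : Fin (r + 1) → G →* Aff F, (∀ i, Aff.lin.comp (ψ i) = χ) →
      ∃ l : Fin (r + 1) → k, l ≠ 0 ∧ ∃ z : k, ∀ g : G,
        ∑ i, l i * θ (ψ i g).b = z * (1 - θ (χ g))) :
    Nat.card {ψ : G →* Aff F // Aff.lin.comp ψ = χ} ≤ Fintype.card F ^ (r + 1) := by
  classical
  let w : G → F := fun g => 1 - (χ g : F)
  let Q : cocy_Bd5 χ →ₗ[F] (G → F) ⧸ Submodule.span F {w} :=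
    (Submodule.span F {w}).mkQ ∘ₗ (cocy_Bd5 χ).subtype
  have h1 : Module.finrank F (LinearMap.range Q) ≤ r := by
    by_contra hlt
    obtain ⟨v, hv⟩ := exists_linearIndependent_of_le_finrank (R := F) (M := LinearMap.range Q)
      (n := r + 1) (by omega)
    choose b hb using fun i => (v i).2
    obtain ⟨l, hl, z, hz⟩ := h (fun i => MonoidHom.mk' (fun g => ⟨χ g, (b i).1 g⟩)
      fun g g' => Aff.ext (map_mul χ g g') ((b i).2 g g')) fun i => MonoidHom.ext fun g => rfl
    obtain ⟨i0, hi0⟩ := Function.ne_iff.1 hl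
    let _ : Algebra F k := θ.toAlgebra
    obtain ⟨π, hπ⟩ := LinearMap.exists_leftInverse_of_injective
      (LinearMap.toSpanSingleton F k (l i0))
      (LinearMap.ker_toSpanSingleton F hi0)
    have hπ1 : π (l i0) = 1 := by simpa using LinearMap.congr_fun hπ 1
    have hm : ∀ (x : k) (c : F), π (x * θ c) = π x * c := fun x c => by
      rw [mul_comm x, mul_comm (π x), ← smul_eq_mul c, ← map_smul]
      rfl
    have h0 : ∑ i, π (l i) • v i = 0 := by
      apply Subtype.ext
      simp only [Submodule.coe_sum, Submodule.coe_smul, ← hb, ← map_smul, ← map_sum,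
        Submodule.coe_zero]
      refine (Submodule.Quotient.mk_eq_zero _).2 (Submodule.mem_span_singleton.2 ⟨π z, ?_⟩)
      funext g
      have := congrArg π (hz g)
      rw [← map_one θ, ← map_sub, hm, map_sum] at this
      simp only [hm, MonoidHom.mk'_apply] at this
      simp [w, ← this, Finset.sum_apply]
    have := Fintype.linearIndependent_iff.1 hv _ h0 i0
    rw [hπ1] at this
    exact one_ne_zero this
  have h2 : Module.finrank F (LinearMap.ker Q) ≤ 1 := by
    let j : LinearMap.ker Q →ₗ[F] Submodule.span F {w} :=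
      LinearMap.codRestrict _ ((cocy_Bd5 χ).subtype ∘ₗ (LinearMap.ker Q).subtype) fun x =>
        (Submodule.Quotient.mk_eq_zero _).1 x.2
    have hj : Function.Injective j := fun x y e => by
      have e' := congrArg Subtype.val e
      exact Subtype.ext (Subtype.ext e')
    refine (LinearMap.finrank_le_finrank_of_injective hj).trans ?_
    simpa using finrank_span_le_card (R := F) ({w} : Set (G → F))
  have h3 := Q.finrank_range_add_finrank_ker
  have h4 : Nat.card {ψ : G →* Aff F // Aff.lin.comp ψ = χ} ≤ Nat.card (cocy_Bd5 χ) := by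
    refine Nat.card_le_card_of_injective (fun ψ => ⟨fun g => (ψ.1 g).b, fun g g' => ?_⟩) ?_
    · beta_reduce
      rw [map_mul, Aff.mul_b, ← DFunLike.congr_fun ψ.2 g']
      rfl
    · intro ψ ψ' e
      refine Subtype.ext (MonoidHom.ext fun g => Aff.ext ?_ (congrFun (congrArg Subtype.val e) g))
      exact (DFunLike.congr_fun ψ.2 g).trans (DFunLike.congr_fun ψ'.2 g).symm
  refine h4.trans ?_
  rw [Module.natCard_eq_pow_finrank (K := F), Nat.card_eq_fintype_card]
  exact Nat.pow_le_pow_right Fintype.card_pos (by omega)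

theorem card_hom_aff_le (N M : ℕ) (h1 : Nat.card (G →* Fˣ) ≤ N)
    (h2 : ∀ χ : G →* Fˣ, Nat.card {ψ : G →* Aff F // Aff.lin.comp ψ = χ} ≤ M) :
    Nat.card (G →* Aff F) ≤ N * M := by
  classical
  have : Finite (G →* Fˣ) := Finite.of_injective _ DFunLike.coe_injective
  have : Finite (G →* Aff F) := Finite.of_injective _ DFunLike.coe_injective
  let _ : Fintype (G →* Fˣ) := Fintype.ofFinite _
  rw [← Nat.card_congr (Equiv.sigmaFiberEquiv fun ψ : G →* Aff F => Aff.lin.comp ψ),
    Nat.card_sigma]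
  refine (Finset.sum_le_card_nsmul _ _ M fun χ _ => h2 χ).trans ?_
  rw [smul_eq_mul, Finset.card_univ, ← Nat.card_eq_fintype_card]
  exact Nat.mul_le_mul_right _ h1

theorem card_hom_sup_le {A : Type} [Group A] [Finite A] (H1 H2 : Subgroup G) :
    Nat.card (↥(H1 ⊔ H2) →* A) ≤ Nat.card (H1 →* A) * Nat.card (H2 →* A) := by
  have : Finite (H1 →* A) := Finite.of_injective _ DFunLike.coe_injective
  have : Finite (H2 →* A) := Finite.of_injective _ DFunLike.coe_injective
  rw [← Nat.card_prod]
  refine Nat.card_le_card_of_injective (fun ψ => (ψ.comp (Subgroup.inclusion le_sup_left),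
    ψ.comp (Subgroup.inclusion le_sup_right))) fun ψ ψ' e => ?_
  obtain ⟨e1, e2⟩ := Prod.mk.inj e
  have : H1 ⊔ H2 ≤ (ψ.eqLocus ψ').map (H1 ⊔ H2).subtype :=
    sup_le (fun x hx => ⟨⟨x, Subgroup.mem_sup_left hx⟩,
        by have := DFunLike.congr_fun e1 ⟨x, hx⟩; exact this, rfl⟩)
      fun x hx => ⟨⟨x, Subgroup.mem_sup_right hx⟩,
        by have := DFunLike.congr_fun e2 ⟨x, hx⟩; exact this, rfl⟩
  ext x
  obtain ⟨y, hy, e⟩ := this x.2
  obtain rfl : y = x := Subtype.ext e
  exact hy

theorem card_hom_gen_le {A J : Type} [Group A] [Finite A] [Finite J] (H : Subgroup G) (t : J → G)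
    (h : H ⊔ Subgroup.closure (Set.range t) = ⊤) :
    Nat.card (G →* A) ≤ Nat.card (H →* A) * Nat.card A ^ Nat.card J := by
  have : Finite (H →* A) := Finite.of_injective _ DFunLike.coe_injective
  rw [← Nat.card_fun, ← Nat.card_prod]
  refine Nat.card_le_card_of_injective (fun ψ => (ψ.comp H.subtype, fun j => ψ (t j)))
    fun ψ ψ' e => ?_
  obtain ⟨e1, e2⟩ := Prod.mk.inj e
  have : ⊤ ≤ ψ.eqLocus ψ' := by
    rw [← h]
    refine sup_le (fun x hx => ?_) ((Subgroup.closure_le _).2 ?_)
    · have := DFunLike.congr_fun e1 ⟨x, hx⟩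
      exact this
    · rintro _ ⟨j, rfl⟩
      exact congrFun e2 j
  exact MonoidHom.ext fun x => this (Subgroup.mem_top x)

theorem card_hom_lt {A G' : Type} [Group A] [Finite A] [Group G'] [Finite G'] (pr : G' →* G)
    (hpr : Function.Surjective pr) (ψ : G' →* A) (x : G') (h1 : pr x = 1) (h2 : ψ x ≠ 1) :
    Nat.card (G →* A) < Nat.card (G' →* A) := by
  have : Finite (G' →* A) := Finite.of_injective _ DFunLike.coe_injective
  have : Finite (G →* A) := Finite.of_injective _ DFunLike.coe_injective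
  let _ : Fintype (G →* A) := Fintype.ofFinite _
  let _ : Fintype (G' →* A) := Fintype.ofFinite _
  rw [Nat.card_eq_fintype_card, Nat.card_eq_fintype_card]
  refine Fintype.card_lt_of_injective_of_notMem (fun φ => φ.comp pr)
    (fun φ φ' e => (MonoidHom.cancel_right hpr).1 e) (b := ψ) ?_
  rintro ⟨φ, rfl⟩
  exact h2 (by simp [h1])

end Pool.Agent.AdmG
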