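import Pool.Agent.AdmG.AP
import Pool.Agent.Adm.GA
import Pool.Agent.Adm.VP

/-! Formal properties of trees. -/

namespace Pool.Agent.AdmG

open Pool.Agent.Adm
open scoped OnePoint

variable {k ι ι' : Type} [Field k]

omit [Field k] in
theorem dpush_inj_Nice {G G' : Type} {f : G → G'} (hf : Function.Injective f) {x y : Dat k G}
    (h : dpush f x = dpush f y) : x = y := by
  obtain ⟨a, b, c⟩ := x
  obtain ⟨a', b', c'⟩ := y
  simp only [dpush, Prod.mk.injEq] at h
  obtain ⟨h1, h2, h3⟩ := h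
  rw [h1, h2, hf h3]

theorem tame_restr_Nice {G : Type} [Group G] {c : Cover k G} {S : Set (OnePoint k)}
    (hT : c.Tame S) (H : Subgroup G) (h : c.ι.range ≤ H) : (c.restr H h).Tame S := by
  intro a
  obtain ⟨e, ζ, g, hm, hg⟩ := hT a
  exact ⟨e, ζ, _, hm.restr H h, fun ha => Subtype.ext (hg ha)⟩

theorem nice_vtx (a : ι → OnePoint k) : Nice (vtx a) := by
  refine ⟨?_, ?_, ?_, ?_⟩
  · rintro G _ d H ⟨c, -, hm, rfl⟩ i
    have h : c.Mono (a i) (d i).1 (d i).2.1 (d i).2.2 := hm i
    exact ⟨h.1, h.2.1, h.pow_eq_one, h.mem_range⟩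
  · rintro G G' _ _ f d H ⟨c, hT, hm, rfl⟩
    refine ⟨c.map f, fun b => ?_, fun i => Cover.Mono.map (hm i) f, c.map_range f⟩
    obtain ⟨e, ζ, g, h1, h2⟩ := hT b
    exact ⟨e, ζ, f g, h1.map f, fun hb => by rw [h2 hb, map_one]⟩
  · rintro G _ d H M ⟨c, hT, hm, rfl⟩ hM
    exact ⟨fun i => ((d i).1, (d i).2.1, ⟨(d i).2.2, hM (Cover.Mono.mem_range (hm i))⟩),
      ⟨c.restr M hM, tame_restr_Nice hT M hM, fun i => Cover.Mono.restr (hm i) M hM, c.restr_range M hM⟩,
      fun i => rfl⟩
  · intro G _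
    obtain ⟨c, h1, h2⟩ := exists_trivial_cover k G
    exact ⟨c, fun b => ⟨1, 1, 1, h2 b 1 1 one_pos IsPrimitiveRoot.one, fun _ => rfl⟩,
      fun i => h2 (a i) 1 1 one_pos IsPrimitiveRoot.one, h1⟩

theorem Nice.glue {P : AP k (Option ι)} {Q : AP k (Option ι')} (hP : Nice P) (hQ : Nice Q) :
    Nice (glue P Q) := by
  refine ⟨?_, ?_, ?_, ?_⟩
  · rintro G _ d H ⟨x, H1, H2, h1, h2, rfl⟩ (i | i)
    · obtain ⟨a, b, c, e⟩ := hP.valid G _ H1 h1 (some i)
      exact ⟨a, b, c, (le_sup_left : H1 ≤ H1 ⊔ H2) e⟩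
    · obtain ⟨a, b, c, e⟩ := hQ.valid G _ H2 h2 (some i)
      exact ⟨a, b, c, (le_sup_right : H2 ≤ H1 ⊔ H2) e⟩
  · rintro G G' _ _ f d H ⟨x, H1, H2, h1, h2, rfl⟩
    refine ⟨dpush f x, H1.map f, H2.map f, ?_, ?_, Subgroup.map_sup H1 H2 f⟩
    · convert hP.map G G' f _ H1 h1 using 2 with o
      cases o <;> rfl
    · convert hQ.map G G' f _ H2 h2 using 2 with o
      cases o <;> rfl
  · rintro G _ d H M ⟨x, H1, H2, h1, h2, rfl⟩ hM
    obtain ⟨d1, p1, q1⟩ := hP.restr G _ H1 M h1 (le_sup_left.trans hM)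
    obtain ⟨d2, p2, q2⟩ := hQ.restr G _ H2 M h2 (le_sup_right.trans hM)
    have hx : d2 none = dinv (d1 none) := by
      apply dpush_inj_Nice M.subtype_injective
      have e1 : dpush M.subtype (d1 none) = x := q1 none
      have e2 : dpush M.subtype (d2 none) = dinv x := q2 none
      rw [e2, ← e1]
      rfl
    refine ⟨Sum.elim (fun i => d1 (some i)) fun i => d2 (some i), ⟨d1 none, H1.subgroupOf M,
      H2.subgroupOf M, ?_, ?_, ?_⟩, ?_⟩
    · convert p1 using 2 with o
      cases o <;> rfl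
    · convert p2 using 2 with o
      cases o
      · exact hx.symm
      · rfl
    · exact Subgroup.subgroupOf_sup (le_sup_left.trans hM) (le_sup_right.trans hM)
    · rintro (i | i)
      · exact q1 (some i)
      · exact q2 (some i)
  · intro G _
    refine ⟨(1, 1, 1), ⊥, ⊥, ?_, ?_, (sup_idem _).symm⟩
    · convert hP.triv G using 2 with o
      cases o <;> rfl
    · convert hQ.triv G using 2 with o
      cases o
      · simp [dinv]
      · rfl

theorem Nice.reidx (e : ι ≃ ι') {P : AP k ι} (hP : Nice P) : Nice (reidx e P) := by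
  refine ⟨?_, ?_, ?_, ?_⟩
  · intro G _ d H h i
    have := hP.valid G _ H h (e.symm i)
    simpa only [Equiv.apply_symm_apply] using this
  · intro G G' _ _ f d H h
    exact hP.map G G' f _ H h
  · intro G _ d H M h hM
    obtain ⟨d1, p1, q1⟩ := hP.restr G _ H M h hM
    refine ⟨fun i => d1 (e.symm i), ?_, fun i => ?_⟩
    · change P M (fun i => d1 (e.symm (e i))) _
      simpa only [Equiv.symm_apply_apply] using p1
    · have := q1 (e.symm i)
      simpa only [Equiv.apply_symm_apply] using this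
  · intro G _
    exact hP.triv G

theorem Tr.nice {P : AP k ι} (h : Tr k ι P) : Nice P := by
  induction h with
  | vtx a _ _ => exact nice_vtx a
  | glue _ _ h1 h2 => exact h1.glue h2
  | reidx e _ h1 => exact h1.reidx e

theorem Tr.finite {P : AP k ι} (h : Tr k ι P) : Finite ι := by
  induction h with
  | vtx a _ _ => infer_instance
  | @glue ι ι' _ _ _ _ h1 h2 =>
    have : Finite ι := Finite.of_injective _ (Option.some_injective ι)
    have : Finite ι' := Finite.of_injective _ (Option.some_injective ι')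
    infer_instance
  | reidx e _ h1 => exact Finite.of_equiv _ e

end Pool.Agent.AdmG
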