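import Pool.Agent.AdmG.Bd4
import Pool.Agent.AdmG.Bd5
import Pool.Agent.AdmG.Nice

/-! Boundedness of the number of affine quotients. -/

namespace Pool.Agent.AdmG

open Pool.Agent.Adm
open scoped OnePoint

variable {k F ι : Type} [Field k] [IsAlgClosed k] [Field F] [Fintype F]

theorem bound_vtx (θ : F →+* k) [Finite ι] (a : ι → OnePoint k) (ha : Function.Injective a) :
    ∃ N : ℕ, ∀ (G : Type) [Group G] [Finite G] (d : ι → Dat k G) (H : Subgroup G),
      vtx a G d H → Nat.card (H →* Aff F) ≤ N := by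
  have hf : Finite {x : k // (x : OnePoint k) ∈ Set.range a} :=
    Finite.of_injective (fun x => x.2.choose) fun x y e => Subtype.ext (OnePoint.coe_injective
      (x.2.choose_spec.symm.trans ((congrArg a e).trans y.2.choose_spec)))
  have := Fintype.ofFinite {x : k // (x : OnePoint k) ∈ Set.range a}
  refine ⟨Fintype.card F ^ Fintype.card {x : k // (x : OnePoint k) ∈ Set.range a} *
    Fintype.card F ^ (Fintype.card {x : k // (x : OnePoint k) ∈ Set.range a} + 1), ?_⟩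
  rintro G _ _ d H ⟨c, hT, -, hc⟩
  have h1 : (c.restr H hc.le).ι.range = ⊤ := by
    rw [c.restr_range, hc, Subgroup.subgroupOf_self]
  have h2 := hT.restr H hc.le
  refine card_hom_aff_le _ _ ((c.restr H hc.le).card_hom_le θ h1
    (fun i => ((Fintype.equivFin {x : k // (x : OnePoint k) ∈ Set.range a}).symm i).1) _ h2
    fun x hx => ⟨Fintype.equivFin _ ⟨x, hx⟩, by simp⟩).2 fun χ => card_fibre_le θ χ _ fun ψ hψ => ?_
  obtain ⟨l, hl, z, hz⟩ := exists_relation (c.restr H hc.le) θ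
    (fun x : {x : k // (x : OnePoint k) ∈ Set.range a} => x.1) Subtype.val_injective _ h2
    (fun x hx => ⟨⟨x, hx⟩, rfl⟩) χ ψ hψ
  refine ⟨l, hl, z, fun g => ?_⟩
  obtain ⟨σ, rfl⟩ : g ∈ (c.restr H hc.le).ι.range := h1 ▸ Subgroup.mem_top g
  exact hz σ

theorem Tr.bound (θ : F →+* k) {P : AP k ι} (h : Tr k ι P) :
    ∃ N : ℕ, ∀ (G : Type) [Group G] [Finite G] (d : ι → Dat k G) (H : Subgroup G),
      P G d H → Nat.card (H →* Aff F) ≤ N := by
  induction h with
  | vtx a ha _ => exact bound_vtx θ a ha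
  | glue _ _ ih1 ih2 =>
    obtain ⟨N1, h1⟩ := ih1
    obtain ⟨N2, h2⟩ := ih2
    refine ⟨N1 * N2, ?_⟩
    rintro G _ _ d H ⟨x, H1, H2, a1, a2, rfl⟩
    exact (card_hom_sup_le H1 H2).trans (Nat.mul_le_mul (h1 G _ _ a1) (h2 G _ _ a2))
  | reidx e _ ih =>
    obtain ⟨N, h1⟩ := ih
    exact ⟨N, fun G _ _ d H a => h1 G _ H a⟩

theorem Tr.bound_cl (θ : F →+* k) {J I : Type} {P : AP k ((J ⊕ J) ⊕ I)} (h : Tr k _ P) :
    ∃ N : ℕ, ∀ (G : Type) [Group G] [Finite G], Cl P G → Nat.card (G →* Aff F) ≤ N := by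
  obtain ⟨N, h1⟩ := h.bound θ
  have := h.finite
  have : Finite J := Finite.of_injective (fun j : J => (.inl (.inl j) : (J ⊕ J) ⊕ I))
    fun _ _ e => Sum.inl_injective (Sum.inl_injective e)
  refine ⟨N * Nat.card (Aff F) ^ Nat.card J, ?_⟩
  rintro G _ _ ⟨d, H, t, a, -, ht⟩
  exact (card_hom_gen_le H t ht).trans (Nat.mul_le_mul_right _ (h1 G d H a))

end Pool.Agent.AdmG
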