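import Pool.Agent.AdmG.Defs

/-! Transport of places and coverings along an isomorphism of function fields. -/

namespace Pool.Agent.AdmG

variable {k K K' : Type} [Field k] [Field K] [Field K'] [Algebra k K] [Algebra k K']

/-- Pull back of a place. -/
def pull_BgC (e : K' ≃ₐ[k] K) (P : Place k K) : Place k K' :=
  ⟨P.1.comap (e : K' →+* K), P.2.1.comp e.surjective, fun c hc => by
    rw [Valuation.comap_apply]
    exact (congrArg P.1 (e.commutes c)).trans (P.2.2 c hc)⟩

theorem exists_place_equiv (e : K' ≃ₐ[k] K) :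
    ∃ β : Place k K ≃ Place k K', ∀ (P : Place k K) (f : K'), (β P).1 f = P.1 (e f) :=
  ⟨⟨pull_BgC e, pull_BgC e.symm,
    fun P => Subtype.ext (Valuation.ext fun f => congrArg P.1 (e.apply_symm_apply f)),
    fun P => Subtype.ext (Valuation.ext fun f => congrArg P.1 (e.symm_apply_apply f))⟩,
    fun _ _ => rfl⟩

theorem Cov.exists_transport {G : Type} [Group G] (e : K' ≃ₐ[k] K) (c : Cov K G) :
    ∃ c' : Cov K' G, c'.ι.range = c.ι.range ∧
      ∀ (P : Place k K) (P' : Place k K'), (∀ f, P'.1 f = P.1 (e f)) →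
        ∀ m ζ g, c.Mono P m ζ g → c'.Mono P' m ζ g := by
  let A : Algebra K' c.L := ((algebraMap K c.L).comp (e : K' →+* K)).toAlgebra
  have h0 : ∀ f, algebraMap K' c.L f = algebraMap K c.L (e f) := fun _ => rfl
  have hc : (algebraMap K' c.L).comp (e.symm.toRingEquiv : K →+* K') =
      ((RingEquiv.refl c.L : c.L ≃+* c.L) : c.L →+* c.L).comp (algebraMap K c.L) := by
    ext x
    exact congrArg (algebraMap K c.L) (e.apply_symm_apply x)
  have : FiniteDimensional K' c.L := Module.Finite.of_equiv_equiv _ _ hc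
  have : IsGalois K' c.L := IsGalois.of_equiv_equiv hc
  let μ : (c.L ≃ₐ[K'] c.L) ≃* (c.L ≃ₐ[K] c.L) :=
    { toFun := fun σ => AlgEquiv.ofRingEquiv (f := σ.toRingEquiv) fun x => by
        obtain ⟨y, rfl⟩ := e.surjective x
        exact σ.commutes y
      invFun := fun σ => AlgEquiv.ofRingEquiv (f := σ.toRingEquiv) fun x => σ.commutes (e x)
      left_inv := fun _ => rfl
      right_inv := fun _ => rfl
      map_mul' := fun _ _ => rfl }
  refine ⟨{ L := c.L, ι := c.ι.comp μ.toMonoidHom }, ?_, ?_⟩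
  · ext g
    exact ⟨fun ⟨σ, h⟩ => ⟨μ σ, h⟩, fun ⟨σ, h⟩ => ⟨μ.symm σ, h⟩⟩
  · rintro P P' hP m ζ g ⟨h1, h2, j, h3, h4, σ, h5, h6⟩
    refine ⟨h1, h2, j, fun x => ?_, fun f n hf => h4 (e f) n (hP f ▸ hf), μ.symm σ, h5, h6⟩
    exact (congrArg (fun y => j (algebraMap K c.L y)) (e.commutes x)).trans (h3 x)

end Pool.Agent.AdmG
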