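import Pool.Agent.AdmG.BgR0

/-! A function field of genus zero over an algebraically closed field is rational. -/

namespace Pool.Agent.AdmG

open scoped IntermediateField

section

variable {k K : Type} [Field k] [Field K] [Algebra k K]

theorem mem_RR_BgR {P : Place k K} {m : ℤ} {f : K} : f ∈ RR (Finsupp.single P m) ↔
    P.1 f ≤ WithZero.exp m ∧ ∀ Q : Place k K, Q ≠ P → Q.1 f ≤ 1 := by
  constructor
  · intro h
    refine ⟨?_, fun Q hQ => ?_⟩
    · have := h P
      rwa [Finsupp.single_eq_same] at this
    · have := h Q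
      rwa [Finsupp.single_eq_of_ne hQ, WithZero.exp_zero] at this
  · rintro ⟨h, h'⟩ Q
    by_cases hQ : Q = P
    · rwa [hQ, Finsupp.single_eq_same]
    · rw [Finsupp.single_eq_of_ne hQ, WithZero.exp_zero]
      exact h' Q hQ

theorem mul_mem_BgR {P : Place k K} {m n : ℤ} {f g : K} (hf : f ∈ RR (Finsupp.single P m))
    (hg : g ∈ RR (Finsupp.single P n)) : f * g ∈ RR (Finsupp.single P (m + n)) := by
  intro Q
  rw [map_mul, Finsupp.single_add, Finsupp.add_apply, WithZero.exp_add]
  exact mul_le_mul' (hf Q) (hg Q)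

theorem mono_BgR {P : Place k K} {m n : ℤ} (h : m ≤ n) {f : K}
    (hf : f ∈ RR (Finsupp.single P m)) : f ∈ RR (Finsupp.single P n) :=
  mem_RR_BgR.2 ⟨(mem_RR_BgR.1 hf).1.trans (WithZero.exp_le_exp.2 h), (mem_RR_BgR.1 hf).2⟩

theorem one_mem_BgR (P : Place k K) : (1 : K) ∈ RR (Finsupp.single P 0) := by
  intro Q
  simp

theorem pow_mem_BgR {P : Place k K} {f : K} (hf : f ∈ RR (Finsupp.single P 1)) (n : ℕ) :
    f ^ n ∈ RR (Finsupp.single P n) := by
  induction n with
  | zero =>
    rw [pow_zero]
    exact one_mem_BgR P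
  | succ n ih =>
    rw [pow_succ, Nat.cast_succ]
    exact mul_mem_BgR ih hf

theorem le_one_BgR (Q : Place k K) {x w : K} (hx : Q.1 x ≤ 1)
    (hw : IsIntegral (Algebra.adjoin k {x}) w) : Q.1 w ≤ 1 := by
  have h : (Algebra.adjoin k {x}).toSubring ≤ Q.1.integer := by
    intro y hy
    have hy' : y ∈ Algebra.adjoin k {x} := hy
    clear hy
    induction hy' using Algebra.adjoin_induction with
    | mem y hy => exact hy ▸ hx
    | algebraMap c =>
      rcases eq_or_ne c 0 with rfl | hc
      · rw [map_zero]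
        exact zero_mem _
      · exact (Q.2.2 c hc).le
    | add y z _ _ hy hz => exact add_mem hy hz
    | mul y z _ _ hy hz => exact mul_mem hy hz
  exact (Valuation.integer.integers Q.1).isIntegral_iff_v_le_one.1
    (hw.map_of_comp_eq (Subring.inclusion h) (RingHom.id K) rfl)

theorem indep_BgR {x w : K} (hx : Transcendental k x) (hw : w ∉ k⟮x⟯) :
    LinearIndependent k fun p : ℕ × Fin 2 => x ^ p.1 * ![1, w] p.2 := by
  have h1 : LinearIndependent k fun i : ℕ => x ^ i := by
    have := (Polynomial.basisMonomials k).linearIndependent.map' (Polynomial.aeval x).toLinearMap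
      (LinearMap.ker_eq_bot.2 (transcendental_iff_injective.1 hx))
    have e : (Polynomial.aeval x).toLinearMap ∘ Polynomial.basisMonomials k =
        fun i : ℕ => x ^ i := by
      funext i
      simp [Polynomial.aeval_monomial]
    rwa [e] at this
  have h2 : LinearIndependent k fun i : ℕ => IntermediateField.AdjoinSimple.gen k x ^ i :=
    LinearIndependent.of_comp k⟮x⟯.val.toLinearMap h1
  have h3 : LinearIndependent k⟮x⟯ ![1, w] := by
    refine (LinearIndependent.pair_iff' one_ne_zero).2 fun a e => hw ?_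
    rw [← e, Algebra.smul_def, mul_one]
    exact a.2
  exact linearIndependent_smul h2 h3

end

theorem exists_equiv_of_genus_zero {k K : Type} [Field k] [IsAlgClosed k] [Field K] [Algebra k K]
    (ff : ∃ x : K, Transcendental k x ∧ FiniteDimensional k⟮x⟯ K) (hg : HasGenus k K 0)
    (P : Place k K) : Nonempty (RatFunc k ≃ₐ[k] K) := by
  have h2 : 2 ≤ Module.finrank k (RR (Finsupp.single P 1)) := by
    have := hg.2 ⟨Finsupp.single P 1, rfl⟩
    rw [Finsupp.sum_single_index rfl] at this
    omega
  have hfin : FiniteDimensional k (RR (Finsupp.single P 1)) :=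
    Module.finite_of_finrank_pos (by omega)
  obtain ⟨x, hx, hx'⟩ : ∃ x ∈ RR (Finsupp.single P 1), x ∉ Submodule.span k {(1 : K)} := by
    by_contra hno
    have hle : RR (Finsupp.single P 1) ≤ Submodule.span k {(1 : K)} := fun x hx => by
      by_contra h
      exact hno ⟨x, hx, h⟩
    have := Submodule.finrank_mono hle
    rw [finrank_span_singleton one_ne_zero] at this
    omega
  have ht : Transcendental k x := by
    intro h
    obtain ⟨c, hc⟩ : x ∈ (algebraMap k K).range := minpoly.mem_range_of_degree_eq_one k x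
      (IsAlgClosed.degree_eq_one_of_irreducible k (minpoly.irreducible h.isIntegral))
    exact hx' (Submodule.mem_span_singleton.2 ⟨c, by rw [Algebra.smul_def, mul_one, hc]⟩)
  have hgr : ∀ n : ℕ, FiniteDimensional k (RR (Finsupp.single P (1 + (n : ℤ)))) ∧
      Module.finrank k (RR (Finsupp.single P (1 + (n : ℤ)))) ≤
        Module.finrank k (RR (Finsupp.single P 1)) + n := by
    intro n
    induction n with
    | zero =>
      rw [Nat.cast_zero, add_zero]
      exact ⟨hfin, le_rfl⟩
    | succ n ih =>
      obtain ⟨h1, h2⟩ := finrank_RR_succ ff P _ ih.1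
      rw [Nat.cast_succ, ← add_assoc]
      exact ⟨h1, by omega⟩
  have htop : k⟮x⟯ = ⊤ := by
    refine top_unique fun w _ => ?_
    by_contra hw
    obtain ⟨a, ha, hi⟩ := (IntermediateField.isAlgebraic_adjoin_iff.1
      ((finiteDimensional_of_transcendental ff x ht).isAlgebraic w)).exists_integral_multiple
    obtain ⟨u, hu⟩ : ∃ u, u = a • w := ⟨_, rfl⟩
    rw [← hu] at hi
    have hu' : u ∉ k⟮x⟯ := by
      intro h
      have ha0 : (a : K) ≠ 0 := fun e => ha (Subtype.ext e)
      have e : w = u / a := by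
        rw [hu, eq_div_iff ha0, mul_comm]
        rfl
      exact hw (e ▸ div_mem h (IntermediateField.algebra_adjoin_le_adjoin k _ a.2))
    obtain ⟨c, hc⟩ : ∃ c : ℕ, u ∈ RR (Finsupp.single P c) := by
      refine ⟨(WithZero.log (P.1 u)).toNat, mem_RR_BgR.2 ⟨?_, fun Q hQ =>
        le_one_BgR Q ((mem_RR_BgR.1 hx).2 Q hQ) hi⟩⟩
      rcases eq_or_ne (P.1 u) 0 with h | h
      · rw [h]
        exact zero_le
      · exact (WithZero.log_le_iff_le_exp h).1 (Int.self_le_toNat _)
    obtain ⟨n, hn⟩ : ∃ n, n = Module.finrank k (RR (Finsupp.single P 1)) + c := ⟨_, rfl⟩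
    obtain ⟨h1, h3⟩ := hgr (n + c)
    have hm : ∀ p : Fin (n + 1) × Fin 2,
        x ^ p.1.1 * ![1, u] p.2 ∈ RR (Finsupp.single P (1 + ((n + c : ℕ) : ℤ))) := by
      rintro ⟨i, j⟩
      have hj : ![1, u] j ∈ RR (Finsupp.single P c) := by
        fin_cases j
        · exact mono_BgR (Int.natCast_nonneg c) (one_mem_BgR P)
        · exact hc
      have := i.2
      exact mono_BgR (by push_cast; omega) (mul_mem_BgR (pow_mem_BgR hx i) hj)
    have hli : LinearIndependent k fun p : Fin (n + 1) × Fin 2 =>
        (⟨_, hm p⟩ : RR (Finsupp.single P (1 + ((n + c : ℕ) : ℤ)))) :=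
      LinearIndependent.of_comp (Submodule.subtype _) ((indep_BgR ht hu').comp (Prod.map Fin.val id)
        (Fin.val_injective.prodMap Function.injective_id))
    have := hli.fintype_card_le_finrank
    rw [Fintype.card_prod, Fintype.card_fin, Fintype.card_fin] at this
    omega
  exact ⟨((RatFunc.algEquivOfTranscendental x ht).trans (IntermediateField.equivOfEq htop)).trans
    IntermediateField.topEquiv⟩

end Pool.Agent.AdmG
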