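import Pool.Agent.AdmG.Plc2

/-! The projective line has genus zero. -/

namespace Pool.Agent.AdmG

open Pool.Agent.Adm
open scoped OnePoint
open Polynomial
open scoped IntermediateField

theorem ff_ratFunc (k : Type) [Field k] :
    ∃ x : RatFunc k, Transcendental k x ∧ FiniteDimensional k⟮x⟯ (RatFunc k) := by
  exact ⟨RatFunc.X, RatFunc.transcendental_X, FunctionField.FiniteDimensional.adjoin_X⟩

section

variable {k : Type} [Field k] {π : OnePoint k → Place k (RatFunc k)}

theorem exists_h_Gen0 (hπ : IsPlc π) (E : k →₀ ℤ) : ∃ h : RatFunc k, h ≠ 0 ∧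
    (∀ b : k, (π b).1 h = WithZero.exp (E b)) ∧
    (π ∞).1 h = WithZero.exp (-E.sum fun _ n => n) := by
  classical
  induction E using Finsupp.induction_linear with
  | zero => exact ⟨1, one_ne_zero, fun b => by simp, by simp⟩
  | add E E' ih ih' =>
    obtain ⟨h, h0, h1, h2⟩ := ih
    obtain ⟨h', h0', h1', h2'⟩ := ih'
    refine ⟨h * h', mul_ne_zero h0 h0', fun b => ?_, ?_⟩
    · rw [map_mul, h1, h1', Finsupp.add_apply, WithZero.exp_add]
    · rw [map_mul, h2, h2', Finsupp.sum_add_index' (fun _ => rfl) (fun _ _ _ => rfl), neg_add,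
        WithZero.exp_add]
  | single a n =>
    refine ⟨algebraMap k[X] (RatFunc k) (X - C a) ^ (-n),
      zpow_ne_zero _ (RatFunc.algebraMap_ne_zero (X_sub_C_ne_zero a)), fun b => ?_, ?_⟩
    · rw [map_zpow₀, hπ.val_coe b _ (X_sub_C_ne_zero a), ← WithZero.exp_zsmul,
        rootMultiplicity_X_sub_C, Finsupp.single_apply]
      by_cases hb : b = a
      · rw [if_pos hb, if_pos hb.symm]
        simp
      · rw [if_neg hb, if_neg (Ne.symm hb)]
        simp
    · rw [map_zpow₀, hπ.val_infty _ (X_sub_C_ne_zero a), ← WithZero.exp_zsmul, natDegree_X_sub_C,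
        Finsupp.sum_single_index rfl]
      simp

theorem poly_Gen0 [IsAlgClosed k] (hπ : IsPlc π) {g : RatFunc k} (hg : g ≠ 0)
    (h : ∀ b : k, (π b).1 g ≤ 1) : ∃ P : k[X], algebraMap k[X] (RatFunc k) P = g := by
  have hn : g.num ≠ 0 := RatFunc.num_ne_zero hg
  have hd : g.denom ≠ 0 := RatFunc.denom_ne_zero g
  have h1 : g.denom.degree = 0 := by
    by_contra hne
    obtain ⟨b, hb⟩ := IsAlgClosed.exists_root g.denom hne
    have h2 := h b
    rw [← RatFunc.num_div_denom g, map_div₀, hπ.val_coe b _ hn, hπ.val_coe b _ hd,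
      ← WithZero.exp_sub, ← WithZero.exp_zero, WithZero.exp_le_exp] at h2
    have h3 := (rootMultiplicity_pos hd).2 hb
    have h4 : g.num.IsRoot b := (rootMultiplicity_pos hn).1 (by omega)
    obtain ⟨u, v, huv⟩ := RatFunc.isCoprime_num_denom g
    have h5 := congrArg (eval b) huv
    rw [eval_add, eval_mul, eval_mul, h4.eq_zero, hb.eq_zero, eval_one] at h5
    simp at h5
  refine ⟨g.num, ?_⟩
  have h2 := RatFunc.num_div_denom g
  rwa [(RatFunc.monic_denom g).degree_le_zero_iff_eq_one.1 h1.le, map_one, div_one] at h2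

theorem mem_Gen0 [IsAlgClosed k] (hπ : IsPlc π) (D : Place k (RatFunc k) →₀ ℤ) {h : RatFunc k}
    {d : ℤ} (h0 : h ≠ 0) (h1 : ∀ b : k, (π b).1 h = WithZero.exp (D (π b)))
    (h2 : (π ∞).1 h = WithZero.exp (D (π ∞) - d)) (f : RatFunc k) :
    f ∈ RR D ↔ ∃ P ∈ degreeLT k (d + 1).toNat, h * algebraMap k[X] (RatFunc k) P = f := by
  constructor
  · intro hf
    by_cases hf0 : f = 0
    · exact ⟨0, zero_mem _, by rw [map_zero, mul_zero, hf0]⟩
    obtain ⟨P, hP⟩ := poly_Gen0 hπ (div_ne_zero hf0 h0) fun b => by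
      rw [map_div₀, h1]
      exact div_le_one_of_le₀ (hf (π b)) zero_le
    have e : h * algebraMap k[X] (RatFunc k) P = f := by rw [hP, mul_div_cancel₀ _ h0]
    have hP0 : P ≠ 0 := by
      rintro rfl
      rw [map_zero, mul_zero] at e
      exact hf0 e.symm
    refine ⟨P, ?_, e⟩
    have h3 := hf (π ∞)
    rw [← e, map_mul, h2, hπ.val_infty P hP0, ← WithZero.exp_add, WithZero.exp_le_exp] at h3
    rw [mem_degreeLT, ← natDegree_lt_iff_degree_lt hP0]
    omega
  · rintro ⟨P, hP, rfl⟩ Q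
    by_cases hP0 : P = 0
    · simp [hP0]
    obtain ⟨a, rfl⟩ := hπ.surjective Q
    rw [mem_degreeLT, ← natDegree_lt_iff_degree_lt hP0] at hP
    induction a using OnePoint.rec with
    | infty =>
      rw [map_mul, h2, hπ.val_infty P hP0, ← WithZero.exp_add, WithZero.exp_le_exp]
      omega
    | coe b =>
      rw [map_mul, h1, hπ.val_coe b P hP0, ← WithZero.exp_add, WithZero.exp_le_exp]
      omega

end

theorem finrank_RR {k : Type} [Field k] [IsAlgClosed k] (D : Place k (RatFunc k) →₀ ℤ) :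
    Module.finrank k (RR D) = ((D.sum fun _ a => a) + 1).toNat := by
  obtain ⟨π, hπ⟩ := exists_isPlc k
  let e : Option k ≃ Place k (RatFunc k) := Equiv.ofBijective π ⟨hπ.injective, hπ.surjective⟩
  have hs : (D.sum fun _ a => a) =
      D (π ∞) + (Finsupp.some (D.equivMapDomain e.symm)).sum fun _ n => n := by
    rw [← Finsupp.sum_equivMapDomain e.symm D fun _ a => a,
      Finsupp.sum_option_index _ _ (fun _ => rfl) fun _ _ _ => rfl]
    rfl
  obtain ⟨h, h0, h1, h2⟩ := exists_h_Gen0 hπ (Finsupp.some (D.equivMapDomain e.symm))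
  have h3 := mem_Gen0 hπ D (d := D.sum fun _ a => a) h0 h1 (by rw [h2, hs]; congr 1; ring)
  let φ : k[X] →ₗ[k] RatFunc k :=
    (LinearMap.mulLeft k h).comp (IsScalarTower.toAlgHom k k[X] (RatFunc k)).toLinearMap
  have hφ : Function.Injective φ := fun P Q hPQ =>
    IsFractionRing.injective k[X] (RatFunc k) (mul_left_cancel₀ h0 hPQ)
  have h4 : RR D = (degreeLT k ((D.sum fun _ a => a) + 1).toNat).map φ :=
    Submodule.ext fun f => h3 f
  rw [h4, ← (Submodule.equivMapOfInjective φ hφ _).finrank_eq, (degreeLTEquiv k _).finrank_eq,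
    Module.finrank_fin_fun]

theorem hasGenus_ratFunc (k : Type) [Field k] [IsAlgClosed k] : HasGenus k (RatFunc k) 0 := by
  refine ⟨⟨0, ?_⟩, ?_⟩
  · rw [finrank_RR]
    simp
  · rintro x ⟨D, rfl⟩
    rw [finrank_RR]
    omega

end Pool.Agent.AdmG
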