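import Pool.Agent.AdmG.MonoE
import Pool.Agent.AdmG.Gen0

/-! The stable curve obtained from a tree by gluing pairs of marked points. -/

namespace Pool.Agent.AdmG

open Pool.Agent.Adm
open scoped OnePoint

/-- Renumbering of the special points. -/
def eqv_Close1 (E J I : Type) : ((E ⊕ J) ⊕ (E ⊕ J)) ⊕ I ≃ (E ⊕ E) ⊕ ((J ⊕ J) ⊕ I) where
  toFun := Sum.elim (Sum.elim (Sum.elim (fun ε => .inl (.inl ε)) fun j => .inr (.inl (.inl j)))
    (Sum.elim (fun ε => .inl (.inr ε)) fun j => .inr (.inl (.inr j)))) fun i => .inr (.inr i)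
  invFun := Sum.elim (Sum.elim (fun ε => .inl (.inl (.inl ε))) fun ε => .inl (.inr (.inl ε)))
    (Sum.elim (Sum.elim (fun j => .inl (.inl (.inr j))) fun j => .inl (.inr (.inr j)))
      fun i => .inr i)
  left_inv := by rintro (((ε | j) | (ε | j)) | i) <;> rfl
  right_inv := by rintro ((ε | ε) | ((j | j) | i)) <;> rfl

/-- The special points after gluing. -/
def pt_Close1 {k J I : Type} [Field k] (X : RC k ((J ⊕ J) ⊕ I)) :
    ((X.E ⊕ J) ⊕ (X.E ⊕ J)) ⊕ I → X.V × OnePoint k :=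
  Sum.elim (Sum.elim X.src X.tgt) fun i => X.pt (.inr (.inr i))

theorem pt_eq_Close1 {k J I : Type} [Field k] (X : RC k ((J ⊕ J) ⊕ I))
    (h : ((X.E ⊕ J) ⊕ (X.E ⊕ J)) ⊕ I) : pt_Close1 X h = X.pt (eqv_Close1 X.E J I h) := by
  rcases h with ((ε | j) | (ε | j)) | i <;> rfl

theorem mk_inj_Close1 {k V : Type} [Field k] {π : OnePoint k → Place k (RatFunc k)}
    (hπ : IsPlc π) {x y : V × OnePoint k}
    (h : (⟨x.1, π x.2⟩ : Σ _ : V, Place k (RatFunc k)) = ⟨y.1, π y.2⟩) : x = y :=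
  Prod.ext (congrArg Sigma.fst h)
    (hπ.injective (congrArg (fun z : Σ _ : V, Place k (RatFunc k) => z.2) h))

theorem range_Close1 {k J I : Type} [Field k] (X : RC k ((J ⊕ J) ⊕ I))
    {π : OnePoint k → Place k (RatFunc k)} (hπ : IsPlc π) (v : X.V) (a : OnePoint k) :
    (⟨v, π a⟩ : Σ _ : X.V, Place k (RatFunc k)) ∈
      Set.range (fun h => (⟨(pt_Close1 X h).1, π (pt_Close1 X h).2⟩ :
        Σ _ : X.V, Place k (RatFunc k))) ↔ (v, a) ∈ Set.range X.pt := by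
  constructor
  · rintro ⟨h, e⟩
    exact ⟨_, (pt_eq_Close1 X h).symm.trans (mk_inj_Close1 hπ (y := (v, a)) e)⟩
  · rintro ⟨h, e⟩
    refine ⟨(eqv_Close1 X.E J I).symm h, ?_⟩
    simp only [pt_eq_Close1, Equiv.apply_symm_apply, e]

/-- The stable curve. -/
noncomputable def curve_Close1 (p g n : ℕ) {k J : Type} [Field k] [IsAlgClosed k] [CharP k p]
    [Fintype J] (hJ : Fintype.card J = g) (X : RC k ((J ⊕ J) ⊕ Fin n))
    {π : OnePoint k → Place k (RatFunc k)} (hπ : IsPlc π) : StableCurve p g n where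
  k := k
  V := X.V
  ne := X.ne
  E := X.E ⊕ J
  K _ := RatFunc k
  ff _ := ff_ratFunc k
  gen _ := 0
  genus _ := hasGenus_ratFunc k
  pt h := ⟨(pt_Close1 X h).1, π (pt_Close1 X h).2⟩
  inj h h' e := by
    have h1 := mk_inj_Close1 hπ e
    rw [pt_eq_Close1, pt_eq_Close1] at h1
    exact (eqv_Close1 X.E J (Fin n)).injective (X.inj h1)
  conn v w := (X.conn v w).mono fun _ _ ⟨ε, h⟩ => ⟨.inl ε, h⟩
  total := by
    have := X.card
    simp only [Finset.sum_const_zero, Fintype.card_sum, hJ]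
    omega
  stable v := by
    have h1 : Nat.card {h // (pt_Close1 X h).1 = v} = Nat.card {h // (X.pt h).1 = v} :=
      Nat.card_congr ((eqv_Close1 X.E J (Fin n)).subtypeEquiv fun h => by rw [pt_eq_Close1])
    have h2 := X.stable v
    simp only [mul_zero, zero_add]
    exact h1 ▸ h2

theorem RC.exists_curve (p g n : ℕ) {k J : Type} [Field k] [IsAlgClosed k] [CharP k p]
    [Fintype J] (hJ : Fintype.card J = g) (X : RC k ((J ⊕ J) ⊕ Fin n)) :
    ∃ Y : StableCurve p g n, ∀ (G : Type) [Group G], Y.HasCover G ↔ X.Cv G := by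
  obtain ⟨π, hπ⟩ := exists_isPlc k
  refine ⟨curve_Close1 p g n hJ X hπ, fun G _ => ⟨?_, ?_⟩⟩
  · rintro ⟨c, t, h1, h2, h3⟩
    refine ⟨fun v => ofCov (c v), t, fun v a => ?_, fun ε => ?_, h3⟩
    · obtain ⟨e, ζ, x, a1, a2⟩ := h1 v (π a)
      exact ⟨e, ζ, x, (hπ.mono_iff (ofCov (c v)) a e ζ x).1 a1,
        fun h => a2 fun h' => h ((range_Close1 X hπ v a).1 h')⟩
    · obtain ⟨e, ζ, x, a1, a2⟩ := h2 ε
      exact ⟨e, ζ, x, (hπ.mono_iff (ofCov (c _)) _ e ζ x).1 a1,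
        (hπ.mono_iff (ofCov (c _)) _ e _ _).1 a2⟩
  · rintro ⟨c, t, h1, h2, h3⟩
    refine ⟨fun v => toCov (c v), t, fun v P => ?_, fun ε => ?_, h3⟩
    · obtain ⟨a, rfl⟩ := hπ.surjective P
      obtain ⟨e, ζ, x, a1, a2⟩ := h1 v a
      exact ⟨e, ζ, x, (hπ.mono_iff (c v) a e ζ x).2 a1,
        fun h => a2 fun h' => h ((range_Close1 X hπ v a).2 h')⟩
    · obtain ⟨e, ζ, x, a1, a2⟩ := h2 ε
      exact ⟨e, ζ, x, (hπ.mono_iff (c _) _ e ζ x).2 a1, (hπ.mono_iff (c _) _ e _ _).2 a2⟩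

end Pool.Agent.AdmG
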