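import Pool.Agent.AdmG.BgT
import Pool.Agent.AdmG.BgR
import Pool.Agent.AdmG.BgC
import Pool.Agent.AdmG.Close1

/-! A stable curve of genus zero is a tree of projective lines. -/

namespace Pool.Agent.AdmG

open Pool.Agent.Adm (Cover)
open scoped IntermediateField

theorem exists_coord_BgA {k K : Type} [Field k] [IsAlgClosed k] [Field K] [Algebra k K]
    (ff : ∃ x : K, Transcendental k x ∧ FiniteDimensional k⟮x⟯ K) (hg : HasGenus k K 0)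
    (P₀ : Place k K) : ∃ γ : Place k K ≃ OnePoint k, ∀ (G : Type) [Group G],
      (∀ c : Cov K G, ∃ c' : Cover k G, c'.ι.range = c.ι.range ∧
        ∀ P m ζ g, c.Mono P m ζ g → c'.Mono (γ P) m ζ g) ∧
      ∀ c' : Cover k G, ∃ c : Cov K G, c.ι.range = c'.ι.range ∧
        ∀ P m ζ g, c'.Mono (γ P) m ζ g → c.Mono P m ζ g := by
  obtain ⟨e⟩ := exists_equiv_of_genus_zero ff hg P₀
  obtain ⟨β, hβ⟩ := exists_place_equiv e
  obtain ⟨π, hπ⟩ := exists_isPlc k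
  obtain ⟨γ, hγ⟩ : ∃ γ : Place k K ≃ OnePoint k, ∀ P, π (γ P) = β P :=
    ⟨β.trans (Equiv.ofBijective π ⟨hπ.injective, hπ.surjective⟩).symm, fun P =>
      (Equiv.ofBijective π ⟨hπ.injective, hπ.surjective⟩).apply_symm_apply (β P)⟩
  refine ⟨γ, fun G _ => ⟨fun c => ?_, fun c' => ?_⟩⟩
  · obtain ⟨c', h1, h2⟩ := Cov.exists_transport e c
    refine ⟨ofCov c', h1, fun P m ζ g h => (hπ.mono_iff (ofCov c') _ m ζ g).1 ?_⟩
    rw [hγ]
    exact h2 P (β P) (hβ P) m ζ g h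
  · obtain ⟨c, h1, h2⟩ := Cov.exists_transport e.symm (toCov c')
    refine ⟨c, h1, fun P m ζ g h => h2 (π (γ P)) P (fun f => ?_) m ζ g
      ((hπ.mono_iff c' _ m ζ g).2 h)⟩
    rw [hγ, hβ, e.apply_symm_apply]

/-- Renumbering of the special points. -/
def eqv_BgA (E I : Type) : (E ⊕ E) ⊕ ((Empty ⊕ Empty) ⊕ I) ≃ (E ⊕ E) ⊕ I :=
  Equiv.sumCongr (Equiv.refl _) (Equiv.emptySum _ _)

/-- Coordinates of points. -/
def phi_BgA {V A : Type} {B : V → Type} (γ : ∀ v, B v ≃ A) (s : Σ v, B v) : V × A :=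
  (s.1, γ s.1 s.2)

theorem phi_inj_BgA {V A : Type} {B : V → Type} (γ : ∀ v, B v ≃ A) :
    Function.Injective (phi_BgA γ) := by
  rintro ⟨v, P⟩ ⟨w, Q⟩ e
  have e1 : v = w := congrArg Prod.fst e
  subst e1
  have e2 : P = Q := (γ v).injective (congrArg Prod.snd e)
  rw [e2]

/-- The tree of projective lines. -/
def rc_BgA {p n : ℕ} (Y : StableCurve p 0 n) (h0 : ∀ v, Y.gen v = 0)
    (hc : Fintype.card Y.E + 1 = Fintype.card Y.V)
    (γ : ∀ v, Place Y.k (Y.K v) ≃ OnePoint Y.k) : RC Y.k ((Empty ⊕ Empty) ⊕ Fin n) where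
  V := Y.V
  ne := Y.ne
  E := Y.E
  pt h := phi_BgA γ (Y.pt (eqv_BgA _ _ h))
  inj := (phi_inj_BgA γ).comp (Y.inj.comp (eqv_BgA _ _).injective)
  conn := Y.conn
  card := hc
  stable v := by
    have h2 := Y.stable v
    rw [h0, mul_zero, zero_add] at h2
    exact h2.trans_eq (Nat.card_congr ((eqv_BgA _ _).subtypeEquiv fun h => Iff.rfl)).symm
  gauge G _ t := exists_gauge _ _ Y.conn hc G t

theorem range_BgA {p n : ℕ} (Y : StableCurve p 0 n) (h0 : ∀ v, Y.gen v = 0)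
    (hc : Fintype.card Y.E + 1 = Fintype.card Y.V)
    (γ : ∀ v, Place Y.k (Y.K v) ≃ OnePoint Y.k) (v : Y.V) (P : Place Y.k (Y.K v)) :
    (v, γ v P) ∈ Set.range (rc_BgA Y h0 hc γ).pt ↔
      (⟨v, P⟩ : Σ v, Place Y.k (Y.K v)) ∈ Set.range Y.pt := by
  constructor
  · rintro ⟨h, e⟩
    exact ⟨eqv_BgA _ _ h, phi_inj_BgA γ e⟩
  · rintro ⟨h, e⟩
    obtain ⟨h, rfl⟩ := (eqv_BgA Y.E (Fin n)).surjective h
    exact ⟨h, congrArg (phi_BgA γ) e⟩

theorem StableCurve.exists_rc {p n : ℕ} (Y : StableCurve p 0 n) :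
    ∃ X : RC Y.k ((Empty ⊕ Empty) ⊕ Fin n), ∀ (G : Type) [Group G], Y.HasCover G ↔ X.Cv G := by
  have h1 := card_le_of_conn _ _ Y.conn
  have h2 := Y.total
  have hc : Fintype.card Y.E + 1 = Fintype.card Y.V := by omega
  have h0 : ∀ v, Y.gen v = 0 := fun v =>
    Finset.sum_eq_zero_iff.1 (show ∑ v, Y.gen v = 0 by omega) v (Finset.mem_univ v)
  have hP : ∀ v, Nonempty (Place Y.k (Y.K v)) := fun v => by
    have h3 := Y.stable v
    rw [h0, mul_zero, zero_add] at h3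
    obtain ⟨h, rfl⟩ := (Nat.card_pos_iff.1 (lt_trans two_pos h3)).1
    exact ⟨(Y.pt h).2⟩
  choose γ hγ using fun v => exists_coord_BgA (Y.ff v) (by simpa only [h0 v] using Y.genus v) (hP v).some
  refine ⟨rc_BgA Y h0 hc γ, fun G _ => ⟨?_, ?_⟩⟩
  · rintro ⟨c, t, a1, a2, a3⟩
    choose c' hr hm using fun v => (hγ v G).1 (c v)
    refine ⟨c', Sum.elim t Empty.elim, fun v a => ?_, ?_, fun a b => (a3 a b).mono ?_⟩
    · obtain ⟨P, rfl⟩ := (γ v).surjective a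
      obtain ⟨e, ζ, x, b1, b2⟩ := a1 v P
      exact ⟨e, ζ, x, hm v P e ζ x b1, fun h => b2 fun h' => h ((range_BgA Y h0 hc γ v P).2 h')⟩
    · rintro (ε | ε)
      · obtain ⟨e, ζ, x, b1, b2⟩ := a2 ε
        exact ⟨e, ζ, x, hm _ _ _ _ _ b1, hm _ _ _ _ _ b2⟩
      · exact ε.elim
    · rintro a b (⟨b1, b2⟩ | ⟨ε, b1, b2⟩)
      · exact .inl ⟨b1, (hr a.1).symm ▸ b2⟩
      · exact .inr ⟨.inl ε, b1, b2⟩
  · rintro ⟨c', t, a1, a2, a3⟩
    choose c hr hm using fun v => (hγ v G).2 (c' v)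
    refine ⟨c, fun ε => t (.inl ε), fun v P => ?_, fun ε => ?_, fun a b => (a3 a b).mono ?_⟩
    · obtain ⟨e, ζ, x, b1, b2⟩ := a1 v (γ v P)
      exact ⟨e, ζ, x, hm v P e ζ x b1, fun h => b2 fun h' => h ((range_BgA Y h0 hc γ v P).1 h')⟩
    · obtain ⟨e, ζ, x, b1, b2⟩ := a2 (.inl ε)
      exact ⟨e, ζ, x, hm _ _ _ _ _ b1, hm _ _ _ _ _ b2⟩
    · rintro a b (⟨b1, b2⟩ | ⟨ε | ε, b1, b2⟩)
      · exact .inl ⟨b1, (hr a.1).symm ▸ b2⟩
      · exact .inr ⟨ε, b1, b2⟩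
      · exact ε.elim

end Pool.Agent.AdmG
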