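import Pool.Agent.AdmG.BgT
import Pool.Agent.AdmG.AP

/-! From trees with a set of edges to trees given by a simple graph. -/

namespace Pool.Agent.AdmG

open scoped OnePoint
open Sum

theorem graph_BgB {k ι : Type} [Field k] (X : RC k ι) :
    ∃ (T : SimpleGraph X.V) (node : X.V → X.V → OnePoint k), T.IsTree ∧
      (∀ v w, T.Adj v w ↔ ∃ δ : X.E ⊕ X.E, (X.pt (inl δ)).1 = v ∧ (X.pt (inl δ.swap)).1 = w) ∧
      ∀ δ : X.E ⊕ X.E, node (X.pt (inl δ)).1 (X.pt (inl δ.swap)).1 = (X.pt (inl δ)).2 := by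
  classical
  obtain ⟨h1, h2, h3⟩ := isTree_of_card (fun ε => (X.pt (inl (inl ε))).1)
    (fun ε => (X.pt (inl (inr ε))).1) X.conn X.card
  have hi : ∀ δ δ' : X.E ⊕ X.E, (X.pt (inl δ)).1 = (X.pt (inl δ')).1 →
      (X.pt (inl δ.swap)).1 = (X.pt (inl δ'.swap)).1 → δ = δ' := by
    rintro (ε | ε) (ε' | ε') e1 e2 <;> simp only [swap_inl, swap_inr] at e2
    · exact congrArg inl (h3 (by simp only [e1, e2]))
    · obtain rfl : ε = ε' := h3 (by simp only [e1, e2, Sym2.eq_swap])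
      exact absurd e1 (h2 ε)
    · obtain rfl : ε = ε' := h3 (by simp only [e1, e2, Sym2.eq_swap])
      exact absurd e2 (h2 ε)
    · exact congrArg inr (h3 (by simp only [e1, e2]))
  refine ⟨_, fun v w => if h : ∃ δ : X.E ⊕ X.E, (X.pt (inl δ)).1 = v ∧ (X.pt (inl δ.swap)).1 = w
    then (X.pt (inl h.choose)).2 else ∞, h1, fun v w => ?_, fun δ => ?_⟩
  · rw [SimpleGraph.fromRel_adj]
    constructor
    · rintro ⟨-, ⟨ε, e1, e2⟩ | ⟨ε, e1, e2⟩⟩
      · exact ⟨inl ε, e1, e2⟩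
      · exact ⟨inr ε, e2, e1⟩
    · rintro ⟨ε | ε, rfl, rfl⟩
      · exact ⟨h2 ε, Or.inl ⟨ε, rfl, rfl⟩⟩
      · exact ⟨(h2 ε).symm, Or.inr ⟨ε, rfl, rfl⟩⟩
  · have h : ∃ δ' : X.E ⊕ X.E, (X.pt (inl δ')).1 = (X.pt (inl δ)).1 ∧
        (X.pt (inl δ'.swap)).1 = (X.pt (inl δ.swap)).1 := ⟨δ, rfl, rfl⟩
    simp only [dif_pos h]
    rw [hi _ _ h.choose_spec.1 h.choose_spec.2]

theorem RC.exists_adm (p : ℕ) {n : ℕ} {k : Type} [Field k] [IsAlgClosed k] [CharP k p]
    (X : RC k ((Empty ⊕ Empty) ⊕ Fin n)) :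
    ∃ Z : Pool.Agent.Adm.StableCurve p n, ∀ (G : Type) [Group G], Z.HasCover G ↔ Cl X.Adm G := by
  obtain ⟨T, node, hT, hA, hN⟩ := graph_BgB X
  have hS : ∀ v a, ((∃ w, T.Adj v w ∧ node v w = a) ∨
      ∃ i, (X.pt (inr (inr i))).1 = v ∧ (X.pt (inr (inr i))).2 = a) ↔ (v, a) ∈ Set.range X.pt := by
    intro v a
    constructor
    · rintro (⟨w, h, rfl⟩ | ⟨i, rfl, rfl⟩)
      · obtain ⟨δ, rfl, rfl⟩ := (hA v w).1 h
        exact ⟨inl δ, by rw [hN]⟩
      · exact ⟨_, rfl⟩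
    · rintro ⟨δ | (j | j) | i, h⟩
      · obtain ⟨rfl, rfl⟩ := Prod.ext_iff.1 h
        exact Or.inl ⟨_, (hA _ _).2 ⟨δ, rfl, rfl⟩, hN δ⟩
      · exact j.elim
      · exact j.elim
      · exact Or.inr ⟨i, congrArg Prod.fst h, congrArg Prod.snd h⟩
  refine ⟨{ k := k, V := X.V, T := T, tree := hT, node := node
            comp := fun i => (X.pt (inr (inr i))).1, mark := fun i => (X.pt (inr (inr i))).2
            node_inj := ?_, mark_inj := ?_, mark_ne_node := ?_, stable := ?_ }, fun G _ => ?_⟩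
  · intro v w w' h h' e
    obtain ⟨δ, rfl, rfl⟩ := (hA v w).1 h
    obtain ⟨δ', e1, rfl⟩ := (hA _ w').1 h'
    rw [hN, ← e1, hN] at e
    rw [inl_injective (X.inj (Prod.ext e1.symm e))]
  · intro i j e1 e2
    exact inr_injective (inr_injective (X.inj (Prod.ext e1 e2)))
  · intro i w h e
    obtain ⟨δ, e1, rfl⟩ := (hA _ w).1 h
    rw [← e1, hN] at e
    exact inl_ne_inr (X.inj (Prod.ext e1 e.symm))
  · intro v
    have e : {a | (∃ w, T.Adj v w ∧ node v w = a) ∨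
        ∃ i, (X.pt (inr (inr i))).1 = v ∧ (X.pt (inr (inr i))).2 = a} =
        Set.range fun h : {h // (X.pt h).1 = v} => (X.pt h.1).2 := by
      ext a
      rw [Set.mem_ofPred_eq, hS]
      constructor
      · rintro ⟨h, e⟩
        exact ⟨⟨h, congrArg Prod.fst e⟩, congrArg Prod.snd e⟩
      · rintro ⟨h, rfl⟩
        exact ⟨h.1, Prod.ext h.2 rfl⟩
    rw [e, Set.ncard_range_of_injective]
    · exact X.stable v
    · exact fun h h' e => Subtype.ext (X.inj (Prod.ext (h.2.trans h'.2.symm) e))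
  · constructor
    · rintro ⟨c, h1, h2, h3⟩
      choose e ζ g hm hg using h1
      refine ⟨Sum.elim (Sum.elim Empty.elim Empty.elim) fun i =>
        (e (X.pt (inr (inr i))).1 (X.pt (inr (inr i))).2,
          ζ (X.pt (inr (inr i))).1 (X.pt (inr (inr i))).2,
          g (X.pt (inr (inr i))).1 (X.pt (inr (inr i))).2), ⊤, Empty.elim,
        ⟨c, fun v a => ⟨_, _, _, hm v a, fun h => hg v a fun h' => h ((hS v a).1 h')⟩,
          fun ε => ?_, ?_, h3⟩, fun j => j.elim, top_sup_eq _⟩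
      · obtain ⟨e, ζ, g, m1, m2⟩ := h2 _ _ ((hA _ _).2 ⟨inl ε, rfl, rfl⟩)
        have n1 := hN (inl ε)
        have n2 := hN (inr ε)
        simp only [swap_inl, swap_inr] at n1 n2 m1 m2
        rw [n1] at m1
        rw [n2] at m2
        exact ⟨(e, ζ, g), m1, m2⟩
      · rintro ((j | j) | i)
        · exact j.elim
        · exact j.elim
        · exact hm _ _
    · rintro ⟨d, H, t, ⟨c, h1, h2, -, h3⟩, -, h4⟩
      refine ⟨c, fun v a => ?_, fun v w h => ?_, ?_⟩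
      · obtain ⟨e, ζ, g, hm, hg⟩ := h1 v a
        exact ⟨e, ζ, g, hm, fun h => hg fun h' => h ((hS v a).2 h')⟩
      · obtain ⟨ε | ε, rfl, rfl⟩ := (hA v w).1 h
        · obtain ⟨x, m1, m2⟩ := h2 ε
          have n1 := hN (inl ε)
          have n2 := hN (inr ε)
          simp only [swap_inl, swap_inr] at n1 n2 ⊢
          rw [n1, n2]
          exact ⟨x.1, x.2.1, x.2.2, m1, m2⟩
        · obtain ⟨x, m1, m2⟩ := h2 ε
          have n1 := hN (inl ε)
          have n2 := hN (inr ε)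
          simp only [swap_inl, swap_inr] at n1 n2 ⊢
          rw [n1, n2]
          exact ⟨x.1, x.2.1⁻¹, x.2.2, m2, by rw [inv_inv]; exact m1⟩
      · rw [Set.range_eq_empty, Subgroup.closure_empty, sup_bot_eq, ← h3] at h4
        exact h4

end Pool.Agent.AdmG
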