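import Pool.Agent.AdmG.BgT
import Pool.Agent.AdmG.AP

/-! From trees given by a simple graph to trees with a set of edges. -/

namespace Pool.Agent.AdmG

theorem exists_ends_BgE {V : Type} (T : SimpleGraph V) :
    ∃ src tgt : T.edgeSet → V, ∀ ε, s(src ε, tgt ε) = ε.1 :=
  ⟨fun ε => ε.1.out.1, fun ε => ε.1.out.2, fun ε => ε.1.out_eq⟩

theorem darts_BgE {V : Type} {T : SimpleGraph V} {src tgt : T.edgeSet → V}
    (h : ∀ ε, s(src ε, tgt ε) = ε.1) :
    Function.Injective (Sum.elim (fun ε => (src ε, tgt ε)) fun ε => (tgt ε, src ε)) ∧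
      ∀ v w, T.Adj v w ↔ (v, w) ∈
        Set.range (Sum.elim (fun ε => (src ε, tgt ε)) fun ε => (tgt ε, src ε)) := by
  have adj : ∀ ε, T.Adj (src ε) (tgt ε) := fun ε => T.mem_edgeSet.1 (h ε ▸ ε.2)
  have inj : ∀ ε ε', s(src ε, tgt ε) = s(src ε', tgt ε') → ε = ε' := fun ε ε' e =>
    Subtype.ext ((h ε).symm.trans (e.trans (h ε')))
  refine ⟨?_, fun v w => ⟨fun e => ?_, ?_⟩⟩
  · rintro (ε | ε) (ε' | ε') e <;> obtain ⟨e1, e2⟩ := Prod.mk.inj e
    · exact congrArg _ (inj _ _ (by rw [e1, e2]))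
    · obtain rfl := inj ε ε' (by rw [e1, e2, Sym2.eq_swap])
      exact absurd e1 (adj ε).ne
    · obtain rfl := inj ε ε' (by rw [e1, e2, Sym2.eq_swap])
      exact absurd e2 (adj ε).ne
    · exact congrArg _ (inj _ _ (by rw [e1, e2]))
  · rcases Sym2.eq_iff.1 (h ⟨s(v, w), T.mem_edgeSet.2 e⟩) with ⟨e1, e2⟩ | ⟨e1, e2⟩
    · exact ⟨.inl _, Prod.ext e1 e2⟩
    · exact ⟨.inr _, Prod.ext e2 e1⟩
  · rintro ⟨ε | ε, e⟩ <;> obtain ⟨rfl, rfl⟩ := Prod.mk.inj e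
    exacts [adj ε, (adj ε).symm]

theorem exists_rc_of_adm {p n : ℕ} (Z : Pool.Agent.Adm.StableCurve p n) :
    ∃ X : RC Z.k ((Empty ⊕ Empty) ⊕ Fin n), ∀ (G : Type) [Group G], Z.HasCover G ↔ Cl X.Adm G := by
  obtain ⟨src, tgt, hst⟩ := exists_ends_BgE Z.T
  obtain ⟨hinj, hadj⟩ := darts_BgE hst
  obtain ⟨D, hD⟩ : ∃ D : Z.T.edgeSet ⊕ Z.T.edgeSet → Z.V × Z.V,
    D = Sum.elim (fun ε => (src ε, tgt ε)) fun ε => (tgt ε, src ε) := ⟨_, rfl⟩
  have adj : ∀ ε, Z.T.Adj (src ε) (tgt ε) := fun ε => (hadj _ _).2 ⟨.inl ε, rfl⟩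
  let pt : (Z.T.edgeSet ⊕ Z.T.edgeSet) ⊕ ((Empty ⊕ Empty) ⊕ Fin n) → Z.V × OnePoint Z.k :=
    Sum.elim (fun h => ((Sum.elim src tgt h), Z.node (Sum.elim src tgt h) (Sum.elim tgt src h)))
      (Sum.elim (fun j => (Sum.elim id id j : Empty).elim) fun i => (Z.comp i, Z.mark i))
  have hd : ∀ h, D h = (Sum.elim src tgt h, Sum.elim tgt src h) := by
    rintro (ε | ε) <;> rw [hD] <;> rfl
  rw [← hD] at hinj hadj
  have adj' : ∀ h, Z.T.Adj (Sum.elim src tgt h) (Sum.elim tgt src h) := fun h =>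
    (hadj _ _).2 ⟨h, hd h⟩
  have hsp : ∀ v a, (v, a) ∈ Set.range pt ↔ Z.Special v a := by
    intro v a
    constructor
    · rintro ⟨h | (j | i), e⟩
      · obtain ⟨rfl, rfl⟩ := Prod.mk.inj e
        exact .inl ⟨_, adj' h, rfl⟩
      · exact (Sum.elim id id j : Empty).elim
      · exact .inr ⟨i, Prod.mk.inj e⟩
    · rintro (⟨w, e, rfl⟩ | ⟨i, rfl, rfl⟩)
      · obtain ⟨h, e'⟩ := (hadj v w).1 e
        obtain ⟨rfl, rfl⟩ := Prod.mk.inj ((hd h).symm.trans e')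
        exact ⟨.inl h, rfl⟩
      · exact ⟨.inr (.inr i), rfl⟩
  have hpi : Function.Injective pt := by
    have hE : ∀ j : Empty ⊕ Empty, False := fun j => (Sum.elim id id j : Empty).elim
    rintro (h | (j | i)) (h' | (j' | i')) e
    · obtain ⟨e1, e2⟩ := Prod.mk.inj e
      refine congrArg _ (hinj ?_)
      rw [hd, hd, Z.node_inj _ _ _ (adj' h) (e1 ▸ adj' h') (e2.trans (by rw [e1])), e1]
    · exact (hE j').elim
    · obtain ⟨e1, e2⟩ := Prod.mk.inj e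
      exact absurd (e2.symm.trans (by rw [e1])) (Z.mark_ne_node i' _ (e1 ▸ adj' h))
    · exact (hE j).elim
    · exact (hE j).elim
    · exact (hE j).elim
    · obtain ⟨e1, e2⟩ := Prod.mk.inj e
      exact absurd (e2.trans (by rw [e1])) (Z.mark_ne_node i _ (e1 ▸ adj' h'))
    · exact (hE j').elim
    · obtain ⟨e1, e2⟩ := Prod.mk.inj e
      rw [Z.mark_inj i i' e1 e2]
  have conn : ∀ v w, Relation.EqvGen (fun a b => ∃ ε, src ε = a ∧ tgt ε = b) v w := by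
    intro v w
    obtain ⟨q⟩ := Z.tree.connected.preconnected v w
    induction q with
    | nil => exact .refl _
    | cons e _ ih =>
      refine .trans _ _ _ ?_ ih
      obtain ⟨ε | ε, e'⟩ := (hadj _ _).1 e
      · exact .rel _ _ ⟨ε, Prod.mk.inj ((hd _).symm.trans e')⟩
      · exact .symm _ _ (.rel _ _ ⟨ε, (Prod.mk.inj ((hd _).symm.trans e')).symm⟩)
  let _ := Fintype.ofFinite Z.V
  let _ := Fintype.ofFinite Z.T.edgeSet
  have card : Fintype.card Z.T.edgeSet + 1 = Fintype.card Z.V := by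
    rw [← Z.tree.card_edgeFinset, SimpleGraph.edgeFinset, Set.toFinset_card]
  have stab : ∀ v, 2 < Nat.card {h // (pt h).1 = v} := by
    intro v
    choose g hg using fun a : {a | Z.Special v a} => (hsp v a).2 a.2
    refine lt_of_lt_of_le (Z.stable v) (Nat.card_le_card_of_injective
      (fun a => ⟨g a, congrArg Prod.fst (hg a)⟩) fun a a' e => Subtype.ext ?_)
    have e' : g a = g a' := congrArg Subtype.val e
    exact congrArg Prod.snd ((hg a).symm.trans (e' ▸ hg a'))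
  refine ⟨⟨Z.V, Z.tree.connected.nonempty, Z.T.edgeSet, pt, hpi, conn, card, stab,
    exists_gauge src tgt conn card⟩, fun G _ => ⟨?_, ?_⟩⟩
  · rintro ⟨c, h1, h2, h3⟩
    choose e ζ g hm hg using h1
    refine ⟨fun h => (e (pt (.inr h)).1 (pt (.inr h)).2, ζ _ (pt (.inr h)).2, g _ (pt (.inr h)).2),
      ⊤, Empty.elim, ⟨c, fun v a => ⟨_, _, _, hm v a, fun h => hg v a fun h' => h ((hsp v a).2 h')⟩,
        fun ε => ?_, fun i => hm _ _, h3⟩, fun j => j.elim, top_sup_eq _⟩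
    obtain ⟨e', ζ', g', h4, h5⟩ := h2 _ _ (adj ε)
    exact ⟨(e', ζ', g'), h4, h5⟩
  · rintro ⟨d, H, t, ⟨c, h1, h2, -, h3⟩, -, h4⟩
    refine ⟨c, fun v a => ?_, fun v w e => ?_, ?_⟩
    · obtain ⟨e, ζ, g, hm, hg⟩ := h1 v a
      exact ⟨e, ζ, g, hm, fun h => hg fun h' => h ((hsp v a).1 h')⟩
    · obtain ⟨ε | ε, e'⟩ := (hadj _ _).1 e <;>
        obtain ⟨rfl, rfl⟩ := Prod.mk.inj ((hd _).symm.trans e') <;>
        obtain ⟨x, h5, h6⟩ := h2 ε
      · exact ⟨_, _, _, h5, h6⟩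
      · exact ⟨_, _, _, h6, by rw [show (dinv x).2.1⁻¹ = x.2.1 from inv_inv _]; exact h5⟩
    · rw [Set.range_eq_empty, Subgroup.closure_empty, sup_bot_eq] at h4
      exact h3.trans h4

end Pool.Agent.AdmG
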