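import Pool.Agent.AdmG.AP

/-! Normalising a connected covering along a tree. -/

namespace Pool.Agent.AdmG

open Pool.Agent.Adm
open scoped OnePoint

theorem RC.cl_of_cv {k J I : Type} [Field k] (X : RC k ((J ⊕ J) ⊕ I)) (G : Type) [Group G]
    (h : X.Cv G) : Cl X.Adm G := by
  obtain ⟨c, t, h1, h2, h3⟩ := h
  obtain ⟨u, hu⟩ := X.gauge G fun ε => t (.inl ε)
  choose e ζ x m1 m2 using h2
  let c' : X.V → Cover k G := fun v => (c v).map (MulAut.conj (u v)).toMonoidHom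
  let t' : X.E ⊕ J → G := fun ε => u (X.src ε).1 * t ε * (u (X.tgt ε).1)⁻¹
  let y : X.E ⊕ J → Dat k G := fun ε => (e ε, ζ ε, u (X.src ε).1 * x ε * (u (X.src ε).1)⁻¹)
  have ht : ∀ v, (c' v).Tame {a | (v, a) ∈ Set.range X.pt} := fun v a => by
    obtain ⟨n, ξ, g, a1, a2⟩ := h1 v a
    exact ⟨n, ξ, _, a1.map _, fun h => by rw [a2 h, map_one]⟩
  have n1 : ∀ ε, (c' (X.src ε).1).MD (X.src ε).2 (y ε) := fun ε => (m1 ε).map _
  have n2 : ∀ ε, (c' (X.tgt ε).1).MD (X.tgt ε).2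
      (dinv (dpush (fun g => (t' ε)⁻¹ * g * t' ε) (y ε))) := fun ε => by
    have e1 : (t' ε)⁻¹ * (u (X.src ε).1 * x ε * (u (X.src ε).1)⁻¹) * t' ε =
        u (X.tgt ε).1 * ((t ε)⁻¹ * x ε * t ε) * (u (X.tgt ε).1)⁻¹ := by
      simp only [t']
      group
    change (c' (X.tgt ε).1).Mono (X.tgt ε).2 (e ε) (ζ ε)⁻¹
      ((t' ε)⁻¹ * (u (X.src ε).1 * x ε * (u (X.src ε).1)⁻¹) * t' ε)
    rw [e1]
    exact (m2 ε).map _
  have n3 : ∀ ε, t' (.inl ε) = 1 := fun ε => by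
    change u (X.pt (.inl (.inl ε))).1 * t (.inl ε) * (u (X.pt (.inl (.inr ε))).1)⁻¹ = 1
    rw [hu ε]
    group
  choose n ξ g m3 _ using fun i : I => ht (X.pt (.inr (.inr i))).1 (X.pt (.inr (.inr i))).2
  refine ⟨Sum.elim (Sum.elim (fun j => y (.inr j)) fun j =>
      dinv (dpush (fun g => (t' (.inr j))⁻¹ * g * t' (.inr j)) (y (.inr j))))
    fun i => (n i, ξ i, g i), _, fun j => t' (.inr j),
    ⟨c', ht, fun ε => ⟨y (.inl ε), n1 (.inl ε), ?_⟩, ?_, rfl⟩, fun j => rfl, ?_⟩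
  · have := n2 (.inl ε)
    simp only [n3, inv_one, one_mul, mul_one] at this
    exact this
  · rintro ((j | j) | i)
    exacts [n1 (.inr j), n2 (.inr j), m3 i]
  · obtain ⟨v⟩ := X.ne
    refine (Subgroup.eq_top_iff' _).2 fun z => ?_
    generalize hM : (⨆ v, (c' v).ι.range) ⊔ Subgroup.closure (Set.range fun j => t' (.inr j)) = M
    have key : ∀ a b : X.V × G, Relation.EqvGen
        (fun a b => (a.1 = b.1 ∧ a.2⁻¹ * b.2 ∈ (c a.1).ι.range) ∨
          ∃ ε, a.1 = (X.src ε).1 ∧ b = ((X.tgt ε).1, a.2 * t ε)) a b →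
        (a.2 * (u a.1)⁻¹)⁻¹ * (b.2 * (u b.1)⁻¹) ∈ M := by
      intro a b hab
      induction hab with
      | rel a b hab =>
        rcases hab with ⟨a1, σ, a2⟩ | ⟨ε, a1, rfl⟩
        · refine hM ▸ Subgroup.mem_sup_left (Subgroup.mem_iSup_of_mem a.1 ⟨σ, ?_⟩)
          change u a.1 * (c a.1).ι σ * (u a.1)⁻¹ = _
          rw [a2, ← a1]
          group
        · have e1 : (a.2 * (u a.1)⁻¹)⁻¹ * (a.2 * t ε * (u (X.tgt ε).1)⁻¹) = t' ε := by
            simp only [t', a1]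
            group
          rw [e1]
          rcases ε with ε | j
          · exact n3 ε ▸ M.one_mem
          · exact hM ▸ Subgroup.mem_sup_right (Subgroup.subset_closure ⟨j, rfl⟩)
      | refl a => exact inv_mul_cancel (a.2 * (u a.1)⁻¹) ▸ M.one_mem
      | symm a b _ ih => simpa only [mul_inv_rev, inv_inv, mul_assoc] using M.inv_mem ih
      | trans a b d _ _ ih1 ih2 =>
        simpa only [mul_assoc, mul_inv_cancel_left] using M.mul_mem ih1 ih2
    simpa using key _ _ (h3 (v, u v) (v, z * u v))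

end Pool.Agent.AdmG
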