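import Pool.Agent.AdmG.AP

/-! Generation implies connectedness. -/

namespace Pool.Agent.AdmG

open Pool.Agent.Adm
open scoped OnePoint

theorem conn_Close3 {V G : Type} [Group G] (v0 : V) {r : V × G → V × G → Prop}
    (hr : Equivalence r) (h1 : ∀ v w x, r (v, x) (w, x)) (S : Set G)
    (hS : Subgroup.closure S = ⊤) (h2 : ∀ s ∈ S, ∀ x, ∃ v w, r (v, x) (w, x * s)) (a b : V × G) :
    r a b := by
  have h3 : ∀ g x, r (v0, x) (v0, x * g) := by
    intro g
    have hg : g ∈ Subgroup.closure S := by rw [hS]; trivial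
    induction hg using Subgroup.closure_induction with
    | mem s hs =>
      intro x
      obtain ⟨v, w, h⟩ := h2 s hs x
      exact hr.trans (h1 _ _ _) (hr.trans h (h1 _ _ _))
    | one => intro x; rw [mul_one]; exact hr.refl _
    | mul g g' _ _ ih ih' => intro x; rw [← mul_assoc]; exact hr.trans (ih x) (ih' _)
    | inv g _ ih =>
      intro x
      have := ih (x * g⁻¹)
      rw [inv_mul_cancel_right] at this
      exact hr.symm this
  have h4 := h3 (a.2⁻¹ * b.2) a.2
  rw [mul_inv_cancel_left] at h4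
  exact hr.trans (h1 a.1 v0 a.2) (hr.trans h4 (h1 v0 b.1 b.2))

theorem RC.cv_of_cl {k J I : Type} [Field k] (X : RC k ((J ⊕ J) ⊕ I)) (G : Type) [Group G]
    (h : Cl X.Adm G) : X.Cv G := by
  obtain ⟨d, H, t, ⟨c, h1, h2, h3, h4⟩, h5, h6⟩ := h
  obtain ⟨v0⟩ := X.ne
  refine ⟨c, Sum.elim (fun _ => 1) t, h1, ?_, ?_⟩
  · rintro (ε | j)
    · obtain ⟨x, a, b⟩ := h2 ε
      refine ⟨x.1, x.2.1, x.2.2, a, ?_⟩
      rw [Sum.elim_inl, inv_one, one_mul, mul_one]
      exact b
    · have a := h3 (.inl (.inl j))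
      have b := h3 (.inl (.inr j))
      rw [h5] at b
      exact ⟨_, _, _, a, b⟩
  · refine conn_Close3 v0 (Relation.EqvGen.is_equivalence _) (fun v w x => ?_)
      ((⋃ v, ((c v).ι.range : Set G)) ∪ Set.range t) ?_ ?_
    · induction X.conn v w with
      | rel a b h =>
        obtain ⟨ε, rfl, rfl⟩ := h
        exact Relation.EqvGen.rel _ _ (Or.inr ⟨.inl ε, rfl, Prod.ext rfl (mul_one x).symm⟩)
      | refl a => exact Relation.EqvGen.refl _
      | symm a b _ ih => exact ih.symm _ _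
      | trans a b e _ _ ih ih' => exact ih.trans _ _ _ ih'
    · rw [Subgroup.closure_union, Subgroup.closure_iUnion]
      simpa only [Subgroup.closure_eq, h4] using h6
    · rintro s (hs | ⟨j, rfl⟩) x
      · obtain ⟨v, hv⟩ := Set.mem_iUnion.1 hs
        exact ⟨v, v, Relation.EqvGen.rel _ _ (Or.inl ⟨rfl, by rwa [inv_mul_cancel_left]⟩)⟩
      · exact ⟨_, _, Relation.EqvGen.rel _ _ (Or.inr ⟨.inr j, rfl, rfl⟩)⟩

end Pool.Agent.AdmG
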