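import Pool.Agent.AdmG.BgA
import Pool.Agent.AdmG.BgB
import Pool.Agent.AdmG.BgE
import Pool.Agent.AdmG.Close2
import Pool.Agent.AdmG.Close3

/-! The two descriptions of the space in genus zero agree. -/

namespace Pool.Agent.AdmG

theorem toAdm_BgH {p n : ℕ} (Y : StableCurve p 0 n) :
    ∃ Z : Pool.Agent.Adm.StableCurve p n, ∀ (G : Type) [Group G], Z.HasCover G ↔ Y.HasCover G := by
  obtain ⟨X, hX⟩ := Y.exists_rc
  obtain ⟨Z, hZ⟩ := X.exists_adm p
  exact ⟨Z, fun G _ => (hZ G).trans (Iff.trans ⟨X.cv_of_cl G, X.cl_of_cv G⟩ (hX G).symm)⟩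

theorem ofAdm_BgH {p n : ℕ} (Z : Pool.Agent.Adm.StableCurve p n) :
    ∃ Y : StableCurve p 0 n, ∀ (G : Type) [Group G], Y.HasCover G ↔ Z.HasCover G := by
  obtain ⟨X, hX⟩ := exists_rc_of_adm Z
  obtain ⟨Y, hY⟩ := RC.exists_curve p 0 n Fintype.card_empty X
  exact ⟨Y, fun G _ => (hY G).trans (Iff.trans ⟨X.cl_of_cv G, X.cv_of_cl G⟩ (hX G).symm)⟩

theorem mem_U_BgH {p g n : ℕ} (G : Type) [Group G] [Finite G] (X : StableCurve p g n) :
    (Quot.mk _ X : PiBar p g n) ∈ U p g n G ↔ X.HasCover G := by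
  refine ⟨?_, fun h => ⟨X, rfl, h⟩⟩
  rintro ⟨Y, e, h⟩
  have := congrArg (Quot.lift (fun X : StableCurve p g n => X.HasCover G)
    fun a b hab => propext (hab G)) e
  exact (Iff.of_eq this).1 h

theorem mem_U'_BgH {p n : ℕ} (G : Type) [Group G] [Finite G]
    (X : Pool.Agent.Adm.StableCurve p n) :
    (Quot.mk _ X : Pool.Agent.Adm.PiBar p n) ∈ Pool.Agent.Adm.U p n G ↔ X.HasCover G := by
  refine ⟨?_, fun h => ⟨X, rfl, h⟩⟩
  rintro ⟨Y, e, h⟩
  have := congrArg (Quot.lift (fun X : Pool.Agent.Adm.StableCurve p n => X.HasCover G)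
    fun a b hab => propext (hab G)) e
  exact (Iff.of_eq this).1 h

theorem nonempty_homeomorph (p n : ℕ) : Nonempty (PiBar p 0 n ≃ₜ Pool.Agent.Adm.PiBar p n) := by
  choose f hf using fun Y : StableCurve p 0 n => toAdm_BgH Y
  choose g hg using fun Z : Pool.Agent.Adm.StableCurve p n => ofAdm_BgH Z
  let F : PiBar p 0 n → Pool.Agent.Adm.PiBar p n :=
    Quot.map f fun a b h G _ _ => (hf a G).trans ((h G).trans (hf b G).symm)
  let F' : Pool.Agent.Adm.PiBar p n → PiBar p 0 n :=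
    Quot.map g fun a b h G _ _ => (hg a G).trans ((h G).trans (hg b G).symm)
  refine ⟨⟨⟨F, F', ?_, ?_⟩, ?_, ?_⟩⟩
  · rintro ⟨Y⟩
    exact Quot.sound fun G _ _ => (hg _ G).trans (hf Y G)
  · rintro ⟨Z⟩
    exact Quot.sound fun G _ _ => (hf _ G).trans (hg Z G)
  · refine continuous_generateFrom_iff.2 ?_
    rintro _ ⟨G, _, _, rfl⟩
    refine TopologicalSpace.isOpen_generateFrom_of_mem ⟨G, inferInstance, inferInstance, ?_⟩
    ext ⟨Y⟩
    exact (mem_U'_BgH G (f Y)).trans ((hf Y G).trans (mem_U_BgH G Y).symm)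
  · refine continuous_generateFrom_iff.2 ?_
    rintro _ ⟨G, _, _, rfl⟩
    refine TopologicalSpace.isOpen_generateFrom_of_mem ⟨G, inferInstance, inferInstance, ?_⟩
    ext ⟨Z⟩
    exact (mem_U_BgH G (g Z)).trans ((hg Z G).trans (mem_U'_BgH G Z).symm)

end Pool.Agent.AdmG
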