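import Pool.Agent.AdmG.Defs

/-! Residue fields of places and growth of Riemann-Roch spaces. -/

namespace Pool.Agent.AdmG

open scoped IntermediateField

variable {k K : Type} [Field k] [IsAlgClosed k] [Field K] [Algebra k K]

omit [IsAlgClosed k] in
theorem finiteDimensional_of_transcendental
    (ff : ∃ x : K, Transcendental k x ∧ FiniteDimensional k⟮x⟯ K) (f : K)
    (hf : Transcendental k f) : Algebra.IsAlgebraic k⟮f⟯ K := by
  obtain ⟨x, hx, hfin⟩ := ff
  have h1 : IsTranscendenceBasis k fun _ : Unit => x := by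
    rw [(algebraicIndependent_unique_type_iff.2 hx).isTranscendenceBasis_iff_isAlgebraic,
      Set.range_const, ← IntermediateField.isAlgebraic_adjoin_iff_top]
    infer_instance
  have h2 : IsTranscendenceBasis k fun _ : Unit => f :=
    (algebraicIndependent_unique_type_iff.2 hf).isTranscendenceBasis_of_trdeg_le_of_finite
      h1.cardinalMk_eq_trdeg.ge
  have h3 := h2.isAlgebraic_field
  rwa [Set.range_const] at h3

theorem Place.exists_residue (ff : ∃ x : K, Transcendental k x ∧ FiniteDimensional k⟮x⟯ K)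
    (P : Place k K) (f : K) (hf : P.1 f ≤ 1) : ∃ c : k, P.1 (f - algebraMap k K c) < 1 := by
  by_cases ht : IsAlgebraic k f
  · have h1 := IntermediateField.adjoin.finiteDimensional ht.isIntegral
    obtain ⟨c, hc⟩ := (IsAlgClosed.algebraMap_bijective_of_isIntegral (k := k) (K := k⟮f⟯)).2
      (IntermediateField.AdjoinSimple.gen k f)
    refine ⟨c, ?_⟩
    have h2 : algebraMap k K c = f := congrArg Subtype.val hc
    simp [h2]
  by_contra hc
  push Not at hc
  have h1 : ∀ c : k, P.1 (algebraMap k K c) ≤ 1 := fun c => by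
    rcases eq_or_ne c 0 with rfl | h
    · simp
    · exact (P.2.2 c h).le
  have h2 : ∀ c : k, P.1 (f - algebraMap k K c) = 1 := fun c =>
    le_antisymm (P.1.map_sub_le hf (h1 c)) (hc c)
  have h3 : ∀ Q : Polynomial k, Q ≠ 0 → P.1 (Polynomial.aeval f Q) = 1 := by
    intro Q hQ
    rw [(IsAlgClosed.splits Q).eq_prod_roots, map_mul, map_mul, Polynomial.aeval_C,
      P.2.2 _ (Polynomial.leadingCoeff_ne_zero.2 hQ), one_mul, map_multiset_prod,
      map_multiset_prod]
    refine Multiset.prod_eq_one fun a ha => ?_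
    simp only [Multiset.mem_map] at ha
    obtain ⟨_, ⟨_, ⟨c, -, rfl⟩, rfl⟩, rfl⟩ := ha
    simpa using h2 c
  have h4 : P.1.IsTrivialOn k⟮f⟯ := ⟨fun a ha => by
    obtain ⟨r, s, h⟩ := (IntermediateField.mem_adjoin_simple_iff k (a : K)).1 a.2
    have h0 : (a : K) ≠ 0 := fun e => ha (Subtype.ext e)
    change P.1 (a : K) = 1
    rw [h] at h0 ⊢
    rw [map_div₀, h3 r, h3 s, div_one]
    · rintro rfl
      simp at h0
    · rintro rfl
      simp at h0⟩
  obtain ⟨y, hy⟩ := P.2.1 (WithZero.exp 1)
  have h5 := finiteDimensional_of_transcendental ff f ht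
  refine Valuation.transcendental_of_ne_one k⟮f⟯ (v := P.1) y ?_ ?_ (h5.1 y)
  · rintro rfl
    exact WithZero.exp_ne_zero (hy.symm.trans (map_zero _))
  · rw [hy, ← WithZero.exp_zero]
    simp

theorem le_exp_BgR0 {a : WithZero (Multiplicative ℤ)} {m : ℤ} (h : a < WithZero.exp (m + 1)) :
    a ≤ WithZero.exp m := by
  rcases eq_or_ne a 0 with rfl | h0
  · exact zero_le
  · rw [← WithZero.exp_log h0] at h ⊢
    rw [WithZero.exp_lt_exp] at h
    rw [WithZero.exp_le_exp]
    omega

theorem finrank_RR_succ (ff : ∃ x : K, Transcendental k x ∧ FiniteDimensional k⟮x⟯ K)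
    (P : Place k K) (m : ℤ) (h : FiniteDimensional k (RR (Finsupp.single P m))) :
    FiniteDimensional k (RR (Finsupp.single P (m + 1))) ∧
      Module.finrank k (RR (Finsupp.single P (m + 1))) ≤
        Module.finrank k (RR (Finsupp.single P m)) + 1 := by
  have key : ∀ f ∈ RR (Finsupp.single P (m + 1)), P.1 f < WithZero.exp (m + 1) →
      f ∈ RR (Finsupp.single P m) := by
    intro f hf h1 Q
    rcases eq_or_ne Q P with rfl | hQ
    · rw [Finsupp.single_eq_same]
      exact le_exp_BgR0 h1
    · have := hf Q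
      rwa [Finsupp.single_eq_of_ne hQ] at this ⊢
  obtain ⟨f0, h0⟩ : ∃ f0 : K, RR (Finsupp.single P (m + 1)) ≤
      RR (Finsupp.single P m) ⊔ Submodule.span k {f0} := by
    by_cases h1 : ∀ f ∈ RR (Finsupp.single P (m + 1)), P.1 f < WithZero.exp (m + 1)
    · exact ⟨0, fun f hf => Submodule.mem_sup_left (key f hf (h1 f hf))⟩
    push Not at h1
    obtain ⟨f0, h1, h2⟩ := h1
    have h3 : P.1 f0 = WithZero.exp (m + 1) := le_antisymm (by simpa using h1 P) h2
    have h4 : f0 ≠ 0 := by
      rintro rfl
      exact WithZero.exp_ne_zero (h3.symm.trans (map_zero _))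
    refine ⟨f0, fun f hf => ?_⟩
    obtain ⟨c, hc⟩ := P.exists_residue ff (f / f0) (by
      rw [map_div₀, h3, div_le_one₀ WithZero.exp_pos]
      simpa using hf P)
    have h5 : f - c • f0 ∈ RR (Finsupp.single P m) := by
      refine key _ (sub_mem hf (Submodule.smul_mem _ _ h1)) ?_
      rw [show f - c • f0 = (f / f0 - algebraMap k K c) * f0 by
        rw [Algebra.smul_def, sub_mul, div_mul_cancel₀ _ h4], map_mul, h3]
      exact mul_lt_of_lt_one_left WithZero.exp_pos hc
    rw [← sub_add_cancel f (c • f0)]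
    exact Submodule.add_mem_sup h5
      (Submodule.smul_mem _ _ (Submodule.mem_span_singleton_self f0))
  refine ⟨Submodule.finiteDimensional_of_le h0, (Submodule.finrank_mono h0).trans
    ((Submodule.finrank_add_le_finrank_add_finrank _ _).trans (Nat.add_le_add_left ?_ _))⟩
  simpa using finrank_span_le_card ({f0} : Set K)

end Pool.Agent.AdmG
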