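import Mathlib

/-! Connected multigraphs with one edge less than vertices. -/

namespace Pool.Agent.AdmG

variable {V E : Type} [Fintype V] [Fintype E] (src tgt : E → V)

omit [Fintype V] [Fintype E] in
theorem cross_BgT {U : Finset V} {v w : V}
    (h : Relation.EqvGen (fun a b => ∃ ε, src ε = a ∧ tgt ε = b) v w) (hn : ¬ (v ∈ U ↔ w ∈ U)) :
    ∃ ε, ¬ (src ε ∈ U ↔ tgt ε ∈ U) := by
  induction h with
  | rel a b h =>
    obtain ⟨ε, rfl, rfl⟩ := h
    exact ⟨ε, hn⟩
  | refl a => exact absurd Iff.rfl hn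
  | symm a b _ ih => exact ih fun e => hn e.symm
  | trans a b c _ _ ih1 ih2 =>
    by_cases e : a ∈ U ↔ b ∈ U
    · exact ih2 fun e' => hn (e.trans e')
    · exact ih1 e

omit [Fintype E] in
theorem grow_BgT [DecidableEq V] [DecidableEq E]
    (h : ∀ v w, Relation.EqvGen (fun a b => ∃ ε, src ε = a ∧ tgt ε = b) v w) (v0 : V)
    (P : Finset E → Prop) (h0 : P ∅)
    (step : ∀ (F : Finset E) (ε : E) (b : V), P F → (∀ e ∈ F, src e ≠ b ∧ tgt e ≠ b) →
      src ε ≠ tgt ε → (src ε = b ∨ tgt ε = b) → P (insert ε F)) :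
    ∃ F : Finset E, F.card + 1 = Fintype.card V ∧ P F := by
  have key : ∀ n, n + 1 ≤ Fintype.card V → ∃ (U : Finset V) (F : Finset E), U.card = n + 1 ∧
      F.card = n ∧ v0 ∈ U ∧ (∀ e ∈ F, src e ∈ U ∧ tgt e ∈ U) ∧ P F := by
    intro n
    induction n with
    | zero => exact fun _ => ⟨{v0}, ∅, rfl, rfl, Finset.mem_singleton_self _, by simp, h0⟩
    | succ n ih =>
      intro hn
      obtain ⟨U, F, h1, h2, h3, h4, h5⟩ := ih (by omega)
      obtain ⟨w, -, hw⟩ := Finset.exists_mem_notMem_of_card_lt_card (s := U) (t := Finset.univ)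
        (by rw [Finset.card_univ]; omega)
      obtain ⟨ε, hε⟩ := cross_BgT src tgt (h v0 w) fun e => hw (e.1 h3)
      have hF : ε ∉ F := fun e => hε (iff_of_true (h4 ε e).1 (h4 ε e).2)
      have hne : src ε ≠ tgt ε := fun e => hε (by rw [e])
      obtain ⟨b, hb, h6, h7⟩ : ∃ b, b ∉ U ∧ (src ε = b ∨ tgt ε = b) ∧
          src ε ∈ insert b U ∧ tgt ε ∈ insert b U := by
        by_cases e : src ε ∈ U
        · exact ⟨tgt ε, fun e' => hε (iff_of_true e e'), .inr rfl, Finset.mem_insert_of_mem e,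
            Finset.mem_insert_self _ _⟩
        · refine ⟨src ε, e, .inl rfl, Finset.mem_insert_self _ _, Finset.mem_insert_of_mem ?_⟩
          by_contra e'
          exact hε (iff_of_false e e')
      refine ⟨insert b U, insert ε F, by rw [Finset.card_insert_of_notMem hb, h1],
        by rw [Finset.card_insert_of_notMem hF, h2], Finset.mem_insert_of_mem h3, fun e he => ?_,
        step F ε b h5 (fun e he => ⟨fun e' => hb (e' ▸ (h4 e he).1),
          fun e' => hb (e' ▸ (h4 e he).2)⟩) hne h6⟩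
      rcases Finset.mem_insert.1 he with rfl | he
      · exact h7
      · exact ⟨Finset.mem_insert_of_mem (h4 e he).1, Finset.mem_insert_of_mem (h4 e he).2⟩
  have hp : 0 < Fintype.card V := Fintype.card_pos_iff.2 ⟨v0⟩
  obtain ⟨U, F, -, h2, -, -, h5⟩ := key (Fintype.card V - 1) (by omega)
  exact ⟨F, by omega, h5⟩

theorem card_le_of_conn
    (h : ∀ v w, Relation.EqvGen (fun a b => ∃ ε, src ε = a ∧ tgt ε = b) v w) :
    Fintype.card V ≤ Fintype.card E + 1 := by
  classical
  rcases isEmpty_or_nonempty V with hV | ⟨⟨v0⟩⟩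
  · simp
  · obtain ⟨F, h1, -⟩ := grow_BgT src tgt h v0 (fun _ => True) trivial fun _ _ _ _ _ _ _ => trivial
    have := F.card_le_univ
    omega

theorem exists_gauge (h : ∀ v w, Relation.EqvGen (fun a b => ∃ ε, src ε = a ∧ tgt ε = b) v w)
    (hc : Fintype.card E + 1 = Fintype.card V) (G : Type) [Group G] (t : E → G) :
    ∃ u : V → G, ∀ ε, t ε = (u (src ε))⁻¹ * u (tgt ε) := by
  classical
  obtain ⟨v0⟩ : Nonempty V := Fintype.card_pos_iff.1 (by omega)
  obtain ⟨F, h1, u, hu⟩ := grow_BgT src tgt h v0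
    (fun F => ∃ u : V → G, ∀ ε ∈ F, t ε = (u (src ε))⁻¹ * u (tgt ε)) ⟨fun _ => 1, by simp⟩ <| by
      rintro F ε b ⟨u, hu⟩ h2 h3 (rfl | rfl)
      · refine ⟨Function.update u (src ε) (u (tgt ε) * (t ε)⁻¹), fun e he => ?_⟩
        rcases Finset.mem_insert.1 he with rfl | he
        · rw [Function.update_self, Function.update_of_ne h3.symm]
          group
        · rw [Function.update_of_ne (h2 e he).1, Function.update_of_ne (h2 e he).2, hu e he]
      · refine ⟨Function.update u (tgt ε) (u (src ε) * t ε), fun e he => ?_⟩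
        rcases Finset.mem_insert.1 he with rfl | he
        · rw [Function.update_self, Function.update_of_ne h3]
          group
        · rw [Function.update_of_ne (h2 e he).1, Function.update_of_ne (h2 e he).2, hu e he]
  obtain rfl : F = Finset.univ := F.eq_univ_of_card (by omega)
  exact ⟨u, fun ε => hu ε (Finset.mem_univ _)⟩

theorem isTree_of_card (h : ∀ v w, Relation.EqvGen (fun a b => ∃ ε, src ε = a ∧ tgt ε = b) v w)
    (hc : Fintype.card E + 1 = Fintype.card V) :
    (SimpleGraph.fromRel fun a b => ∃ ε, src ε = a ∧ tgt ε = b).IsTree ∧ (∀ ε, src ε ≠ tgt ε) ∧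
      Function.Injective fun ε => s(src ε, tgt ε) := by
  classical
  obtain ⟨v0⟩ : Nonempty V := Fintype.card_pos_iff.1 (by omega)
  obtain ⟨F, h1, h2, h3⟩ := grow_BgT src tgt h v0
    (fun F => (∀ ε ∈ F, src ε ≠ tgt ε) ∧
      ∀ e ∈ F, ∀ e' ∈ F, s(src e, tgt e) = s(src e', tgt e') → e = e') (by simp) <| by
      rintro F ε b ⟨h1, h2⟩ h3 h4 h5
      have h6 : ∀ e ∈ F, s(src e, tgt e) ≠ s(src ε, tgt ε) := fun e he e' => by
        have h7 : b ∈ s(src ε, tgt ε) := Sym2.mem_iff.2 (h5.imp Eq.symm Eq.symm)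
        rw [← e', Sym2.mem_iff] at h7
        exact h7.elim (h3 e he).1.symm (h3 e he).2.symm
      refine ⟨fun e he => ?_, fun e he e' he' h7 => ?_⟩
      · rcases Finset.mem_insert.1 he with rfl | he
        exacts [h4, h1 e he]
      · rcases Finset.mem_insert.1 he with e1 | e1 <;> rcases Finset.mem_insert.1 he' with e2 | e2
        exacts [e1.trans e2.symm, absurd (e1 ▸ h7.symm) (h6 e' e2), absurd (e2 ▸ h7) (h6 e e1),
          h2 e e1 e' e2 h7]
  obtain rfl : F = Finset.univ := F.eq_univ_of_card (by omega)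
  have h4 : ∀ ε, src ε ≠ tgt ε := fun ε => h2 ε (Finset.mem_univ _)
  have h5 : Function.Injective fun ε => s(src ε, tgt ε) := fun e e' =>
    h3 e (Finset.mem_univ _) e' (Finset.mem_univ _)
  refine ⟨SimpleGraph.isTree_iff_connected_and_card.2 ⟨?_, ?_⟩, h4, h5⟩
  · have : Nonempty V := ⟨v0⟩
    refine ⟨fun v w => ?_⟩
    induction h v w with
    | rel a b h =>
      obtain ⟨ε, rfl, rfl⟩ := h
      exact SimpleGraph.Adj.reachable
        ((SimpleGraph.fromRel_adj _ _ _).2 ⟨h4 ε, .inl ⟨ε, rfl, rfl⟩⟩)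
    | refl a => exact .refl a
    | symm a b _ ih => exact ih.symm
    | trans a b c _ _ ih1 ih2 => exact ih1.trans ih2
  · have e : (SimpleGraph.fromRel fun a b => ∃ ε, src ε = a ∧ tgt ε = b).edgeSet =
        Set.range fun ε => s(src ε, tgt ε) := by
      ext x
      induction x using Sym2.ind with
      | h a b =>
        rw [SimpleGraph.mem_edgeSet, SimpleGraph.fromRel_adj]
        constructor
        · rintro ⟨-, ⟨ε, rfl, rfl⟩ | ⟨ε, rfl, rfl⟩⟩
          exacts [⟨ε, rfl⟩, ⟨ε, Sym2.eq_swap⟩]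
        · rintro ⟨ε, e⟩
          rcases Sym2.eq_iff.1 e with ⟨rfl, rfl⟩ | ⟨rfl, rfl⟩
          exacts [⟨h4 ε, .inl ⟨ε, rfl, rfl⟩⟩, ⟨(h4 ε).symm, .inr ⟨ε, rfl, rfl⟩⟩]
    rw [e, Nat.card_range_of_injective h5, Nat.card_eq_fintype_card, Nat.card_eq_fintype_card, hc]

end Pool.Agent.AdmG
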