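import Pool.Agent.AdmG.Ind1
import Pool.Agent.Adm.FC
import Pool.Agent.Adm.T3

/-! Algebraic independence, continued. -/

namespace Pool.Agent.AdmG

open Pool.Agent.Adm
open scoped OnePoint

variable {k0 k K κ : Type} [Field k0] [Field k] [Field K]

theorem of_alg_Ind2 [Finite κ] [Algebra k K] {s s' : κ → K} (h : AlgebraicIndependent k s)
    (ha : ∀ i, IsAlgebraic (Algebra.adjoin k (Set.range s')) (s i)) :
    AlgebraicIndependent k s' := by
  let M := AlgebraicIndependent.matroid k K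
  have h1 : M.Indep (Set.range s) :=
    AlgebraicIndependent.matroid_indep_iff.2 h.to_subtype_range
  have h2 : Set.range s ⊆ M.closure (Set.range s') := by
    rintro _ ⟨i, rfl⟩
    rw [AlgebraicIndependent.matroid_closure_eq]
    exact ha i
  have h3 : (Set.univ : Set κ).encard ≤ M.eRk (Set.range s') := by
    rw [← M.eRk_closure_eq, ← h.injective.encard_image, Set.image_univ, ← h1.eRk_eq_encard]
    exact M.eRk_mono h2
  have h4 : (s' '' Set.univ).encard ≤ (Set.univ : Set κ).encard := Set.encard_image_le _ _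
  have h5 := M.eRk_le_encard (Set.range s')
  have h6 : Function.Injective s' := Set.injOn_univ.1 (Set.finite_univ.injOn_of_encard_image_eq
    (le_antisymm h4 (by rw [Set.image_univ]; exact h3.trans h5)))
  rw [Set.image_univ] at h4
  exact AlgebraicIndependent.of_subtype_range h6 (AlgebraicIndependent.matroid_indep_iff.1
    ((Matroid.indep_iff_eRk_eq_encard_of_finite (Set.finite_range s')).2
      (le_antisymm h5 (h4.trans h3))))

theorem alg_Ind2 [Algebra k K] (s : κ → K) (i : κ) :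
    IsAlgebraic (Algebra.adjoin k (Set.range s)) (s i) :=
  isAlgebraic_algebraMap (⟨s i, Algebra.subset_adjoin ⟨i, rfl⟩⟩ : Algebra.adjoin k (Set.range s))

theorem lift_Ind2 {k1 : Type} [Field k1] (φ : k0 →+* k1) (s : κ → k1) (h : Ind φ s) :
    ∃ f : FractionRing (MvPolynomial κ k0) →+* k1, ∀ P,
      f (algebraMap (MvPolynomial κ k0) _ P) = MvPolynomial.eval₂ φ s P := by
  have hi : Function.Injective (MvPolynomial.eval₂Hom φ s) :=
    (injective_iff_map_eq_zero _).2 ((ind_iff φ s).1 h)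
  exact ⟨IsFractionRing.lift hi, fun P => IsFractionRing.lift_algebraMap hi P⟩

theorem norm_Ind2 {C : Type} [NormedField C] (φ : k →+* C) (hφ : ∀ x, ‖φ x‖ ≤ 1) (c : k)
    (hc : c ≠ 0) : ‖φ c‖ = 1 := by
  refine le_antisymm (hφ c) ?_
  have h1 : ‖φ c‖ * ‖φ c⁻¹‖ = 1 := by
    rw [← norm_mul, ← map_mul, mul_inv_cancel₀ hc, map_one, norm_one]
  exact h1.symm.le.trans (mul_le_of_le_one_right (norm_nonneg _) (hφ _))

theorem Ind.inv [Finite κ] {φ : k →+* K} {s : κ → K} (h : Ind φ s) : Ind φ fun i => (s i)⁻¹ := by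
  let _ := φ.toAlgebra
  refine of_alg_Ind2 h fun i => ?_
  have := (alg_Ind2 (k := k) (fun i => (s i)⁻¹) i).inv
  rwa [inv_inv] at this

theorem Ind.scale [Finite κ] {φ : k →+* K} {s : κ → K} {t : K}
    (h : Ind φ fun o : Option κ => o.elim t s) :
    Ind φ fun o : Option κ => t * o.elim 1 s := by
  let _ := φ.toAlgebra
  have ht : t ≠ 0 := fun e => h.notMem none ⟨0, (map_zero φ).trans e.symm⟩
  have h0 := alg_Ind2 (k := k) (fun o : Option κ => t * o.elim 1 s) none
  refine of_alg_Ind2 h ?_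
  rintro (_ | i)
  · simpa using h0
  · have := h0.inv.mul (alg_Ind2 (k := k) (fun o : Option κ => t * o.elim 1 s) (some i))
    simpa [ht] using this

theorem exists_amalgam_ind {k1 k2 : Type} [Field k1] [Field k2] (p : ℕ) [CharP k0 p]
    (φ1 : k0 →+* k1) (φ2 : k0 →+* k2) (s1 : κ → k1) (s2 : κ → k2) (h1 : Ind φ1 s1)
    (h2 : Ind φ2 s2) :
    ∃ (K : Type) (_ : Field K) (_ : IsAlgClosed K) (_ : CharP K p) (ψ1 : k1 →+* K)
      (ψ2 : k2 →+* K), (∀ x, ψ1 (φ1 x) = ψ2 (φ2 x)) ∧ ∀ i, ψ1 (s1 i) = ψ2 (s2 i) := by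
  obtain ⟨f1, e1⟩ := lift_Ind2 φ1 s1 h1
  obtain ⟨f2, e2⟩ := lift_Ind2 φ2 s2 h2
  obtain ⟨K, _, _, ψ1, ψ2, h⟩ := amalg_TW f1 f2
  refine ⟨K, inferInstance, inferInstance,
    charP_of_injective_ringHom (ψ1.comp φ1).injective p, ψ1, ψ2, fun x => ?_, fun i => ?_⟩
  · have := h (algebraMap (MvPolynomial κ k0) _ (MvPolynomial.C x))
    rwa [e1, e2, MvPolynomial.eval₂_C, MvPolynomial.eval₂_C] at this
  · have := h (algebraMap (MvPolynomial κ k0) _ (MvPolynomial.X i))
    rwa [e1, e2, MvPolynomial.eval₂_X, MvPolynomial.eval₂_X] at this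

theorem exists_big (p : ℕ) (k : Type) [Field k] [CharP k p] :
    ∃ (C : Type) (_ : NormedField C) (_ : CompleteSpace C) (_ : IsUltrametricDist C)
      (_ : IsAlgClosed C) (_ : CharP C p) (φ : k →+* C), (∀ x, ‖φ x‖ ≤ 1) ∧
        ∃ t : C, t ≠ 0 ∧ ‖t‖ < 1 ∧ ∀ a, φ a + t ∉ Set.range φ := by
  obtain ⟨C, _, _, _, _, φ, hφ, t, h0, ht⟩ := exists_bigField k
  refine ⟨C, inferInstance, inferInstance, inferInstance, inferInstance,
    charP_of_injective_ringHom φ.injective p, φ, hφ, t, h0, ht, ?_⟩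
  rintro a ⟨b, hb⟩
  have e : t = φ (b - a) := by rw [map_sub, hb, add_sub_cancel_left]
  have h1 : b - a ≠ 0 := fun h => h0 (by rw [e, h, map_zero])
  exact ht.ne (by rw [e]; exact norm_Ind2 φ hφ _ h1)

theorem gen_three_inj {C : Type} [NormedField C] (φ : k →+* C) (hφ : ∀ x, ‖φ x‖ ≤ 1) (t : C)
    (h0 : t ≠ 0) (ht : ‖t‖ < 1) (s s' : κ → k) (hs : Function.Injective (gen s))
    (hs' : Function.Injective (gen s')) :
    Function.Injective (gen (Sum.elim (fun o : Option κ => t * φ (o.elim 1 s))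
      fun o : Option κ => φ (o.elim 1 s') / t)) := by
  have key : ∀ u : κ → k, Function.Injective (gen u) →
      Function.Injective (fun o : Option κ => o.elim 1 u) ∧
        ∀ o : Option κ, ‖φ (o.elim 1 u)‖ = 1 := by
    intro u hu
    obtain ⟨h1, h2⟩ := (gen_inj_iff u).1 hu
    constructor
    · rintro (_ | i) (_ | j) e
      · rfl
      · exact absurd e.symm (h2 j).2
      · exact absurd e (h2 i).2
      · exact congrArg some (h1 e)
    · rintro (_ | i)
      · exact norm_Ind2 φ hφ _ one_ne_zero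
      · exact norm_Ind2 φ hφ _ (h2 i).1
  obtain ⟨a1, a2⟩ := key s hs
  obtain ⟨b1, b2⟩ := key s' hs'
  have hp : 0 < ‖t‖ := norm_pos_iff.2 h0
  have n1 : ∀ o : Option κ, ‖t * φ (o.elim 1 s)‖ < 1 := fun o => by
    rwa [norm_mul, a2, mul_one]
  have n2 : ∀ o : Option κ, 1 < ‖φ (o.elim 1 s') / t‖ := fun o => by
    rwa [norm_div, b2, one_lt_div hp]
  refine (gen_inj_iff _).2 ⟨?_, ?_⟩
  · rintro (i | i) (j | j) e
    · exact congrArg Sum.inl (a1 (φ.injective (mul_left_cancel₀ h0 e)))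
    · exact absurd (congrArg norm e) ((n1 i).trans (n2 j)).ne
    · exact absurd (congrArg norm e) ((n1 j).trans (n2 i)).ne'
    · exact congrArg Sum.inr (b1 (φ.injective ((div_left_inj' h0).1 e)))
  · rintro (i | i)
    · refine ⟨mul_ne_zero h0 (norm_pos_iff.1 (by rw [a2]; exact one_pos)), fun e => ?_⟩
      exact (n1 i).ne ((congrArg norm e).trans norm_one)
    · refine ⟨norm_pos_iff.1 (one_pos.trans (n2 i)), fun e => ?_⟩
      exact (n2 i).ne' ((congrArg norm e).trans norm_one)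

end Pool.Agent.AdmG
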