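import Pool.Agent.AdmG.AP
import Pool.Agent.Adm.S1

/-! Smoothing one node. -/

namespace Pool.Agent.AdmG

open Pool.Agent.Adm
open scoped OnePoint

variable {k C κ : Type} [Field k] [IsAlgClosed k] [NormedField C] [CompleteSpace C]
  [IsUltrametricDist C] [IsAlgClosed C]

theorem lifts_two (φ : k →+* C) (hφ : ∀ x, ‖φ x‖ ≤ 1) (t : C) (h0 : t ≠ 0) (ht : ‖t‖ < 1)
    (s : κ → k) :
    Lifts φ (two (vtx (gen s))) (vtx (gen fun o : Option κ => t * φ (o.elim 1 s))) := by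
  rintro G _ _ d H ⟨x, H1, H2, ⟨c1, T1, m1, rfl⟩, ⟨c2, T2, m2, rfl⟩, rfl⟩
  have hinf : c2.Mono ∞ (d none).1 (d none).2.1 (d none).2.2 := m2 none
  obtain ⟨cB, b1, b2, b3, b4⟩ := exists_kummer0 _ hinf.1 _ hinf.2.1.inv _ hinf.pow_eq_one
  rw [inv_inv] at b3
  obtain ⟨c, r, mA, mM, mB, mI, mr⟩ := smooth_two φ hφ t t h0 ht h0 ht c1 c2 cB
    ⟨_, _, _, m1 none, m2 (some none)⟩ ⟨_, _, _, hinf, b2⟩
  refine ⟨c, ?_, fun i => ?_, ?_⟩
  · refine tame_S1 φ t t c _ ⟨_, _, _, mI _ _ _ b3, fun hn => absurd ⟨none, rfl⟩ hn⟩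
      (fun y => ?_) (fun y hy => ?_) (fun y hy => ?_) mr
    · obtain ⟨e, ζ, g, hm, hg⟩ := T1 y
      refine ⟨_, _, _, mA y e ζ g hm, fun hn => hg ?_⟩
      rintro ⟨_ | _ | o, ho⟩
      · exact OnePoint.infty_ne_coe _ ho
      · obtain rfl : (0 : k) = y := OnePoint.coe_eq_coe.1 ho
        exact hn ⟨some none, OnePoint.coe_eq_coe.2 (by simp)⟩
      · obtain rfl : o.elim 1 s = y := OnePoint.coe_eq_coe.1 ho
        exact hn ⟨some (some (some o)), rfl⟩
    · obtain ⟨e, ζ, g, hm, hg⟩ := T2 y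
      refine ⟨_, _, _, mM y e ζ g hy hm, fun hn => hg ?_⟩
      rintro ⟨_ | _ | _ | o, ho⟩
      · exact OnePoint.infty_ne_coe _ ho
      · exact hy (OnePoint.coe_eq_coe.1 ho).symm
      · obtain rfl : (1 : k) = y := OnePoint.coe_eq_coe.1 ho
        exact hn ⟨some (some none), OnePoint.coe_eq_coe.2 (map_one φ).symm⟩
      · exact o.elim
    · exact ⟨_, _, _, mB y _ _ _ hy (b4 y hy), fun _ => rfl⟩
  · rcases i with _ | _ | _ | o
    · exact mI _ _ _ b3
    · have := mA 0 _ _ _ (m1 (some none))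
      rw [map_zero, mul_zero] at this
      exact this
    · have := mM 1 _ _ _ one_ne_zero (m2 (some (some none)))
      rw [map_one] at this
      exact this
    · exact mA _ _ _ _ (m1 (some (some o)))
  · rw [r]
    exact sup_eq_left.2 ((le_range_S1 hinf b1).trans le_sup_right)

end Pool.Agent.AdmG
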