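import Pool.Agent.AdmG.St1
import Pool.Agent.AdmG.Sm2
import Pool.Agent.AdmG.Ind2

/-! Chains: start, renumbering, one more point. -/

namespace Pool.Agent.AdmG

open Pool.Agent.Adm
open scoped OnePoint

/-- A path may start at any node with the same field and the same property. -/
theorem start_Ch1 {p r : ℕ} {ι : Type} {R : (ι → ℤ) → Prop} (N : Nd p ι) (P : AP N.k ι)
    (hP : Tr N.k ι P) (hN : N.P = P) {N' : Nd p ι} {φ : N.k →+* N'.k}
    (h : Path R ({ k := N.k, P := P, tr := hP } : Nd p ι) N' φ r) : Path R N N' φ r := by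
  subst hN
  exact h

theorem ch_base (p : ℕ) : Ch p Empty 0 := by
  refine ⟨fun k _ => tri k, fun k _ => tr_tri k, fun k k' _ _ _ _ φ => lifts_tri φ, ?_⟩
  intro N hN
  exact ⟨N, RingHom.id _, Empty.elim, ind_empty _ _, hN, Path.refl⟩

theorem reidx_gen_Ch1 {k κ κ' : Type} [Field k] (e : κ ≃ κ') (s : κ → k) :
    reidx e.optionCongr.optionCongr.optionCongr (vtx (gen s)) =
      vtx (gen fun i => s (e.symm i)) := by
  have ha : ∀ o : W κ, gen (fun i => s (e.symm i)) (e.optionCongr.optionCongr.optionCongr o) =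
      gen s o := by
    rintro (_ | _ | _ | i)
    · rfl
    · rfl
    · rfl
    · simp [gen]
  have hr : Set.range (gen fun i => s (e.symm i)) = Set.range (gen s) := by
    ext x
    constructor
    · rintro ⟨o, rfl⟩
      obtain ⟨o, rfl⟩ := e.optionCongr.optionCongr.optionCongr.surjective o
      exact ⟨o, (ha o).symm⟩
    · rintro ⟨o, rfl⟩
      exact ⟨_, ha o⟩
  funext G _ d H
  apply propext
  constructor
  · rintro ⟨c, h1, h2, h3⟩
    refine ⟨c, hr ▸ h1, fun o => ?_, h3⟩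
    obtain ⟨o, rfl⟩ := e.optionCongr.optionCongr.optionCongr.surjective o
    rw [ha]
    exact h2 o
  · rintro ⟨c, h1, h2, h3⟩
    refine ⟨c, hr ▸ h1, fun o => ?_, h3⟩
    rw [← ha]
    exact h2 _

theorem Ch.equiv {p r : ℕ} {κ κ' : Type} [Fintype κ] [Fintype κ'] (e : κ ≃ κ') (h : Ch p κ r) :
    Ch p κ' r := by
  obtain ⟨S, h1, h2, h3⟩ := h
  let E : W κ ≃ W κ' := e.optionCongr.optionCongr.optionCongr
  refine ⟨fun k _ => reidx E (S k), fun k _ => Tr.reidx E (h1 k),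
    fun k k' _ _ _ _ φ => (h2 k k' φ).reidx E, ?_⟩
  intro N hN
  obtain ⟨N', φ, s, hs, hN', hp⟩ := h3 { k := N.k, P := S N.k, tr := h1 _ } rfl
  obtain ⟨C, hC⟩ := exists_ctx_reidx N.k E R0 R0 fun n hn => R0.reidx E n hn
  have hq := hp.ctx C (RingHom.id N.k)
  refine ⟨N'.ctx C (φ.comp (RingHom.id N.k)), φ, fun i => s (e.symm i),
    hs.comp _ e.symm.injective, ?_, start_Ch1 N _ _ (hN.trans (hC _ _ _).symm) hq⟩
  change C.Φ _ _ _ = _
  rw [hC, hN']
  exact reidx_gen_Ch1 e s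

theorem Ch.succ {p r : ℕ} [Fact p.Prime] {κ : Type} [Fintype κ] (h : Ch p κ r) :
    Ch p (Option κ) (r + 1) := by
  obtain ⟨S, h1, h2, h3⟩ := h
  refine ⟨fun k _ => two (S k), fun k _ => (h1 k).two,
    fun k k' _ _ _ _ φ => (h2 k k' φ).two, ?_⟩
  intro N hN
  obtain ⟨N', φ, s, hs, hN', hp⟩ := h3 { k := N.k, P := S N.k, tr := h1 _ } rfl
  obtain ⟨C, hC⟩ := exists_ctx_two N.k κ
  have hq := start_Ch1 N _ _ (hN.trans (hC _ _ _).symm) (hp.ctx C (RingHom.id N.k))
  obtain ⟨K, _, _, _, _, _, ψ, hψ, t, h0, ht, hr⟩ := exists_big p N'.k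
  have ht' : t ∉ Set.range ψ := by simpa using hr 0
  have hi := (hs.option ψ t ht').scale
  have he : (fun o : Option κ => t * o.elim 1 fun i => ψ (s i)) =
      fun o : Option κ => t * ψ (o.elim 1 s) := by
    funext o
    cases o <;> simp
  rw [he] at hi
  have hst := step_two p ψ s hs.gen_inj _ hi.gen_inj (lifts_two ψ hψ t h0 ht s)
  let M : Nd p (W (Option κ)) :=
    { k := K, P := vtx (gen fun o : Option κ => t * ψ (o.elim 1 s)), tr := tr_gen _ hi.gen_inj }
  have hs' : Step R0 ψ (C.Φ N'.k (φ.comp (RingHom.id N.k)) N'.P) M.P := by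
    rw [hC, hN']
    exact hst
  exact ⟨M, ψ.comp φ, _, hi, rfl,
    Path.step (N' := N'.ctx C (φ.comp (RingHom.id N.k))) (N'' := M) hq ψ hs'⟩

end Pool.Agent.AdmG
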