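import Pool.Agent.AdmG.Nice
import Pool.Agent.Adm.Lift1
import Pool.Agent.Adm.TW

/-! Formal lifting lemmas. -/

namespace Pool.Agent.AdmG

open Pool.Agent.Adm
open scoped OnePoint

variable {k k' k'' ι ι' : Type} [Field k] [Field k'] [Field k'']

theorem dinv_Lf {G : Type} (φ : k →+* k') (x : Dat k G) : dinv (x.map φ) = (dinv x).map φ :=
  Prod.ext rfl (Prod.ext (map_inv₀ φ _).symm rfl)

theorem Lifts.refl (P : AP k ι) : Lifts (RingHom.id k) P P := by
  intro G _ _ d H h
  exact h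

theorem Lifts.trans {φ : k →+* k'} {ψ : k' →+* k''} {P : AP k ι} {P' : AP k' ι} {P'' : AP k'' ι}
    (h : Lifts φ P P') (h' : Lifts ψ P' P'') : Lifts (ψ.comp φ) P P'' := by
  intro G _ _ d H hP
  exact h' G _ H (h G d H hP)

theorem lifts_vtx [IsAlgClosed k] [IsAlgClosed k'] (φ : k →+* k') (a : ι → OnePoint k) :
    Lifts φ (vtx a) (vtx fun i => (a i).map φ) := by
  rintro G _ _ d H ⟨c, h1, h2, h3⟩
  obtain ⟨c', e1, e2, e3⟩ := c.exists_bc φ _ h1
  exact ⟨c', by rwa [← Set.range_comp] at e2, fun i => e3 _ _ _ _ (h2 i), e1.trans h3⟩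

theorem lifts_gen [IsAlgClosed k] [IsAlgClosed k'] {κ : Type} (φ : k →+* k') (s : κ → k) :
    Lifts φ (vtx (gen s)) (vtx (gen fun i => φ (s i))) := by
  have e : (gen fun i => φ (s i)) = fun i => (gen s i).map φ := by
    funext o
    rcases o with _ | _ | _ | o
    · rfl
    · exact congrArg OnePoint.some (map_zero φ).symm
    · exact congrArg OnePoint.some (map_one φ).symm
    · rfl
  rw [e]
  exact lifts_vtx φ _

theorem lifts_tri [IsAlgClosed k] [IsAlgClosed k'] (φ : k →+* k') : Lifts φ (tri k) (tri k') := by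
  have h := lifts_gen φ (Empty.elim : Empty → k)
  rwa [show (fun i => φ (Empty.elim i)) = Empty.elim from funext fun i => i.elim] at h

theorem Lifts.glue {φ : k →+* k'} {P : AP k (Option ι)} {Q : AP k (Option ι')}
    {P' : AP k' (Option ι)} {Q' : AP k' (Option ι')} (h : Lifts φ P P') (h' : Lifts φ Q Q') :
    Lifts φ (glue P Q) (glue P' Q') := by
  rintro G _ _ d H ⟨x, H1, H2, h1, h2, h3⟩
  refine ⟨x.map φ, H1, H2, ?_, ?_, h3⟩
  · convert h G _ _ h1 using 2 with o
    cases o <;> rfl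
  · convert h' G _ _ h2 using 2 with o
    cases o
    · exact dinv_Lf φ x
    · rfl

theorem Lifts.reidx {φ : k →+* k'} {P : AP k ι} {P' : AP k' ι} (e : ι ≃ ι') (h : Lifts φ P P') :
    Lifts φ (reidx e P) (reidx e P') := by
  intro G _ _ d H hP
  exact h G _ H hP

theorem Lifts.two [IsAlgClosed k] [IsAlgClosed k'] {κ : Type} {φ : k →+* k'} {A : AP k (W κ)}
    {A' : AP k' (W κ)} (h : Lifts φ A A') : Lifts φ (two A) (two A') := by
  rintro G _ _ d H ⟨x, H1, H2, h1, h2, h3⟩
  refine ⟨x.map φ, H1, H2, ?_, ?_, h3⟩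
  · convert h G _ _ h1 using 2 with o
    rcases o with _ | _ | o <;> rfl
  · convert lifts_tri φ G _ _ h2 using 2 with o
    rcases o with _ | _ | o
    · rfl
    · exact dinv_Lf φ x
    · rfl

theorem Lifts.three [IsAlgClosed k] [IsAlgClosed k'] {κ : Type} {φ : k →+* k'}
    {A B : AP k (W κ)} {A' B' : AP k' (W κ)} (h : Lifts φ A A') (h' : Lifts φ B B') :
    Lifts φ (three A B) (three A' B') := by
  rintro G _ _ d H ⟨x, y, H1, H2, H3, h1, h2, h3, h4⟩
  refine ⟨x.map φ, y.map φ, H1, H2, H3, ?_, ?_, ?_, h4⟩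
  · convert h G _ _ h1 using 2 with o
    rcases o with _ | _ | o <;> rfl
  · convert lifts_tri φ G _ _ h2 using 2 with o
    rcases o with _ | _ | o
    · rfl
    · exact dinv_Lf φ x
    · rfl
  · convert h' G _ _ h3 using 2 with o
    rcases o with _ | _ | o
    · rfl
    · exact dinv_Lf φ y
    · rfl

/-- Embeddings that agree on an algebraically closed subfield give the same lifts. -/
theorem Lifts.twist {k0 : Type} [Field k0] [IsAlgClosed k0] (φ0 : k0 →+* k) {ψ1 ψ2 : k →+* k'}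
    (hψ : ∀ x, ψ1 (φ0 x) = ψ2 (φ0 x)) {P : AP k ι} {P' : AP k' ι} (hP : Nice P)
    (h : Lifts ψ2 P P') : Lifts ψ1 P P' := by
  intro G _ _ d H hd
  convert h G d H hd using 2 with i
  obtain ⟨h1, h2, -⟩ := hP.valid G d H hd i
  obtain ⟨x, hx⟩ := root_mem_range φ0 _ _ h1 h2.pow_eq_one
  exact Prod.ext rfl (Prod.ext (show ψ1 (d i).2.1 = ψ2 (d i).2.1 by rw [← hx, hψ]) rfl)

theorem gen_empty_inj (k : Type) [Field k] :
    Function.Injective (gen (Empty.elim : Empty → k)) := by
  rintro (_ | _ | _ | a) (_ | _ | _ | b) h <;>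
    first | rfl | exact a.elim | exact b.elim | simp [gen] at h

theorem tr_gen {κ : Type} [Finite κ] (s : κ → k) (hs : Function.Injective (gen s)) :
    Tr k _ (vtx (gen s)) := by
  refine Tr.vtx _ hs ?_
  simp only [Finite.card_option]
  omega

theorem tr_tri (k : Type) [Field k] : Tr k _ (tri k) := by
  exact tr_gen _ (gen_empty_inj k)

end Pool.Agent.AdmG
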