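import Pool.Agent.AdmG.AP
import Pool.Agent.Adm.Lift2

/-! Moving a marked point. -/

namespace Pool.Agent.AdmG

open Pool.Agent.Adm
open scoped OnePoint

variable {k C κ : Type} [Field k] [IsAlgClosed k] [NormedField C] [CompleteSpace C]
  [IsUltrametricDist C] [IsAlgClosed C]

/-- Infinity and a family of finite points. -/
def pts_Mv {K ι : Type} (a : ι → K) : Option ι → OnePoint K := fun o =>
  o.elim ∞ fun o => (a o : OnePoint K)

theorem mem_pts_Mv {K ι : Type} {a : ι → K} {x : K} :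
    (x : OnePoint K) ∈ Set.range (pts_Mv a) ↔ ∃ i, a i = x := by
  constructor
  · rintro ⟨_ | i, h⟩
    · exact absurd h (OnePoint.infty_ne_coe x)
    · exact ⟨i, OnePoint.coe_eq_coe.1 h⟩
  · rintro ⟨i, rfl⟩
    exact ⟨some i, rfl⟩

theorem move_Mv {ι : Type} (φ : k →+* C) (hφ : ∀ x, ‖φ x‖ ≤ 1) (t : C) (h0 : t ≠ 0)
    (ht : ‖t‖ < 1) (a : ι → k) (ha : Function.Injective a) (i0 : ι) (a' : ι → C)
    (e0 : a' i0 = φ (a i0) + t) (e1 : ∀ i, i ≠ i0 → a' i = φ (a i)) :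
    Lifts φ (vtx (pts_Mv a)) (vtx (pts_Mv a')) := by
  rintro G _ _ d H ⟨c, T, m, hG⟩
  obtain ⟨c1, r1, T1, m1, n1⟩ := translate_Lift2 c (-a i0)
    (S' := Set.range (pts_Mv fun i => a i + -a i0)) T ⟨none, rfl⟩ fun x hx => by
      obtain ⟨i, rfl⟩ := mem_pts_Mv.1 hx
      exact ⟨some i, rfl⟩
  obtain ⟨c2, r2, T2, m2, n2, k2⟩ := move_zero φ hφ t h0 ht c1 _ T1 ⟨none, rfl⟩ (d (some i0))
    (d none) (add_neg_cancel (a i0) ▸ m1 _ _ (m (some i0))) (n1 _ (m none))
  have e : ∀ i, φ (a i + -a i0) + φ (a i0) = φ (a i) := fun i => by simp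
  obtain ⟨c3, r3, T3, m3, n3⟩ := translate_Lift2 c2 (φ (a i0))
    (S' := Set.range (pts_Mv a')) T2 ⟨none, rfl⟩ fun x hx => by
      rcases hx.resolve_left (OnePoint.coe_ne_infty x) with hx | ⟨y, y0, hy, hx⟩
      · exact mem_pts_Mv.2 ⟨i0, by rw [OnePoint.coe_eq_coe.1 hx, e0, add_comm]⟩
      · obtain ⟨i, rfl⟩ := mem_pts_Mv.1 hy
        refine mem_pts_Mv.2 ⟨i, ?_⟩
        rw [OnePoint.coe_eq_coe.1 hx, e, e1 i (by rintro rfl; simp at y0)]
  refine ⟨c3, T3, ?_, r3.trans (r2.trans (r1.trans hG))⟩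
  rintro (_ | i)
  · exact n3 _ n2
  · change c3.MD (a' i : OnePoint C) _
    by_cases hi : i = i0
    · subst hi
      rw [e0, add_comm]
      exact m3 _ _ m2
    · rw [e1 i hi, ← e]
      exact m3 _ _ (k2 _ _ (fun h => hi (ha (add_neg_eq_zero.1 h))) (m1 _ _ (m (some i))))

theorem lifts_move [DecidableEq κ] (φ : k →+* C) (hφ : ∀ x, ‖φ x‖ ≤ 1) (t : C) (h0 : t ≠ 0)
    (ht : ‖t‖ < 1) (s : κ → k) (hs : Function.Injective (gen s)) (i0 : κ) :
    Lifts φ (vtx (gen s)) (vtx (gen (Function.update (fun i => φ (s i)) i0 (φ (s i0) + t)))) := by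
  refine move_Mv φ hφ t h0 ht (fin s) (fun o o' h => ?_) (some (some i0))
    (fin (Function.update (fun i => φ (s i)) i0 (φ (s i0) + t))) ?_ ?_
  · exact Option.some_injective _ (hs (by rw [gen_some, gen_some, h]))
  · change Function.update (fun i => φ (s i)) i0 (φ (s i0) + t) i0 = _
    exact Function.update_self _ _ _
  · rintro (_ | _ | i) h
    · exact (map_zero φ).symm
    · exact (map_one φ).symm
    · exact Function.update_of_ne (a := i) (a' := i0) (fun e => h (by rw [e])) (φ (s i0) + t)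
        fun i => φ (s i)

end Pool.Agent.AdmG
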