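import Pool.Agent.AdmG.St2
import Pool.Agent.AdmG.Mv
import Pool.Agent.AdmG.Ind2
import Pool.Agent.AdmG.Lf

/-! Moving points off the involution locus. -/

namespace Pool.Agent.AdmG

open Pool.Agent.Adm
open scoped OnePoint

theorem aux_Ch2 {p : ℕ} [Fact p.Prime] {k0 α : Type} [Field k0] [Fintype α]
    (N : Nd p (W (α ⊕ α))) (φ0 : k0 →+* N.k) (s : α ⊕ α → N.k) (hN : N.P = vtx (gen s))
    (hs : Function.Injective (gen s)) (hi : Ind φ0 fun o => s (.inl o))
    (h : ∀ o, s (.inr o) * s (.inl o) = 1) (T : Finset α) :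
    ∃ (N' : Nd p (W (α ⊕ α))) (φ : N.k →+* N'.k) (s' : α ⊕ α → N'.k),
      N'.P = vtx (gen s') ∧ Function.Injective (gen s') ∧
      (Ind (φ.comp φ0) fun i : {i : α ⊕ α | ∀ o, i = .inr o → o ∈ T} => s' i) ∧
      (∀ o ∉ T, s' (.inr o) * s' (.inl o) = 1) ∧ Path R0 N N' φ T.card := by
  classical
  induction T using Finset.induction_on with
  | empty =>
    refine ⟨N, RingHom.id _, s, hN, hs, ?_, fun o _ => h o, Path.refl⟩
    have e : ∀ i : {i : α ⊕ α | ∀ o, i = .inr o → o ∈ (∅ : Finset α)},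
        Sum.inl (i.1.elim id id) = i.1 := by
      rintro ⟨a | a, ha⟩
      · rfl
      · exact absurd (ha a rfl) (Finset.notMem_empty a)
    have := hi.comp (fun i : {i : α ⊕ α | ∀ o, i = .inr o → o ∈ (∅ : Finset α)} => i.1.elim id id)
      fun i j hij => Subtype.ext (by rw [← e i, ← e j]; exact congrArg _ hij)
    simp only [e] at this
    exact this
  | insert o T ho ih =>
    obtain ⟨N', φ, s', h1, h2, h3, h4, h5⟩ := ih
    obtain ⟨C, _, _, _, _, _, ψ, hψ, t, h0, ht, hr⟩ := exists_big p N'.k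
    have hu := gen_update_inj h2 ψ (.inr o) _ (hr (s' (.inr o)))
    have hst := step_move p ψ s' h2 _ hu (lifts_move ψ hψ t h0 ht s' h2 (.inr o)) (.inr o) (.inl o)
      (by simp) (h4 o ho) (by
        rw [Function.update_self, Function.update_of_ne (by simp), add_mul, ← map_mul, h4 o ho,
          map_one]
        simpa [h0] using right_ne_zero_of_mul_eq_one (h4 o ho))
    refine ⟨⟨C, vtx (gen _), tr_gen _ hu⟩, ψ.comp φ, _, rfl, hu, ?_, fun o' ho' => ?_, ?_⟩
    · have e : ∀ i : α ⊕ α, (∀ o', i = .inr o' → o' ∈ insert o T) →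
          i ∈ (insert (.inr o) {i : α ⊕ α | ∀ o, i = .inr o → o ∈ T} : Set (α ⊕ α)) := by
        intro i hi'
        by_cases e : i = .inr o
        · exact Or.inl e
        · refine Or.inr fun o' e' => (Finset.mem_insert.1 (hi' o' e')).resolve_left ?_
          rintro rfl
          exact e e'
      exact (Ind.update _ h3 ψ (.inr o) (fun h' => ho (h' o rfl)) _ (hr (s' (.inr o)))).comp
        (fun i : {i : α ⊕ α | ∀ o', i = .inr o' → o' ∈ insert o T} => ⟨i.1, e i.1 i.2⟩)
        fun i j hij => Subtype.ext (congrArg (·.1) hij)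
    · rw [Finset.mem_insert, not_or] at ho'
      rw [Function.update_of_ne (by simpa using ho'.1), Function.update_of_ne (by simp), ← map_mul,
        h4 o' ho'.2, map_one]
    · rw [Finset.card_insert_of_notMem ho]
      exact h5.step (N'' := ⟨C, vtx (gen _), tr_gen _ hu⟩) ψ (by rw [h1]; exact hst)

theorem exists_moves {p : ℕ} [Fact p.Prime] {k0 α : Type} [Field k0] [Fintype α]
    (N : Nd p (W (α ⊕ α))) (φ0 : k0 →+* N.k) (s : α ⊕ α → N.k) (hN : N.P = vtx (gen s))
    (hs : Function.Injective (gen s)) (hi : Ind φ0 fun o => s (.inl o))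
    (h : ∀ o, s (.inr o) * s (.inl o) = 1) :
    ∃ (N' : Nd p (W (α ⊕ α))) (φ : N.k →+* N'.k) (s' : α ⊕ α → N'.k),
      Ind (φ.comp φ0) s' ∧ N'.P = vtx (gen s') ∧ Path R0 N N' φ (Fintype.card α) := by
  obtain ⟨N', φ, s', h1, -, h3, -, h5⟩ := aux_Ch2 N φ0 s hN hs hi h Finset.univ
  exact ⟨N', φ, s', h3.comp (fun i => ⟨i, fun o _ => Finset.mem_univ o⟩)
    fun i j hij => congrArg (·.1) hij, h1, h5⟩

end Pool.Agent.AdmG
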