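import Pool.Agent.AdmG.AP
import Pool.Agent.Adm.S2

/-! Smoothing two nodes. -/

namespace Pool.Agent.AdmG

open Pool.Agent.Adm
open scoped OnePoint

theorem mem_gen_Sm3 {k κ : Type} [Field k] {s : κ → k} {y : k}
    (h : (y : OnePoint k) ∈ Set.range (gen s)) : y = 0 ∨ ∃ o : Option κ, y = o.elim 1 s := by
  obtain ⟨_ | _ | o, h⟩ := h
  · exact absurd h.symm (OnePoint.coe_ne_infty y)
  · exact .inl (OnePoint.coe_eq_coe.1 h).symm
  · exact .inr ⟨o, (OnePoint.coe_eq_coe.1 h).symm⟩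

variable {k C κ : Type} [Field k] [IsAlgClosed k] [NormedField C] [CompleteSpace C]
  [IsUltrametricDist C] [IsAlgClosed C]

theorem lifts_three (φ : k →+* C) (hφ : ∀ x, ‖φ x‖ ≤ 1) (t : C) (h0 : t ≠ 0) (ht : ‖t‖ < 1)
    (s s' : κ → k) (hs' : ∀ i, s' i ≠ 0) :
    Lifts φ (three (vtx (gen s)) (vtx (gen s')))
      (vtx (gen (Sum.elim (fun o : Option κ => t * φ (o.elim 1 s))
        fun o : Option κ => φ (o.elim 1 s') / t))) := by
  rintro G _ _ d H ⟨x, y, H1, H2, H3, ⟨cA, TA, mA, rfl⟩, ⟨cM, TM, mM, rfl⟩, ⟨cB, TB, mB, rfl⟩, rfl⟩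
  obtain ⟨c, h1, h2, h3, h4, h5, h6⟩ := smooth_two φ hφ t t h0 ht h0 ht cA cM cB
    ⟨_, _, _, mA none, mM (some none)⟩ ⟨_, _, _, mM none, mB (some none)⟩
  refine ⟨c, fun a => ?_, fun i => ?_, h1⟩
  · induction a using OnePoint.rec with
    | infty => exact ⟨_, _, _, h5 _ _ _ (mB none), fun hn => absurd ⟨none, rfl⟩ hn⟩
    | coe a =>
      by_cases a1 : ∃ z, a = t * φ z
      · obtain ⟨z, rfl⟩ := a1
        obtain ⟨e, ζ, g, m, n⟩ := TA z
        refine ⟨e, _, g, h2 _ _ _ _ m, fun hn => n fun hy => hn ?_⟩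
        rcases mem_gen_Sm3 hy with rfl | ⟨o, rfl⟩
        · exact ⟨some none, by rw [map_zero, mul_zero]; rfl⟩
        · exact ⟨some (some (some (.inl o))), rfl⟩
      by_cases a2 : ∃ z, a = φ z
      · obtain ⟨z, rfl⟩ := a2
        have z0 : z ≠ 0 := fun e => a1 ⟨0, by simp [e]⟩
        obtain ⟨e, ζ, g, m, n⟩ := TM z
        refine ⟨e, _, g, h3 _ _ _ _ z0 m, fun hn => n fun hy => hn ?_⟩
        rcases mem_gen_Sm3 hy with rfl | ⟨_ | o, rfl⟩
        · exact absurd rfl z0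
        · exact ⟨some (some none), congrArg OnePoint.some (map_one φ).symm⟩
        · exact o.elim
      by_cases a3 : ∃ z, a = φ z / t
      · obtain ⟨z, rfl⟩ := a3
        have z0 : z ≠ 0 := fun e => a1 ⟨0, by simp [e]⟩
        obtain ⟨e, ζ, g, m, n⟩ := TB z
        refine ⟨e, _, g, h4 _ _ _ _ z0 m, fun hn => n fun hy => hn ?_⟩
        rcases mem_gen_Sm3 hy with rfl | ⟨o, rfl⟩
        · exact absurd rfl z0
        · exact ⟨some (some (some (.inr o))), rfl⟩
      exact ⟨1, 1, 1, h6 a (not_exists.1 a1) (not_exists.1 a2) (not_exists.1 a3), fun _ => rfl⟩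
  · obtain _ | _ | _ | o | o := i
    · exact h5 _ _ _ (mB none)
    · have n0 := h2 0 _ _ _ (mA (some none))
      rw [map_zero, mul_zero] at n0
      exact n0
    · have n1 := h3 1 _ _ _ one_ne_zero (mM (some (some none)))
      rw [map_one] at n1
      exact n1
    · exact h2 _ _ _ _ (mA (some (some o)))
    · refine h4 _ _ _ _ ?_ (mB (some (some o)))
      obtain _ | o := o
      · exact one_ne_zero
      · exact hs' o

end Pool.Agent.AdmG
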