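import Pool.Agent.AdmG.Ch2
import Pool.Agent.AdmG.Sm3

/-! The doubling construction. -/

namespace Pool.Agent.AdmG

open Pool.Agent.Adm
open scoped OnePoint

theorem lifts_of_eq_Ch3 {k ι : Type} [Field k] {P P' : AP k ι} (h : P = P') :
    Lifts (RingHom.id k) P P' := h ▸ Lifts.refl P

theorem path_lift_Ch3 {p : ℕ} {ι : Type} {R : (ι → ℤ) → Prop} {N N' : Nd p ι}
    {ψ : N.k →+* N'.k} (h : Lifts ψ N.P N'.P) : Path R N N' ψ 0 := by
  have := (Path.refl (R := R) (N := N)).lift ψ h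
  rwa [RingHom.comp_id] at this

theorem exists_top {p : ℕ} [Fact p.Prime] {k0 κ : Type} [Field k0] [IsAlgClosed k0] [CharP k0 p]
    [Fintype κ] (N : Nd p (W (Option κ ⊕ Option κ))) (φ0 : k0 →+* N.k) (s s' : κ → N.k)
    (hN : N.P = three (vtx (gen s)) (vtx (gen s'))) (hs : Ind φ0 s) (hs' : Ind φ0 s') :
    ∃ (N' : Nd p (W (Option κ ⊕ Option κ))) (φ : N.k →+* N'.k) (u : Option κ ⊕ Option κ → N'.k),
      Ind (φ.comp φ0) u ∧ N'.P = vtx (gen u) ∧ Path R0 N N' φ (Fintype.card κ + 2) := by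
  obtain ⟨K, _, _, _, ψ1, ψ2, e0, e1⟩ :=
    exists_amalgam_ind p φ0 φ0 s (fun i => (s' i)⁻¹) hs hs'.inv
  have ia := hs.map ψ1
  have ha := ia.gen_inj
  have hb := (hs'.map ψ2).gen_inj
  have hb0 : ∀ i, ψ2 (s' i) ≠ 0 := fun i => (((gen_inj_iff _).1 hb).2 i).1
  obtain ⟨C, _, _, _, _, _, φ, hφ, t, h0, ht, hr⟩ := exists_big p K
  have hu := gen_three_inj φ hφ t h0 ht _ _ ha hb
  let N1 : Nd p (W (Option κ ⊕ Option κ)) :=
    { k := K, P := three (vtx (gen fun i => ψ1 (s i))) (vtx (gen fun i => ψ2 (s' i)))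
      tr := (tr_gen _ ha).three (tr_gen _ hb) }
  let N2 : Nd p (W (Option κ ⊕ Option κ)) := { k := C, P := _, tr := tr_gen _ hu }
  have l1 : Lifts ψ1 N.P N1.P := by
    rw [hN]
    exact Lifts.three (lifts_gen ψ1 s) (Lifts.twist φ0 e0 (nice_vtx _) (lifts_gen ψ2 s'))
  have l2 : Step R0 φ N1.P N2.P :=
    step_three p φ _ _ ha hb _ hu (lifts_three φ hφ t h0 ht _ _ hb0)
  have hi := (ia.option φ t (by simpa using hr 0)).scale
  obtain ⟨N', φ', u, a1, a2, a3⟩ := exists_moves N2 (φ.comp (ψ1.comp φ0)) _ rfl hu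
    (by
      convert hi using 2 with o
      cases o
      · exact congrArg (t * ·) (map_one φ)
      · rfl)
    (by
      rintro (_ | i)
      · change φ 1 / t * (t * φ 1) = 1
        rw [map_one]
        field_simp
      · change φ (ψ2 (s' i)) / t * (t * φ (ψ1 (s i))) = 1
        have := (map_ne_zero φ).2 (hb0 i)
        rw [e1, map_inv₀, map_inv₀]
        field_simp)
  have a4 := ((path_lift_Ch3 (R := R0) (N' := N1) l1).step (N'' := N2) φ l2).trans a3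
  rw [Fintype.card_option, show 0 + 1 + (Fintype.card κ + 1) = Fintype.card κ + 2 by omega] at a4
  refine ⟨N', _, u, ?_, a2, a4⟩
  rw [RingHom.comp_assoc, RingHom.comp_assoc]
  exact a1

theorem Ch.double {p r : ℕ} [Fact p.Prime] {κ : Type} [Fintype κ] (h : Ch p κ r) :
    Ch p (Option κ ⊕ Option κ) (2 * r + Fintype.card κ + 2) := by
  obtain ⟨S, h1, h2, h3⟩ := h
  refine ⟨fun k _ => three (S k) (S k), fun k _ => (h1 k).three (h1 k),
    fun k k' _ _ _ _ φ => (h2 k k' φ).three (h2 k k' φ), fun N hN => ?_⟩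
  let M0 : Nd p (W κ) := { k := N.k, P := S N.k, tr := h1 _ }
  obtain ⟨N1, φ1, s, a1, a2, a3⟩ := h3 M0 rfl
  let M1 : Nd p (W κ) := { k := N1.k, P := S N1.k, tr := h1 _ }
  obtain ⟨N2, φ2, s', b1, b2, b3⟩ := h3 M1 rfl
  obtain ⟨CL, cl⟩ := exists_ctx_threeL (k0 := N.k) (κ := κ)
    { Q := fun K _ _ => S K, tr := fun K _ _ => h1 K, lifts := fun K K' _ _ _ _ _ χ => h2 K K' χ }
  obtain ⟨CR, cr⟩ := exists_ctx_threeR (k0 := N1.k) (κ := κ)
    { Q := fun K _ ψ => vtx (gen fun i => ψ (s i))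
      tr := fun K _ ψ => tr_gen _ (a1.map ψ).gen_inj
      lifts := fun K K' _ _ _ _ ψ χ => lifts_gen χ fun i => ψ (s i) }
  have pa := a3.ctx CL (RingHom.id _)
  have pb := b3.ctx CR (RingHom.id _)
  obtain ⟨N', φ, u, c1, c2, c3⟩ := exists_top (k0 := N.k) (N2.ctx CR (φ2.comp (RingHom.id _)))
    (φ2.comp φ1) (fun i => φ2 (s i)) s' ((cr _ _ _).trans (by rw [b2]; rfl)) (a1.map φ2)
    (b1.down φ1)
  have l1 : Lifts (RingHom.id N.k) N.P (M0.ctx CL (RingHom.id _)).P :=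
    lifts_of_eq_Ch3 (hN.trans (cl _ _ _).symm)
  have l2 : Lifts (RingHom.id N1.k) (N1.ctx CL (φ1.comp (RingHom.id _))).P
      (M1.ctx CR (RingHom.id _)).P :=
    lifts_of_eq_Ch3 ((cl _ _ _).trans (Eq.trans (by rw [a2]; rfl) (cr _ _ _).symm))
  have q1 := (path_lift_Ch3 (N' := M0.ctx CL (RingHom.id _)) l1).trans pa
  have q2 := ((q1.trans (path_lift_Ch3 (N' := M1.ctx CR (RingHom.id _)) l2)).trans pb).trans c3
  rw [show 0 + r + 0 + r + (Fintype.card κ + 2) = 2 * r + Fintype.card κ + 2 by omega] at q2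
  exact ⟨N', _, u, c1, c2, q2⟩

end Pool.Agent.AdmG
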