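import Pool.Agent.AdmG.Ext2
import Pool.Agent.AdmG.Lf

/-! Basic contexts. -/

namespace Pool.Agent.AdmG

open Pool.Agent.Adm
open scoped OnePoint

variable {k0 ι ι' ι'' : Type} [Field k0]

theorem exists_ctx_glueL [Fintype ι'] (Q : Fam k0 (Option ι')) (R : (Option ι → ℤ) → Prop)
    (R' : (ι ⊕ ι' → ℤ) → Prop)
    (h : ∀ n, R n → ∃ n' : Option ι' → ℤ, n' none = -n none ∧ R0 n' ∧
      R' (Sum.elim (fun i => n (some i)) fun i => n' (some i))) :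
    ∃ C : Ctx k0 (Option ι) (ι ⊕ ι') R R', ∀ (K : Type) [Field K] (ψ : k0 →+* K) (P : AP K _),
      C.Φ K ψ P = glue P (Q.Q K ψ) := by
  refine ⟨⟨fun K _ ψ P => glue P (Q.Q K ψ), fun K _ ψ P hP => hP.glue (Q.tr K ψ),
    fun K K' _ _ _ _ ψ χ P P' hl => hl.glue (Q.lifts K K' ψ χ),
    fun K K' _ _ _ _ ψ χ P P' hP hP' hs => ?_⟩, fun _ _ _ _ => rfl⟩
  obtain ⟨hl, F, iF, fF, θ, n, hn, hd⟩ := hs
  obtain ⟨n', h1, h2, h3⟩ := h n hn
  have h4 := Dom.of_lifts (Q.lifts K K' ψ χ) ((Q.tr K' (χ.comp ψ)).dom θ n' h2)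
  rw [RingHom.id_comp] at h4
  exact ⟨hl.glue (Q.lifts K K' ψ χ), F, iF, fF, θ, _, h3,
    Dom.glue Or.inl hP.nice hP'.nice (Q.tr K' _).nice hd h4 h1⟩

theorem exists_ctx_glueR [Fintype ι'] (Q : Fam k0 (Option ι')) (R : (Option ι → ℤ) → Prop)
    (R' : (ι' ⊕ ι → ℤ) → Prop)
    (h : ∀ n, R n → ∃ n' : Option ι' → ℤ, n none = -n' none ∧ R0 n' ∧
      R' (Sum.elim (fun i => n' (some i)) fun i => n (some i))) :
    ∃ C : Ctx k0 (Option ι) (ι' ⊕ ι) R R', ∀ (K : Type) [Field K] (ψ : k0 →+* K) (P : AP K _),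
      C.Φ K ψ P = glue (Q.Q K ψ) P := by
  refine ⟨⟨fun K _ ψ P => glue (Q.Q K ψ) P, fun K _ ψ P hP => (Q.tr K ψ).glue hP,
    fun K K' _ _ _ _ ψ χ P P' hl => (Q.lifts K K' ψ χ).glue hl,
    fun K K' _ _ _ _ ψ χ P P' _ hP' hs => ?_⟩, fun _ _ _ _ => rfl⟩
  obtain ⟨hl, F, iF, fF, θ, n, hn, hd⟩ := hs
  obtain ⟨n', h1, h2, h3⟩ := h n hn
  have h4 := Dom.of_lifts (Q.lifts K K' ψ χ) ((Q.tr K' (χ.comp ψ)).dom θ n' h2)
  rw [RingHom.id_comp] at h4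
  exact ⟨(Q.lifts K K' ψ χ).glue hl, F, iF, fF, θ, _, h3,
    Dom.glue Or.inr (Q.tr K ψ).nice (Q.tr K' _).nice hP'.nice h4 hd h1⟩

theorem exists_ctx_reidx (k0 : Type) [Field k0] (e : ι ≃ ι') (R : (ι → ℤ) → Prop)
    (R' : (ι' → ℤ) → Prop) (h : ∀ n, R n → R' fun i => n (e.symm i)) :
    ∃ C : Ctx k0 ι ι' R R', ∀ (K : Type) [Field K] (ψ : k0 →+* K) (P : AP K _),
      C.Φ K ψ P = reidx e P := by
  refine ⟨⟨fun K _ _ P => reidx e P, fun K _ _ P hP => hP.reidx e,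
    fun K K' _ _ _ _ _ χ P P' hl => hl.reidx e,
    fun K K' _ _ _ _ _ χ P P' _ _ hs => ?_⟩, fun _ _ _ _ => rfl⟩
  obtain ⟨hl, F, iF, fF, θ, n, hn, hd⟩ := hs
  exact ⟨hl.reidx e, F, iF, fF, θ, _, h n hn, hd.reidx e⟩

theorem exists_ctx_comp {R : (ι → ℤ) → Prop} {R' : (ι' → ℤ) → Prop} {R'' : (ι'' → ℤ) → Prop}
    (C : Ctx k0 ι ι' R R') (C' : Ctx k0 ι' ι'' R' R'') :
    ∃ C'' : Ctx k0 ι ι'' R R'', ∀ (K : Type) [Field K] (ψ : k0 →+* K) (P : AP K _),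
      C''.Φ K ψ P = C'.Φ K ψ (C.Φ K ψ P) := by
  exact ⟨⟨fun K _ ψ P => C'.Φ K ψ (C.Φ K ψ P), fun K _ ψ P hP => C'.tr K ψ _ (C.tr K ψ P hP),
    fun K K' _ _ _ _ ψ χ P P' hl => C'.lifts K K' ψ χ _ _ (C.lifts K K' ψ χ P P' hl),
    fun K K' _ _ _ _ ψ χ P P' hP hP' hs => C'.step K K' ψ χ _ _ (C.tr K ψ P hP)
      (C.tr K' _ P' hP') (C.step K K' ψ χ P P' hP hP' hs)⟩, fun _ _ _ _ => rfl⟩

theorem R0.reidx [Fintype ι] [Fintype ι'] (e : ι ≃ ι') (n : ι → ℤ) (h : R0 n) :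
    R0 fun i => n (e.symm i) := by
  unfold R0 at h ⊢
  rw [← h]
  exact Equiv.sum_comp e.symm n

theorem exists_ctx_glueL0 [Fintype ι] [Fintype ι'] [Nonempty ι'] (Q : Fam k0 (Option ι')) :
    ∃ C : Ctx k0 (Option ι) (ι ⊕ ι') R0 R0, ∀ (K : Type) [Field K] (ψ : k0 →+* K) (P : AP K _),
      C.Φ K ψ P = glue P (Q.Q K ψ) := by
  classical
  obtain ⟨j⟩ := (inferInstance : Nonempty ι')
  refine exists_ctx_glueL Q R0 R0 fun n hn =>
    ⟨fun o => o.elim (-n none) fun i => if i = j then n none else 0, rfl, ?_, ?_⟩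
  · simp [R0, Fintype.sum_option]
  · simp only [R0, Fintype.sum_option] at hn
    simp only [R0, Fintype.sum_sum_type, Sum.elim_inl, Sum.elim_inr, Option.elim,
      Finset.sum_ite_eq', Finset.mem_univ, if_true]
    linarith

theorem exists_ctx_glueR0 [Fintype ι] [Fintype ι'] [Nonempty ι'] (Q : Fam k0 (Option ι')) :
    ∃ C : Ctx k0 (Option ι) (ι' ⊕ ι) R0 R0, ∀ (K : Type) [Field K] (ψ : k0 →+* K) (P : AP K _),
      C.Φ K ψ P = glue (Q.Q K ψ) P := by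
  classical
  obtain ⟨j⟩ := (inferInstance : Nonempty ι')
  refine exists_ctx_glueR Q R0 R0 fun n hn =>
    ⟨fun o => o.elim (-n none) fun i => if i = j then n none else 0, (neg_neg _).symm, ?_, ?_⟩
  · simp [R0, Fintype.sum_option]
  · simp only [R0, Fintype.sum_option] at hn
    simp only [R0, Fintype.sum_sum_type, Sum.elim_inl, Sum.elim_inr, Option.elim,
      Finset.sum_ite_eq', Finset.mem_univ, if_true]
    linarith

variable {p : ℕ} {R : (ι → ℤ) → Prop} {R' : (ι' → ℤ) → Prop}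

theorem Path.trans {N N' N'' : Nd p ι} {φ : N.k →+* N'.k} {ψ : N'.k →+* N''.k} {r r' : ℕ}
    (h : Path R N N' φ r) (h' : Path R N' N'' ψ r') : Path R N N'' (ψ.comp φ) (r + r') := by
  induction h' with
  | refl => exact h
  | lift _ χ hl ih => exact ih.lift χ hl
  | step _ χ hs ih => exact ih.step χ hs

theorem Path.ctx {N N' : Nd p ι} {φ : N.k →+* N'.k} {r : ℕ} (h : Path R N N' φ r)
    (C : Ctx k0 ι ι' R R') (ψ : k0 →+* N.k) :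
    Path R' (N.ctx C ψ) (N'.ctx C (φ.comp ψ)) φ r := by
  induction h with
  | refl => exact Path.refl
  | @lift N1 N2 φ r _ χ hl ih =>
    exact Path.lift (N'' := N2.ctx C ((χ.comp φ).comp ψ)) ih χ
      (C.lifts N1.k N2.k (φ.comp ψ) χ _ _ hl)
  | @step N1 N2 φ r _ χ hs ih =>
    exact Path.step (N'' := N2.ctx C ((χ.comp φ).comp ψ)) ih χ
      (C.step N1.k N2.k (φ.comp ψ) χ _ _ N1.tr N2.tr hs)

end Pool.Agent.AdmG
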