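import Pool.Agent.AdmG.Ctx1

/-! The contexts of the two recursive constructions. -/

namespace Pool.Agent.AdmG

open Pool.Agent.Adm
open scoped OnePoint

variable {k k0 κ : Type} [Field k] [Field k0]

/-- Indices for `two`. -/
def eTwo (κ : Type) : Option (Option κ) ⊕ Option (Option Empty) ≃ W (Option κ) where
  toFun := Sum.elim (fun o => o.elim (some none) fun o => some (some (some o)))
    fun o => o.elim none fun _ => some (some none)
  invFun o := o.elim (.inr none) fun o => o.elim (.inl none) fun o =>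
    o.elim (.inr (some none)) fun o => .inl (some o)
  left_inv := by rintro ((_ | o) | (_ | _ | o)) <;> first | rfl | exact o.elim
  right_inv := by rintro (_ | _ | _ | o) <;> rfl

theorem two_eq (A : AP k (W κ)) :
    two A = reidx (eTwo κ) (glue A (reidx (sw (Option Empty)) (tri k))) := by
  funext G _ d H
  refine propext (exists_congr fun x => exists_congr fun H1 => exists_congr fun H2 =>
    and_congr (iff_of_eq (congrArg (fun f => A G f H1) (funext ?_)))
      (and_congr_left' (iff_of_eq (congrArg (fun f => tri k G f H2) (funext ?_)))))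
  · rintro (_ | _ | o) <;> rfl
  · rintro (_ | _ | _ | o) <;> rfl

/-- Indices for the line with three points glued to B. -/
def eMid (κ : Type) : Option (Option Empty) ⊕ Option (Option κ) ≃ W (Option κ) where
  toFun := Sum.elim (fun o => o.elim none fun _ => some none) fun o => some (some o)
  invFun o := o.elim (.inl none) fun o => o.elim (.inl (some none)) fun o => .inr o
  left_inv := by rintro ((_ | _ | o) | o) <;> first | rfl | exact o.elim
  right_inv := by rintro (_ | _ | o) <;> rfl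

/-- Indices for `three`. -/
def eThree (κ : Type) :
    Option (Option κ) ⊕ Option (Option (Option κ)) ≃ W (Option κ ⊕ Option κ) where
  toFun := Sum.elim (fun o => o.elim (some none) fun o => some (some (some (.inl o))))
    fun o => o.elim (some (some none)) fun o => o.elim none fun o => some (some (some (.inr o)))
  invFun o := o.elim (.inr (some none)) fun o => o.elim (.inl none) fun o =>
    o.elim (.inr none) (Sum.elim (fun o => .inl (some o)) fun o => .inr (some (some o)))
  left_inv := by rintro ((_ | o) | (_ | _ | o)) <;> rfl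
  right_inv := by rintro (_ | _ | _ | o | o) <;> rfl

theorem three_eq (A B : AP k (W κ)) :
    three A B = reidx (eThree κ) (glue A (reidx (eMid κ)
      (glue (tri k) (reidx (sw (Option κ)) B)))) := by
  funext G _ d H
  have e1 : ∀ x : Dat k G, (fun o : W κ => o.elim x fun o => o.elim (d (some none))
      fun o => d (some (some (some (.inl o))))) =
      fun o => o.elim x fun i => d (eThree κ (.inl i)) := fun x => by
    funext o
    rcases o with _ | _ | o <;> rfl
  have e2 : ∀ x y : Dat k G, (fun o : W Empty => o.elim y fun o => o.elim (dinv x)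
      fun _ => d (some (some none))) = fun o => o.elim y fun i =>
        (eMid κ (.inl i)).elim (dinv x) fun i => d (eThree κ (.inr i)) := fun x y => by
    funext o
    rcases o with _ | _ | _ | o <;> rfl
  have e3 : ∀ x y : Dat k G, (fun o : W κ => o.elim (d none) fun o => o.elim (dinv y)
      fun o => d (some (some (some (.inr o))))) = fun o => (sw (Option κ) o).elim (dinv y) fun i =>
        (eMid κ (.inr i)).elim (dinv x) fun i => d (eThree κ (.inr i)) := fun x y => by
    funext o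
    rcases o with _ | _ | o <;> rfl
  refine propext ⟨?_, ?_⟩
  · rintro ⟨x, y, H1, H2, H3, h1, h2, h3, rfl⟩
    rw [e1] at h1
    rw [e2] at h2
    rw [e3 x] at h3
    exact ⟨x, H1, H2 ⊔ H3, h1, ⟨y, H2, H3, h2, h3, rfl⟩, sup_assoc _ _ _⟩
  · rintro ⟨x, H1, _, h1, ⟨y, H2, H3, h2, h3, rfl⟩, rfl⟩
    refine ⟨x, y, H1, H2, H3, ?_, ?_, ?_, (sup_assoc _ _ _).symm⟩
    · rw [e1]; exact h1
    · rw [e2]; exact h2
    · rw [e3 x]; exact h3

theorem Tr.two {A : AP k (W κ)} (h : Tr k _ A) : Tr k _ (two A) := by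
  rw [two_eq]
  exact .reidx _ (.glue h (.reidx _ (tr_tri k)))

theorem Tr.three {A B : AP k (W κ)} (h : Tr k _ A) (h' : Tr k _ B) : Tr k _ (three A B) := by
  rw [three_eq]
  exact .reidx _ (.glue h (.reidx _ (.glue (tr_tri k) (.reidx _ h'))))

theorem exists_ctx_two (k0 κ : Type) [Field k0] [Fintype κ] :
    ∃ C : Ctx k0 (W κ) (W (Option κ)) R0 R0, ∀ (K : Type) [Field K] (ψ : k0 →+* K) (P : AP K _),
      C.Φ K ψ P = two P := by
  obtain ⟨C1, h1⟩ := exists_ctx_glueL0 (k0 := k0) (ι := Option (Option κ))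
    ⟨fun K _ _ => reidx (sw (Option Empty)) (tri K), fun K _ _ => .reidx _ (tr_tri K),
      fun _ _ _ _ _ _ _ χ => (lifts_tri χ).reidx _⟩
  obtain ⟨C2, h2⟩ := exists_ctx_reidx k0 (eTwo κ) R0 R0 (R0.reidx _)
  obtain ⟨C, h⟩ := exists_ctx_comp C1 C2
  exact ⟨C, fun K _ ψ P => by rw [h, h2, h1, two_eq]⟩

theorem exists_ctx_threeL [Fintype κ] (Q : Fam k0 (W κ)) :
    ∃ C : Ctx k0 (W κ) (W (Option κ ⊕ Option κ)) R0 R0,
      ∀ (K : Type) [Field K] (ψ : k0 →+* K) (P : AP K _), C.Φ K ψ P = three P (Q.Q K ψ) := by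
  obtain ⟨C1, h1⟩ := exists_ctx_glueL0 (k0 := k0) (ι := Option (Option κ))
    ⟨fun K _ ψ => reidx (eMid κ) (glue (tri K) (reidx (sw (Option κ)) (Q.Q K ψ))),
      fun K _ ψ => .reidx _ (.glue (tr_tri K) (.reidx _ (Q.tr K ψ))),
      fun K K' _ _ _ _ ψ χ => ((lifts_tri χ).glue ((Q.lifts K K' ψ χ).reidx _)).reidx _⟩
  obtain ⟨C2, h2⟩ := exists_ctx_reidx k0 (eThree κ) R0 R0 (R0.reidx _)
  obtain ⟨C, h⟩ := exists_ctx_comp C1 C2
  exact ⟨C, fun K _ ψ P => by rw [h, h2, h1, three_eq]⟩

theorem exists_ctx_threeR [Fintype κ] (Q : Fam k0 (W κ)) :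
    ∃ C : Ctx k0 (W κ) (W (Option κ ⊕ Option κ)) R0 R0,
      ∀ (K : Type) [Field K] (ψ : k0 →+* K) (P : AP K _), C.Φ K ψ P = three (Q.Q K ψ) P := by
  obtain ⟨C1, h1⟩ := exists_ctx_reidx k0 (sw (Option κ)) R0 R0 (R0.reidx _)
  obtain ⟨C2, h2⟩ := exists_ctx_glueR0 (k0 := k0) (ι := Option (Option κ))
    ⟨fun K _ _ => tri K, fun K _ _ => tr_tri K, fun _ _ _ _ _ _ _ χ => lifts_tri χ⟩
  obtain ⟨C3, h3⟩ := exists_ctx_reidx k0 (eMid κ) R0 R0 (R0.reidx _)
  obtain ⟨C4, h4⟩ := exists_ctx_glueR0 (ι := Option (Option (Option κ))) Q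
  obtain ⟨C5, h5⟩ := exists_ctx_reidx k0 (eThree κ) R0 R0 (R0.reidx _)
  obtain ⟨D2, g2⟩ := exists_ctx_comp C1 C2
  obtain ⟨D3, g3⟩ := exists_ctx_comp D2 C3
  obtain ⟨D4, g4⟩ := exists_ctx_comp D3 C4
  obtain ⟨C, h⟩ := exists_ctx_comp D4 C5
  exact ⟨C, fun K _ ψ P => by rw [h, h5, g4, h4, g3, h3, g2, h2, h1, three_eq]⟩

end Pool.Agent.AdmG
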