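import Mathlib

/-!
Pointed stable curves of type (g, n) in characteristic p, their Galois admissible coverings, and
the space of their admissible fundamental groups with the anabelian topology.
-/

namespace Pool.Agent.AdmG

open scoped WithZero IntermediateField

/-- A point of the smooth projective curve with function field K over the algebraically closed
field k: a normalised discrete valuation of K that is trivial on k. -/
def Place (k K : Type) [Field k] [Field K] [Algebra k K] : Type :=
  {v : Valuation K ℤᵐ⁰ // Function.Surjective v ∧ ∀ c : k, c ≠ 0 → v (algebraMap k K c) = 1}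

/-- The Riemann-Roch space L(D) of functions f with div f + D effective. -/
def RR {k K : Type} [Field k] [Field K] [Algebra k K] (D : Place k K →₀ ℤ) : Submodule k K where
  carrier := {f | ∀ P : Place k K, P.1 f ≤ WithZero.exp (D P)}
  zero_mem' P := by simp
  add_mem' hf hg P := P.1.map_add_le (hf P) (hg P)
  smul_mem' c f hf P := by
    rcases eq_or_ne c 0 with rfl | hc
    · simp
    · rw [Algebra.smul_def, map_mul, P.2.2 c hc, one_mul]
      exact hf P

/-- The genus: the largest value of deg D + 1 - dim L(D) over all divisors D. -/
def HasGenus (k K : Type) [Field k] [Field K] [Algebra k K] (g : ℕ) : Prop :=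
  IsGreatest {x : ℤ | ∃ D : Place k K →₀ ℤ,
    x = (D.sum fun _ a => a) + 1 - Module.finrank k (RR D)} g

/-- A finite Galois extension L of the function field K of a component, with a homomorphism from
its Galois group to G.  It describes the restriction of a Galois G-covering to the component; the
image of the homomorphism is the decomposition group. -/
structure Cov (K G : Type) [Field K] [Group G] : Type 1 where
  L : Type
  [field : Field L]
  [alg : Algebra K L]
  [fin : FiniteDimensional K L]
  [gal : IsGalois K L]
  ι : (L ≃ₐ[K] L) →* G

attribute [instance] Cov.field Cov.alg Cov.fin Cov.gal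

/-- Tame local monodromy at the point P: L embeds over k into k((z)) so that the order of f in K
is e times its order at P (a place above P, tamely ramified since k has the primitive e-th root of
unity ζ), and the automorphism σ of L induced by z ↦ ζ z (a generator of the inertia group of that
place) is sent to g. -/
def Cov.Mono {k K G : Type} [Field k] [Field K] [Algebra k K] [Group G] (c : Cov K G)
    (P : Place k K) (e : ℕ) (ζ : k) (g : G) : Prop :=
  0 < e ∧ IsPrimitiveRoot ζ e ∧ ∃ j : c.L →+* LaurentSeries k,
    (∀ x : k, j (algebraMap K c.L (algebraMap k K x)) = HahnSeries.C x) ∧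
    (∀ (f : K) (m : ℤ), P.1 f = WithZero.exp (-m) → (j (algebraMap K c.L f)).order = e * m) ∧
    ∃ σ : c.L ≃ₐ[K] c.L, c.ι σ = g ∧
      ∀ (x : c.L) (n : ℤ), (j (σ x)).coeff n = ζ ^ n * (j x).coeff n

/-- An n-pointed stable curve of genus g over an algebraically closed field k of characteristic p.
The normalisations of the components are given by function fields K v of genus gen v.  Each node
ε : E has two branches, the points pt (inl (inl ε)) and pt (inl (inr ε)); the i-th marked point is
pt (inr i).  These points are distinct, the dual graph is connected, the arithmetic genus is g and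
every component is stable. -/
structure StableCurve (p g n : ℕ) : Type 1 where
  k : Type
  [field : Field k]
  [closed : IsAlgClosed k]
  [char : CharP k p]
  V : Type
  [finV : Fintype V]
  ne : Nonempty V
  E : Type
  [finE : Fintype E]
  K : V → Type
  [fieldK : ∀ v, Field (K v)]
  [algK : ∀ v, Algebra k (K v)]
  ff : ∀ v, ∃ x : K v, Transcendental k x ∧ FiniteDimensional k⟮x⟯ (K v)
  gen : V → ℕ
  genus : ∀ v, HasGenus k (K v) (gen v)
  pt : (E ⊕ E) ⊕ Fin n → Σ v, Place k (K v)
  inj : Function.Injective pt
  conn : ∀ v w, Relation.EqvGen
    (fun a b => ∃ ε, (pt (.inl (.inl ε))).1 = a ∧ (pt (.inl (.inr ε))).1 = b) v w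
  total : ∑ v, gen v + Fintype.card E + 1 = g + Fintype.card V
  stable : ∀ v, 2 < 2 * gen v + Nat.card {h // (pt h).1 = v}

attribute [instance] StableCurve.field StableCurve.closed StableCurve.char StableCurve.finV
  StableCurve.finE StableCurve.fieldK StableCurve.algK

/-- X has a connected Galois admissible covering with group G.  Over the component v it is induced
from c v, tame everywhere and unramified outside the special points.  Over the node ε a place of
the first branch, with inertia generator g for z ↦ ζ z, is glued to the translate by t ε of a place
of the second branch, on which g acts by z ↦ ζ⁻¹ z.  The components of the covering are the cosets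
of the decomposition groups; the last clause says that the covering is connected. -/
def StableCurve.HasCover {p g n : ℕ} (X : StableCurve p g n) (G : Type) [Group G] : Prop :=
  ∃ (c : ∀ v, Cov (X.K v) G) (t : X.E → G),
    (∀ v P, ∃ e ζ x, (c v).Mono P e ζ x ∧ ((⟨v, P⟩ : Σ v, Place X.k (X.K v)) ∉ Set.range X.pt →
      x = 1)) ∧
    (∀ ε, ∃ e ζ x, (c _).Mono (X.pt (.inl (.inl ε))).2 e ζ x ∧
      (c _).Mono (X.pt (.inl (.inr ε))).2 e ζ⁻¹ ((t ε)⁻¹ * x * t ε)) ∧
    ∀ a b : X.V × G, Relation.EqvGen
      (fun a b => (a.1 = b.1 ∧ a.2⁻¹ * b.2 ∈ (c a.1).ι.range) ∨
        ∃ ε, a.1 = (X.pt (.inl (.inl ε))).1 ∧ b = ((X.pt (.inl (.inr ε))).1, a.2 * t ε)) a b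

/-- The set of admissible fundamental groups of type (g, n): curves are identified when their
admissible fundamental groups have the same finite quotients. -/
def PiBar (p g n : ℕ) : Type 1 :=
  Quot fun X Y : StableCurve p g n =>
    ∀ (G : Type) [Group G] [Finite G], X.HasCover G ↔ Y.HasCover G

/-- The set U_G of fundamental groups having the finite group G as a quotient. -/
def U (p g n : ℕ) (G : Type) [Group G] : Set (PiBar p g n) :=
  {x | ∃ X : StableCurve p g n, Quot.mk _ X = x ∧ X.HasCover G}

/-- The anabelian topology, generated by the sets U_G for finite groups G. -/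
instance topPiBar (p g n : ℕ) : TopologicalSpace (PiBar p g n) :=
  TopologicalSpace.generateFrom
    {s | ∃ (G : Type) (_ : Group G) (_ : Finite G), s = U p g n G}

end Pool.Agent.AdmG
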