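import Pool.Agent.AdmG.Nice
import Pool.Agent.Adm.VF

/-! Adjoining an affine covering on one line. -/

namespace Pool.Agent.AdmG

open Pool.Agent.Adm
open scoped OnePoint
open Polynomial

variable {k F ι : Type} [Field k] [IsAlgClosed k] [Field F] [Fintype F]

theorem dom_vtx_core (θ : F →+* k) (a : ι → OnePoint k) (n : ι → ℤ) (f : k[X])
    (c2 : Cover k (Aff F)) (h : AffLab θ c2 f)
    (h1 : ∀ i, labAt f (a i) ≡ n i [ZMOD (Fintype.card F - 1 : ℕ)])
    (h2 : ∀ x, x ∉ Set.range a → labAt f x ≡ 0 [ZMOD (Fintype.card F - 1 : ℕ)])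
    (G : Type) [Group G] (d : ι → Dat k G) (H : Subgroup G) (hd : vtx a G d H) (ξ : ι → k)
    (hξ : Roots (RingHom.id k) (Fintype.card F - 1) d ξ) :
    ∃ (y : ι → Aff F) (H' : Subgroup (G × Aff F)),
      vtx a (G × Aff F) (ovr (Fintype.card F - 1) d ξ y) H' ∧
      H'.map (MonoidHom.fst G (Aff F)) = H ∧ (∀ i, θ (y i).u = (ξ i ^ (d i).1) ^ n i) ∧
      (¬ Aff.HasFix c2.ι.range → ¬ Aff.HasFix (H'.map (MonoidHom.snd G (Aff F)))) := by
  obtain ⟨c1, hT, hM, rfl⟩ := hd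
  obtain ⟨c, hg, hnf⟩ := exists_good θ c1 c2 f h
  have key : ∀ i, ∃ g2 : Aff F,
      c.Mono (a i) ((d i).1 * (Fintype.card F - 1)) (ξ i) ((d i).2.2, g2) ∧
        θ g2.u = (ξ i ^ (d i).1) ^ labAt f (a i) := fun i =>
    hg.2 (a i) (d i).1 (ξ i) (d i).2.2 (hξ i).1 (by rw [(hξ i).2]; exact hM i)
  choose y hy1 hy2 using key
  refine ⟨y, c.ι.range, ⟨c, hg.tame hT h2, hy1, rfl⟩, hg.1, fun i => ?_, hnf⟩
  have h0 : ξ i ≠ 0 := (hξ i).1.ne_zero (hy1 i).1.ne'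
  have h3 : labAt f (a i) - n i ≡ 0 [ZMOD (Fintype.card F - 1 : ℕ)] := by
    have := (h1 i).sub_right (n i)
    rwa [sub_self] at this
  have h4 := zpow_eq_one_VP (hξ i).1 h3
  rw [zpow_sub₀ (pow_ne_zero _ h0), div_eq_one_iff_eq (zpow_ne_zero _ (pow_ne_zero _ h0))] at h4
  rw [hy2, h4]

omit [IsAlgClosed k] in
theorem exists_poly_Ext1 [Fintype ι] (a : ι → OnePoint k) (ha : Function.Injective a)
    (n : ι → ℤ) (hn : R0 n) (m : ℕ) (hm : 0 < m) : ∃ f : k[X], f ≠ 0 ∧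
      (∀ i, labAt f (a i) ≡ n i [ZMOD m]) ∧
      ∀ x, x ∉ Set.range a → labAt f x ≡ 0 [ZMOD m] := by
  classical
  have hb : ∀ i : {i // a i ≠ ∞}, ∃ b : k, (b : OnePoint k) = a i := fun i =>
    OnePoint.ne_infty_iff_exists.1 i.2
  choose b hb using hb
  have hbi : Function.Injective b := fun i j e =>
    Subtype.ext (ha (by rw [← hb, ← hb, e]))
  have hm' : (m : ℤ) ≠ 0 := by exact_mod_cast hm.ne'
  have hmod : ∀ x : ℤ, (((x % m).toNat : ℕ) : ℤ) ≡ x [ZMOD m] := fun x => by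
    rw [Int.toNat_of_nonneg (Int.emod_nonneg x hm')]
    exact Int.mod_modEq x m
  obtain ⟨r1, r2, r3, r4⟩ := rootMultiplicity_prod_X_sub_C b hbi fun i => (n i % m).toNat
  generalize (∏ j, (X - C (b j)) ^ (n j % m).toNat : k[X]) = f at r1 r2 r3 r4
  have hinf : labAt f ∞ ≡ ∑ i with a i = ∞, n i [ZMOD m] := by
    have e1 : ((f.natDegree : ℕ) : ℤ) ≡ ∑ i : {i // a i ≠ ∞}, n i [ZMOD m] := by
      rw [r3, Nat.cast_sum]
      exact Int.ModEq.sum fun i _ => hmod _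
    have e2 : ∑ i : {i // a i ≠ ∞}, n i = ∑ i with ¬ a i = ∞, n i :=
      (Finset.sum_subtype _ (by simp) n).symm
    have e3 := Finset.sum_filter_add_sum_filter_not Finset.univ (fun i => a i = ∞) n
    rw [show ∑ i, n i = 0 from hn] at e3
    have e4 := e1.neg
    rw [e2, neg_eq_of_add_eq_zero_left e3] at e4
    exact e4
  refine ⟨f, r4.ne_zero, fun i => ?_, fun x hx => ?_⟩
  · by_cases hi : a i = ∞
    · have : (Finset.univ.filter fun j => a j = ∞) = {i} := by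
        ext j
        simp only [Finset.mem_filter, Finset.mem_univ, true_and, Finset.mem_singleton]
        exact ⟨fun hj => ha (hj.trans hi.symm), fun hj => hj ▸ hi⟩
      rw [this, Finset.sum_singleton] at hinf
      rwa [hi]
    · rw [← hb ⟨i, hi⟩]
      change ((f.rootMultiplicity (b ⟨i, hi⟩) : ℕ) : ℤ) ≡ _ [ZMOD m]
      rw [r1]
      exact hmod _
  · induction x using OnePoint.rec with
    | infty =>
      rw [Finset.sum_eq_zero fun j hj => absurd ⟨j, (Finset.mem_filter.1 hj).2⟩ hx] at hinf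
      exact hinf
    | coe y =>
      change ((f.rootMultiplicity y : ℕ) : ℤ) ≡ _ [ZMOD m]
      rw [r2 y (by rintro ⟨i, rfl⟩; exact hx ⟨i, (hb i).symm⟩)]
      rfl

theorem dom_vtx [Fintype ι] (θ : F →+* k) (a : ι → OnePoint k) (ha : Function.Injective a)
    (n : ι → ℤ) (hn : R0 n) : Dom False (RingHom.id k) θ (vtx a) (vtx a) n := by
  intro G _ _ d H hd ξ hξ
  obtain ⟨f, hf, h1, h2⟩ := exists_poly_Ext1 a ha n hn _ (card_sub_one_pos_VP F)
  obtain ⟨c2, h⟩ := exists_affLab θ f hf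
  obtain ⟨y, H', k1, k2, k3, -⟩ := dom_vtx_core θ a n f c2 h h1 h2 G d H hd ξ hξ
  exact ⟨y, H', k1, k2, k3, False.elim⟩

end Pool.Agent.AdmG
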