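import Pool.Agent.AdmG.Ext1

/-! Adjoining an affine covering on a tree. -/

namespace Pool.Agent.AdmG

open Pool.Agent.Adm
open scoped OnePoint

variable {k k' k'' F ι ι' : Type} [Field k] [Field k'] [Field k''] [Field F] [Fintype F]

theorem Dom.of_lifts {b : Prop} {φ : k →+* k'} {ψ : k' →+* k''} {θ : F →+* k''} {P : AP k ι}
    {P' : AP k' ι} {P'' : AP k'' ι} {n : ι → ℤ} (h : Lifts φ P P') (h' : Dom b ψ θ P' P'' n) :
    Dom b (ψ.comp φ) θ P P'' n := by
  intro G _ _ d H hd ξ hξ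
  exact h' G (fun i => (d i).map φ) H (h G d H hd) ξ hξ

theorem Dom.reidx {b : Prop} {φ : k →+* k'} {θ : F →+* k'} {P : AP k ι} {P' : AP k' ι}
    {n : ι → ℤ} (e : ι ≃ ι') (h : Dom b φ θ P P' n) :
    Dom b φ θ (reidx e P) (reidx e P') fun i => n (e.symm i) := by
  intro G _ _ d H hd ξ hξ
  obtain ⟨y, H', h1, h2, h3, h4⟩ :=
    h G (fun i => d (e i)) H hd (fun i => ξ (e i)) fun i => hξ (e i)
  refine ⟨fun j => y (e.symm j), H', ?_, h2, fun j => ?_, h4⟩
  · have e1 : (fun i => ovr (Fintype.card F - 1) d ξ (fun j => y (e.symm j)) (e i)) =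
        ovr (Fintype.card F - 1) (fun i => d (e i)) (fun i => ξ (e i)) y := by
      funext i
      simp only [ovr, Equiv.symm_apply_apply]
    change P' _ (fun i => ovr (Fintype.card F - 1) d ξ (fun j => y (e.symm j)) (e i)) H'
    rw [e1]
    exact h1
  · have := h3 (e.symm j)
    simpa only [Equiv.apply_symm_apply] using this

theorem Dom.glue [IsAlgClosed k'] {b1 b2 b : Prop} (hb : b → b1 ∨ b2) {φ : k →+* k'}
    {θ : F →+* k'} {P : AP k (Option ι)} {Q : AP k (Option ι')} {P' : AP k' (Option ι)}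
    {Q' : AP k' (Option ι')} {n : Option ι → ℤ} {n' : Option ι' → ℤ} (hP : Nice P)
    (hP' : Nice P') (hQ' : Nice Q') (h : Dom b1 φ θ P P' n) (h' : Dom b2 φ θ Q Q' n')
    (hn : n' none = -n none) :
    Dom b φ θ (glue P Q) (glue P' Q') (Sum.elim (fun i => n (some i)) fun i => n' (some i)) := by
  rintro G _ _ d H ⟨⟨e, ζ, g⟩, H1, H2, p1, p2, rfl⟩ ξ hξ
  obtain ⟨he, hζ, -, -⟩ := hP.valid G _ H1 p1 none
  change 0 < e at he
  change IsPrimitiveRoot ζ e at hζ
  obtain ⟨ξ0, k1, k2⟩ := exists_root_lift (card_sub_one_cast_ne_zero θ) he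
    (hζ.map_of_injective φ.injective)
  obtain ⟨y, H1', a1, a2, a3, a4⟩ := h G _ H1 p1 (fun o => o.elim ξ0 fun i => ξ (.inl i)) (by
    rintro (_ | i)
    · exact ⟨k1, k2⟩
    · exact hξ (.inl i))
  obtain ⟨y', H2', c1, c2, c3, c4⟩ := h' G _ H2 p2 (fun o => o.elim ξ0⁻¹ fun i => ξ (.inr i)) (by
    rintro (_ | i)
    · refine ⟨k1.inv, ?_⟩
      change ξ0⁻¹ ^ (Fintype.card F - 1) = φ ζ⁻¹
      rw [inv_pow, k2, map_inv₀]
    · exact hξ (.inr i))
  have hu : (y none).u = (y' none).u := by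
    refine Units.ext (θ.injective ?_)
    have b1 : θ (y none).u = (ξ0 ^ e) ^ n none := a3 none
    have b2 : θ (y' none).u = (ξ0⁻¹ ^ e) ^ n' none := c3 none
    rw [b1, b2, hn, inv_pow, inv_zpow', neg_neg]
  have hF : ((e * (Fintype.card F - 1) : ℕ) : F) ≠ 0 := by
    intro h0
    have : NeZero (e * (Fintype.card F - 1)) :=
      ⟨(Nat.mul_pos he (card_sub_one_pos_VP F)).ne'⟩
    have h1 : ((e * (Fintype.card F - 1) : ℕ) : k') ≠ 0 := k1.neZero'.out
    apply h1
    rw [← map_natCast θ, h0, map_zero]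
  obtain ⟨γ, hγ⟩ := Aff.exists_conj hu fun w =>
    ⟨Aff.eq_one_of_pow hF (congrArg Prod.snd (hP'.valid _ _ _ a1 none).2.2.1) w,
      Aff.eq_one_of_pow hF (congrArg Prod.snd (hQ'.valid _ _ _ c1 none).2.2.1) (hu ▸ w)⟩
  let f : G × Aff F →* G × Aff F := (MonoidHom.id G).prodMap (MulAut.conj γ).toMonoidHom
  have hf : ∀ (x : G) (z : Aff F), f (x, z) = (x, γ * z * γ⁻¹) := fun _ _ => rfl
  have c5 := hQ'.map _ _ f _ _ c1
  refine ⟨Sum.elim (fun i => y (some i)) fun i => γ * y' (some i) * γ⁻¹, H1' ⊔ H2'.map f,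
    ⟨(e * (Fintype.card F - 1), ξ0, (g, y none)), H1', H2'.map f, ?_, ?_, rfl⟩, ?_, ?_, ?_⟩
  · refine (congrArg (fun t => P' (G × Aff F) t H1') ?_).mp a1
    funext o
    rcases o with _ | i <;> rfl
  · refine (congrArg (fun t => Q' (G × Aff F) t (H2'.map f)) ?_).mp c5
    funext o
    rcases o with _ | i
    · change (e * (Fintype.card F - 1), ξ0⁻¹, f (g, y' none)) =
        (e * (Fintype.card F - 1), ξ0⁻¹, (g, y none))
      rw [hf, hγ]
    · rfl
  · rw [Subgroup.map_sup, a2, Subgroup.map_map, ← c2]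
    rfl
  · rintro (i | i)
    · exact a3 (some i)
    · have b1 : θ (y' (some i)).u = (ξ (.inr i) ^ (d (.inr i)).1) ^ n' (some i) := c3 (some i)
      change θ (γ * y' (some i) * γ⁻¹).u = (ξ (.inr i) ^ (d (.inr i)).1) ^ n' (some i)
      rw [← b1, Aff.mul_u, Aff.mul_u, Aff.inv_u, mul_inv_cancel_comm]
  · intro hb'
    rcases hb hb' with w | w
    · obtain ⟨a, ha, hm⟩ := a4 w
      exact ⟨a, ha, Subgroup.mem_sup_left hm⟩
    · obtain ⟨a, ha, hm⟩ := c4 w
      exact ⟨γ * a * γ⁻¹, fun w' => ha (conj_eq_one_iff.1 w'),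
        Subgroup.mem_sup_right ⟨_, hm, hf 1 a⟩⟩

theorem Tr.dom [IsAlgClosed k] (θ : F →+* k) {P : AP k ι} (h : Tr k ι P) :
    ∀ [Fintype ι] (n : ι → ℤ), R0 n → Dom False (RingHom.id k) θ P P n := by
  induction h with
  | vtx a ha h3 =>
    intro _ n hn
    exact dom_vtx θ a ha n hn
  | @glue ι ι' P Q hP hQ ihP ihQ =>
    intro inst n hn
    have f1 := hP.finite
    have f2 := hQ.finite
    have f3 : Finite ι := Finite.of_injective some (Option.some_injective ι)
    have f4 : Finite ι' := Finite.of_injective some (Option.some_injective ι')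
    let _ := Fintype.ofFinite ι
    let _ := Fintype.ofFinite ι'
    have hs : ∑ i, n (.inl i) + ∑ i, n (.inr i) = 0 := by
      rw [← Fintype.sum_sum_type]
      obtain rfl : inst = instFintypeSum ι ι' := Subsingleton.elim _ _
      exact hn
    have d1 := ihP (fun o => o.elim (-∑ i, n (.inl i)) fun i => n (.inl i)) (by
      unfold R0
      rw [Fintype.sum_option]
      exact neg_add_cancel _)
    have d2 := ihQ (fun o => o.elim (∑ i, n (.inl i)) fun i => n (.inr i)) (by
      unfold R0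
      rw [Fintype.sum_option]
      exact hs)
    have d3 := Dom.glue (b := False) False.elim hP.nice hP.nice hQ.nice d1 d2 (neg_neg _).symm
    refine (congrArg (fun t => Dom False (RingHom.id k) θ (AdmG.glue P Q) (AdmG.glue P Q) t)
      ?_).mp d3
    funext o
    rcases o with i | i <;> rfl
  | @reidx ι ι' e P hP ih =>
    intro _ n hn
    have f1 := hP.finite
    let _ := Fintype.ofFinite ι
    have d1 := (ih (fun i => n (e i)) (by
      unfold R0
      rw [Equiv.sum_comp e n]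
      exact hn)).reidx e
    simpa only [Equiv.apply_symm_apply] using d1

end Pool.Agent.AdmG
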