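import Pool.Agent.AdmG.Ext1

/-! Strict steps towards a smooth curve. -/

namespace Pool.Agent.AdmG

open Pool.Agent.Adm
open scoped OnePoint
open Polynomial

variable {k k' F ι κ : Type} [Field k] [Field k'] [IsAlgClosed k'] [Field F] [Fintype F]

theorem exists_section_Ext3 {G A : Type} [Group G] [Group A] (H : Subgroup G)
    (H' : Subgroup (G × A)) (hm : H'.map (MonoidHom.fst G A) = H)
    (hno : ∀ a : A, ((1 : G), a) ∈ H' → a = 1) :
    ∃ ψ : H →* A, ∀ (x : G × A), x ∈ H' → ∀ hx : x.1 ∈ H, ψ ⟨x.1, hx⟩ = x.2 := by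
  have hmem : ∀ x : H', ((MonoidHom.fst G A).comp H'.subtype) x ∈ H := fun x =>
    hm ▸ Subgroup.mem_map_of_mem _ x.2
  let π : H' →* H := ((MonoidHom.fst G A).comp H'.subtype).codRestrict H hmem
  have hb : Function.Bijective π := by
    constructor
    · rw [injective_iff_map_eq_one]
      intro x hx
      have h1 : x.1.1 = 1 := congrArg Subtype.val hx
      have h2 : x.1.2 = 1 := hno _ (h1 ▸ x.2)
      exact Subtype.ext (Prod.ext h1 h2)
    · intro g
      have hg : g.1 ∈ H'.map (MonoidHom.fst G A) := hm.symm ▸ g.2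
      obtain ⟨x, hx, e⟩ := hg
      exact ⟨⟨x, hx⟩, Subtype.ext e⟩
  let E : H' ≃* H := MulEquiv.ofBijective π hb
  refine ⟨((MonoidHom.snd G A).comp H'.subtype).comp E.symm.toMonoidHom, fun x hx hx1 => ?_⟩
  have : E.symm ⟨x.1, hx1⟩ = ⟨x, hx⟩ := by
    rw [MulEquiv.symm_apply_eq]
    rfl
  show (E.symm ⟨x.1, hx1⟩).1.2 = x.2
  rw [this]

theorem dom_true_vtx (φ : k →+* k') (θ : F →+* k) {P : AP k ι} (hP : Nice P)
    (a : ι → OnePoint k') (hl : Lifts φ P (vtx a)) (n : ι → ℤ) (hfix : AllFix θ P n) (f : k'[X])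
    (c2 : Cover k' (Aff F)) (h : AffLab (φ.comp θ) c2 f) (hc : ¬ Aff.HasFix c2.ι.range)
    (h1 : ∀ i, labAt f (a i) ≡ n i [ZMOD (Fintype.card F - 1 : ℕ)])
    (h2 : ∀ x, x ∉ Set.range a → labAt f x ≡ 0 [ZMOD (Fintype.card F - 1 : ℕ)]) :
    Dom True φ (φ.comp θ) P (vtx a) n := by
  intro G _ _ d H hd ξ hξ
  obtain ⟨y, H', v1, v2, v3, v4⟩ := dom_vtx_core (φ.comp θ) a n f c2 h h1 h2 G
    (fun i => (d i).map φ) H (hl G d H hd) ξ hξ
  refine ⟨y, H', v1, v2, v3, fun _ => ?_⟩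
  by_contra hno
  obtain ⟨ψ, hψ⟩ := exists_section_Ext3 H H' v2 fun b hb => by
    by_contra hb1
    exact hno ⟨b, hb1, hb⟩
  obtain ⟨d', hd', hdd⟩ := hP.restr G d H H hd le_rfl
  have hlab : ∀ i, LabD (Fintype.card F - 1) θ (Aff.lin.comp ψ) (d' i) (n i) := by
    intro i
    have e1 : (d' i).1 = (d i).1 := congrArg (fun x => x.1) (hdd i)
    have e2 : (d' i).2.1 = (d i).2.1 := congrArg (fun x => x.2.1) (hdd i)
    have e3 : ((d' i).2.2 : G) = (d i).2.2 := congrArg (fun x => x.2.2) (hdd i)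
    have hv := hP.valid G d H hd i
    have hv' := hP.valid H d' _ hd' i
    have hy : ((d i).2.2, y i) ∈ H' := ((nice_vtx a).valid _ _ _ v1 i).2.2.2
    have e4 : ψ (d' i).2.2 = y i :=
      (congrArg ψ (Subtype.ext e3)).trans (hψ _ hy hv.2.2.2)
    have e5 : y i ^ (d i).1 = 1 := by
      rw [← e4, ← map_pow, ← e1, hv'.2.2.1, map_one]
    have e6 : (y i).u ^ (d i).1 = 1 := by
      have := congrArg Aff.lin e5
      rwa [map_pow, map_one] at this
    show Lab _ (d' i).1 (d' i).2.1 (θ ((Aff.lin (ψ (d' i).2.2) : Fˣ) : F)) (n i)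
    rw [e1, e2, e4, ← lab_map_iff φ, ← (hξ i).2]
    refine lab_of_root (card_sub_one_pos_VP F) hv.1 (hξ i).1 ?_ (v3 i)
    rw [← map_pow, ← map_pow, ← Units.val_pow_eq_pow_val, Aff.lin_apply, e6, Units.val_one,
      map_one, map_one]
  obtain ⟨β, hβ⟩ := hfix H d' _ ψ hd' hlab
  refine v4 hc ⟨β, ?_⟩
  rintro g ⟨x, hx, rfl⟩
  have hx1 : x.1 ∈ H := v2 ▸ Subgroup.mem_map_of_mem (MonoidHom.fst G (Aff F)) hx
  exact hβ _ ⟨⟨x.1, hx1⟩, hx1, hψ x hx hx1⟩

theorem step_of [Fintype κ] (φ : k →+* k') (θ : F →+* k) {P : AP k (W κ)} (hP : Nice P)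
    (u : κ → k') (hu : Function.Injective (gen u)) (hl : Lifts φ P (vtx (gen u)))
    (n : Option (Option κ) → ℕ) (hn : ∀ i, n i < Fintype.card F - 1)
    (h1 : Fintype.card F ≤ ∑ i, n i) (h2 : ∑ i, n i ≤ 2 * (Fintype.card F - 1))
    (hκ : (∏ j, (X - C (fin u j)) ^ n j : k'[X]).coeff (Fintype.card F - 1) ≠ 0)
    (hfix : AllFix θ P fun o => o.elim (-((∑ i, n i : ℕ) : ℤ)) fun o => (n o : ℤ)) :
    Step R0 φ P (vtx (gen u)) := by
  have ha : Function.Injective (fin u) := fun o o' e =>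
    Option.some_injective _ (hu (by rw [gen_some, gen_some, e]))
  obtain ⟨r1, r2, r3, r4⟩ := rootMultiplicity_prod_X_sub_C (fin u) ha n
  generalize (∏ j, (X - C (fin u j)) ^ n j : k'[X]) = f at hκ r1 r2 r3 r4
  have hm : ∀ x : k', f.rootMultiplicity x < Fintype.card F - 1 := by
    intro x
    by_cases hx : x ∈ Set.range (fin u)
    · obtain ⟨i, rfl⟩ := hx
      rw [r1 i]
      exact hn i
    · rw [r2 x hx]
      exact card_sub_one_pos_VP F
  obtain ⟨c2, hc2, hnf⟩ := exists_affLab_noFix (φ.comp θ) f r4 (r3 ▸ h1) (r3 ▸ h2) hκ hm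
  refine ⟨hl, F, inferInstance, inferInstance, φ.comp θ, _, ?_,
    dom_true_vtx φ θ hP (gen u) hl _ hfix f c2 hc2 hnf (fun i => ?_) fun x hx => ?_⟩
  · unfold R0
    rw [Fintype.sum_option]
    simp only [Option.elim_none, Option.elim_some, Nat.cast_sum, neg_add_cancel]
  · rcases i with _ | o
    · show -((f.natDegree : ℕ) : ℤ) ≡ -((∑ i, n i : ℕ) : ℤ) [ZMOD _]
      rw [r3]
    · show ((f.rootMultiplicity (fin u o) : ℕ) : ℤ) ≡ (n o : ℤ) [ZMOD _]
      rw [r1]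
  · induction x using OnePoint.rec with
    | infty => exact absurd ⟨none, rfl⟩ hx
    | coe b =>
      have hb : b ∉ Set.range (fin u) := by
        rintro ⟨o, rfl⟩
        exact hx ⟨some o, rfl⟩
      show ((f.rootMultiplicity b : ℕ) : ℤ) ≡ 0 [ZMOD _]
      rw [r2 b hb]
      rfl

end Pool.Agent.AdmG
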