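import Pool.Agent.AdmG.Hgt
import Pool.Agent.AdmG.Ctx1

/-! From chains of trees to chains of curves of genus g. -/

namespace Pool.Agent.AdmG

open Pool.Agent.Adm
open scoped OnePoint

theorem base_Fin1 {p r : ℕ} [Fact p.Prime] {κ : Type} [Fintype κ] (h : Ch p κ r) :
    ∃ (N N' : Nd p (W κ)) (φ : N.k →+* N'.k), Path R0 N N' φ r := by
  obtain ⟨S, h1, -, h3⟩ := h
  obtain ⟨N', φ, -, -, -, h4⟩ :=
    h3 { k := AlgebraicClosure (ZMod p), P := S _, tr := h1 _ } rfl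
  exact ⟨_, N', φ, h4⟩

theorem Ch.le_dim_zero {p r n : ℕ} [Fact p.Prime] {κ : Type} [Fintype κ] (h : Ch p κ r)
    (hn : Fintype.card κ + 3 = n) : (r : WithBot ℕ∞) ≤ topologicalKrullDim (PiBar p 0 n) := by
  obtain ⟨N, N', φ, hp⟩ := base_Fin1 h
  have e : W κ ≃ (Fin 0 ⊕ Fin 0) ⊕ Fin n := Fintype.equivOfCardEq (by simp [← hn])
  obtain ⟨C, -⟩ := exists_ctx_reidx N.k e R0 RP fun _ _ j => j.elim0
  exact (hp.ctx C (RingHom.id _)).le_dim (Fintype.card_fin 0)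

theorem Ch.le_dim_glue {p r r' g n : ℕ} [Fact p.Prime] {κ κ' I I' : Type} [Fintype κ] [Fintype κ']
    [Fintype I] [Fintype I'] (h : Ch p κ r) (h' : Ch p κ' r')
    (e : W κ ≃ Option (Fin g ⊕ I)) (e' : W κ' ≃ Option (Fin g ⊕ I')) (f : I ⊕ I' ≃ Fin n)
    (hI : IsEmpty I ∨ Nonempty I') : (r : WithBot ℕ∞) ≤ topologicalKrullDim (PiBar p g n) := by
  classical
  obtain ⟨N, N', φ, hp⟩ := base_Fin1 h
  obtain ⟨S', h1, h2, -⟩ := h'
  obtain ⟨C1, -⟩ := exists_ctx_reidx N.k e R0 R0 (R0.reidx e)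
  let Q : Fam N.k (Option (Fin g ⊕ I')) :=
    { Q := fun K _ _ => AdmG.reidx e' (S' K)
      tr := fun K _ _ => (h1 K).reidx e'
      lifts := fun K K' _ _ _ _ _ χ => (h2 K K' χ).reidx e' }
  obtain ⟨C2, -⟩ := exists_ctx_glueL (ι := Fin g ⊕ I) Q R0
    (fun n => ∀ j, n (.inr (.inl j)) = -n (.inl (.inl j))) (by
      intro a ha
      obtain ⟨m, hm⟩ : ∃ m : I' → ℤ, ∑ i, m i = -∑ i, a (some (.inr i)) := by
        rcases hI with hI | ⟨⟨i0⟩⟩
        · exact ⟨0, by simp⟩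
        · exact ⟨Pi.single i0 (-∑ i, a (some (.inr i))), by simp⟩
      refine ⟨fun o => o.elim (-a none) (Sum.elim (fun j => -a (some (.inl j))) m), rfl, ?_,
        fun j => rfl⟩
      simp only [R0, Fintype.sum_option, Fintype.sum_sum_type, Option.elim, Sum.elim_inl,
        Sum.elim_inr, Finset.sum_neg_distrib, hm] at ha ⊢
      linarith)
  obtain ⟨C3, -⟩ := exists_ctx_reidx N.k
    ((Equiv.sumSumSumComm (Fin g) I (Fin g) I').trans (Equiv.sumCongr (Equiv.refl _) f))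
    (fun n => ∀ j, n (.inr (.inl j)) = -n (.inl (.inl j))) RP fun _ ha j => ha j
  exact (((hp.ctx C1 (RingHom.id _)).ctx C2 (RingHom.id _)).ctx C3 (RingHom.id _)).le_dim
    (Fintype.card_fin g)

end Pool.Agent.AdmG
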