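import Pool.Agent.AdmG.Ch1
import Pool.Agent.AdmG.Ch3

/-! Lengths of the chains. -/

namespace Pool.Agent.AdmG

open Pool.Agent.Adm
open scoped OnePoint

theorem num_ind (A : ℕ → ℕ → Prop) (h0 : A 0 0) (h1 : ∀ c r, A c r → A (c + 1) (r + 1))
    (h2 : ∀ c r, A c r → A (2 * c + 2) (2 * r + c + 2)) (c : ℕ) :
    ∃ r, A c r ∧ c ≤ r ∧ (4 ≤ c → c + 1 ≤ r) ∧ (c + 3) * (Nat.log 2 (c + 2) - 2) ≤ 2 * r := by
  induction c using Nat.strong_induction_on with
  | _ c ih =>
    rcases lt_or_ge c 2 with hc | hc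
    · interval_cases c
      · exact ⟨0, h0, le_rfl, by omega, by norm_num⟩
      · exact ⟨1, h1 0 0 h0, le_rfl, by omega, by norm_num⟩
    obtain ⟨c', hc'⟩ : ∃ c', c = 2 * c' + 2 ∨ c = 2 * c' + 3 := ⟨(c - 2) / 2, by omega⟩
    obtain ⟨r, hA, a1, -, a3⟩ := ih c' (by omega)
    have hL : Nat.log 2 (c + 2) = Nat.log 2 (c' + 2) + 1 := by
      rw [Nat.log_of_one_lt_of_le (by norm_num) (by omega)]
      congr 2
      omega
    have h4 : 2 ≤ Nat.log 2 (c' + 2) → 2 ≤ c' := fun h => by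
      have := Nat.pow_le_of_le_log (by omega) h
      omega
    rw [hL]
    generalize Nat.log 2 (c' + 2) = L at a3 h4
    rcases hc' with rfl | rfl
    · refine ⟨_, h2 c' r hA, by omega, by omega, ?_⟩
      rcases L with _ | _ | _ | L
      · simp
      · simp
      · have := h4 le_rfl
        omega
      · rw [show L + 1 + 1 + 1 - 2 = L + 1 by omega] at a3
        rw [show L + 1 + 1 + 1 + 1 - 2 = L + 2 by omega]
        nlinarith
    · refine ⟨_, h1 _ _ (h2 c' r hA), by omega, by omega, ?_⟩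
      rcases L with _ | _ | L
      · simp
      · simp
      · rw [show L + 1 + 1 - 2 = L by omega] at a3
        rw [show L + 1 + 1 + 1 - 2 = L + 1 by omega]
        nlinarith

theorem exists_ch (p : ℕ) [Fact p.Prime] (c : ℕ) :
    ∃ r, Ch p (Fin c) r ∧ c ≤ r ∧ (4 ≤ c → c + 1 ≤ r) ∧
      (c + 3) * (Nat.log 2 (c + 2) - 2) ≤ 2 * r := by
  refine num_ind (fun c r => Ch p (Fin c) r)
    ((ch_base p).equiv (Equiv.equivOfIsEmpty _ _))
    (fun c r h => h.succ.equiv (finSuccEquiv c).symm) (fun c r h => ?_) c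
  have := h.double.equiv (Fintype.equivFinOfCardEq (n := 2 * c + 2) (by simp; omega))
  rwa [Fintype.card_fin] at this

theorem ch_fin_succ {p c r : ℕ} [Fact p.Prime] (h : Ch p (Fin c) r) :
    Ch p (Fin (c + 1)) (r + 1) := by
  exact h.succ.equiv (finSuccEquiv c).symm

end Pool.Agent.AdmG
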