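import Pool.Agent.AdmG.Fin1
import Pool.Agent.AdmG.Num

/-! The lower bound for the dimension. -/

namespace Pool.Agent.AdmG

open Pool.Agent.Adm
open scoped OnePoint

theorem Ch.le_dim {p r c g n : ℕ} [Fact p.Prime] (h : Ch p (Fin c) r) (hc : c + 3 = g + n) :
    (r : WithBot ℕ∞) ≤ topologicalKrullDim (PiBar p g n) := by
  rcases Nat.eq_zero_or_pos g with rfl | hg
  · exact h.le_dim_zero (by simpa using hc)
  rcases Nat.eq_zero_or_pos n with rfl | hn
  · have h1 := ch_fin_succ h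
    have e : W (Fin (c + 1)) ≃ Option (Fin g ⊕ Empty) :=
      Fintype.equivOfCardEq (by simp [W]; omega)
    have h2 := h1.le_dim_glue h1 e e (Fintype.equivOfCardEq (by simp)) (n := 0)
      (Or.inl inferInstance)
    exact le_trans (by exact_mod_cast Nat.le_succ r) h2
  · obtain ⟨r', h', -⟩ := exists_ch p (g - 1)
    exact h.le_dim_glue (I := Fin (n - 1)) (I' := Unit) h'
      (Fintype.equivOfCardEq (by simp [W]; omega)) (Fintype.equivOfCardEq (by simp [W]; omega))
      (Fintype.equivOfCardEq (by simp; omega)) (Or.inr inferInstance)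

theorem main (p : ℕ) (hp : p.Prime) (g n : ℕ) (h : 7 ≤ g + n) :
    ((g + n - 2 : ℕ) : WithBot ℕ∞) ≤ topologicalKrullDim (PiBar p g n) ∧
    (((g + n) * (Nat.log 2 (g + n - 1) - 2) / 2 : ℕ) : WithBot ℕ∞) ≤
      topologicalKrullDim (PiBar p g n) ∧
    (g = 0 ∨ 257 ≤ g + n →
      ((3 * g + n - 3 : ℕ) : WithBot ℕ∞) < topologicalKrullDim (PiBar p g n)) := by
  have : Fact p.Prime := ⟨hp⟩
  obtain ⟨c, hc⟩ : ∃ c, c + 3 = g + n := ⟨g + n - 3, by omega⟩
  obtain ⟨r, h0, -, h1, h2⟩ := exists_ch p c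
  have h3 := h0.le_dim hc
  have h4 := h1 (by omega)
  rw [hc, show c + 2 = g + n - 1 by omega] at h2
  refine ⟨le_trans ?_ h3, le_trans ?_ h3, fun h5 => lt_of_lt_of_le ?_ h3⟩
  · exact Nat.cast_le.2 (by omega)
  · exact Nat.cast_le.2 (by omega)
  · refine Nat.cast_lt.2 ?_
    rcases h5 with rfl | h5
    · omega
    · have h6 : 8 ≤ Nat.log 2 (g + n - 1) := Nat.le_log_of_pow_le (by norm_num) (by omega)
      have h7 : (g + n) * 6 ≤ (g + n) * (Nat.log 2 (g + n - 1) - 2) :=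
        Nat.mul_le_mul_left _ (by omega)
      omega

end Pool.Agent.AdmG
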