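import Pool.Agent.Adq.FIN
import Pool.Agent.AdmG.BgH
import Pool.Agent.AdmG.Main

/-! Maximal chains of different lengths in the general description of the space. -/

namespace Pool.Agent.AdmG

open Pool.Agent.Adm (IsMaxChain)

theorem isMaxChain_preimage {X Y : Type*} [TopologicalSpace X] [TopologicalSpace Y] (e : X ≃ₜ Y)
    {m : ℕ} {V : Fin (m + 1) → Set Y} (h : IsMaxChain V) : IsMaxChain fun i => e ⁻¹' V i := by
  obtain ⟨h1, h2, h3, h4⟩ := h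
  refine ⟨fun i => ⟨?_, (h1 i).2.preimage e.continuous⟩, ?_, fun i j hij => ?_,
    fun W w1 w2 w3 => ?_⟩
  · rw [← e.image_symm]
    exact (h1 i).1.image _ e.symm.continuous.continuousOn
  · simp only [h2, Set.preimage_univ]
  · exact ⟨Set.preimage_mono (h3 hij).1,
      fun h => (h3 hij).2 (e.surjective.preimage_subset_preimage_iff.1 h)⟩
  · obtain ⟨i, hi⟩ := h4 (e '' W) (w1.image _ e.continuous.continuousOn) (e.isClosedMap _ w2)
      fun i => (w3 i).imp (fun h => Set.image_subset_iff.2 h) fun h y hy =>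
        ⟨e.symm y, h (by simpa using hy), e.apply_symm_apply y⟩
    exact ⟨i, by simp only [hi, e.injective.preimage_image]⟩

theorem exists_short (n : ℕ) (hn : 3 ≤ n) :
    ∃ V : Fin (n - 3 + 1) → Set (PiBar 2 0 n), IsMaxChain V := by
  obtain ⟨e, rfl⟩ : ∃ e, n = e + 3 := ⟨n - 3, by omega⟩
  obtain ⟨h⟩ := nonempty_homeomorph 2 (e + 3)
  obtain ⟨V, hV⟩ := Pool.Agent.Adm.exists_smooth_maxChain e
  exact ⟨_, isMaxChain_preimage h hV⟩

theorem exists_long (n : ℕ) (hn : 3 ≤ n) (r : ℕ)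
    (hr : (r : WithBot ℕ∞) ≤ topologicalKrullDim (PiBar 2 0 n)) :
    ∃ m, r ≤ m ∧ ∃ V : Fin (m + 1) → Set (PiBar 2 0 n), IsMaxChain V := by
  obtain ⟨e, rfl⟩ : ∃ e, n = e + 3 := ⟨n - 3, by omega⟩
  obtain ⟨h⟩ := nonempty_homeomorph 2 (e + 3)
  obtain ⟨V, hV⟩ := Pool.Agent.Adm.exists_smooth_maxChain e
  obtain ⟨B, hB⟩ := Pool.Agent.Adm.exists_series_bound (e + 3)
  rw [h.isHomeomorph.topologicalKrullDim_eq] at hr
  obtain ⟨m, hm, W, hW⟩ := Pool.Agent.Adm.exists_isMaxChain (hV.2.1 ▸ (hV.1 0).1) B hB r hr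
  exact ⟨m, hm, _, isMaxChain_preimage h hW⟩

theorem exists_two (n : ℕ) (hn : 7 ≤ n) :
    (∃ V : Fin (n - 3 + 1) → Set (PiBar 2 0 n), IsMaxChain V) ∧
      ∃ m, n - 3 < m ∧ n * (Nat.log 2 (n - 1) - 2) / 2 ≤ m ∧
        ∃ V : Fin (m + 1) → Set (PiBar 2 0 n), IsMaxChain V := by
  refine ⟨exists_short n (by omega), ?_⟩
  obtain ⟨h1, h2, -⟩ := main 2 Nat.prime_two 0 n (by omega)
  rw [zero_add] at h1 h2
  rcases le_total (n - 2) (n * (Nat.log 2 (n - 1) - 2) / 2) with h3 | h3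
  · obtain ⟨m, hm, h⟩ := exists_long n (by omega) _ h2
    exact ⟨m, by omega, hm, h⟩
  · obtain ⟨m, hm, h⟩ := exists_long n (by omega) _ h1
    exact ⟨m, by omega, by omega, h⟩

theorem not_Q1 : ¬ ∀ p g n : ℕ, p.Prime → 2 < 2 * g + n →
    ∀ (m₁ m₂ : ℕ) (V₁ : Fin (m₁ + 1) → Set (PiBar p g n)) (V₂ : Fin (m₂ + 1) → Set (PiBar p g n)),
      IsMaxChain V₁ → IsMaxChain V₂ → m₁ = m₂ := by
  intro h
  obtain ⟨⟨V, hV⟩, m, hm, -, W, hW⟩ := exists_two 7 le_rfl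
  exact hm.ne (h 2 0 7 Nat.prime_two (by norm_num) _ _ V W hV hW)

end Pool.Agent.AdmG
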