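import Pool.Agent.AdmG.AP
import Pool.Agent.Adm.Fix3

/-! Affine quotients of the lower curves have fixed points. -/

namespace Pool.Agent.AdmG

open Pool.Agent.Adm
open scoped OnePoint
open Polynomial

variable {k F κ : Type} [Field k] [IsAlgClosed k] [Field F] [Fintype F] [Fintype κ]

omit [IsAlgClosed k] [Fintype κ] in
theorem fin_inj {s : κ → k} (hs : Function.Injective (gen s)) : Function.Injective (fin s) := by
  intro o o' h
  exact Option.some_injective _ (hs (by rw [gen_some, gen_some, h]))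

/-- The facts on one line with marked points. -/
theorem vtx_Fx {κ : Type} [Fintype κ] (θ : F →+* k) (s : κ → k) (hs : Function.Injective (gen s))
    (n : Option (Option κ) → ℕ) {G : Type} [Group G] (d : W κ → Dat k G) (H : Subgroup G)
    (ψ : G →* Aff F) (hA : vtx (gen s) G d H)
    (hl : ∀ o, LabD (Fintype.card F - 1) θ (Aff.lin.comp ψ) (d (some o)) (n o)) :
    LabD (Fintype.card F - 1) θ (Aff.lin.comp ψ) (dinv (d none)) ((∑ i, n i : ℕ) : ℤ) ∧
    ((∑ i, n i ≤ Fintype.card F - 1 ∨ (∑ i, n i ≤ 2 * (Fintype.card F - 1) ∧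
      (∏ j, (X - C (fin s j)) ^ n j : k[X]).coeff (Fintype.card F - 1) = 0)) →
        Aff.HasFix (H.map ψ)) ∧
    ∀ o, 0 < (d o).1 ∧ IsPrimitiveRoot (d o).2.1 (d o).1 ∧ (d o).2.2 ∈ H := by
  obtain ⟨c, hT, hd, rfl⟩ := hA
  obtain ⟨a, b, -⟩ := c.vertex θ ψ (fin s) (fin_inj hs) n _ hT (by
      rintro x ⟨_ | o, ho⟩
      · exact absurd ho.symm (OnePoint.coe_ne_infty x)
      · exact ⟨o, OnePoint.coe_injective ho⟩)
    (fun o => ⟨_, _, _, hd (some o), hl o⟩)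
  refine ⟨?_, b, fun o => ⟨(hd o).1, (hd o).2.1, Cover.Mono.mem_range (hd o)⟩⟩
  have := (a _ _ _ (hd none)).inv
  rwa [neg_neg] at this

omit [Fintype κ] in
/-- The middle line. -/
theorem tri_Fx (θ : F →+* k) (p N : ℕ) (hpk : (p : k) = 0) (hm : Fintype.card F - 1 = N + p)
    (hp : 2 ≤ p) {G : Type} [Group G] (d : W Empty → Dat k G) (H : Subgroup G)
    (ψ : G →* Aff F) (hA : tri k G d H)
    (h0 : LabD (Fintype.card F - 1) θ (Aff.lin.comp ψ) (d (some none)) ((N + 1 : ℕ) : ℤ))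
    (h1 : LabD (Fintype.card F - 1) θ (Aff.lin.comp ψ) (d (some (some none))) (p : ℤ)) :
    LabD (Fintype.card F - 1) θ (Aff.lin.comp ψ) (dinv (d none)) ((1 : ℕ) : ℤ) ∧
    Aff.HasFix (H.map ψ) ∧ ∀ o, (d o).2.2 ∈ H := by
  have hi : Function.Injective (gen (Empty.elim : Empty → k)) := by
    rintro (_ | _ | _ | i) (_ | _ | _ | j) h <;>
      first | rfl | exact i.elim | exact j.elim | simp [gen] at h
  obtain ⟨a, b, c⟩ := vtx_Fx θ Empty.elim hi (fun o => o.elim (N + 1) fun _ => p) d H ψ hA (by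
    rintro (_ | _ | i)
    exacts [h0, h1, i.elim])
  have s3 : ∑ o : Option (Option Empty), (o.elim (N + 1) fun _ => p : ℕ)
      = Fintype.card F - 1 + 1 := by
    simp only [Fintype.sum_option, Option.elim, Finset.univ_eq_empty, Finset.sum_empty]
    omega
  refine ⟨?_, b (Or.inr ⟨by rw [s3]; omega, ?_⟩), fun o => (c o).2.2⟩
  · rw [s3] at a
    refine Lab.congr a ?_
    push_cast
    exact Int.modEq_iff_dvd.2 ⟨-1, by ring⟩
  · rw [coeff_prod_pred _ _ _ s3]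
    simp [Fintype.sum_option, fin, hpk]

omit [IsAlgClosed k] [Fintype κ] in
theorem num_Fx (θ : F →+* k) (p : ℕ) (hp : p.Prime) (hF : Fintype.card F = p ^ 2) :
    (p : k) = 0 ∧ ∃ M : ℕ, (p : ℤ) ^ 2 - p - 1 = M ∧ Fintype.card F - 1 = M + p := by
  have hp2 := hp.two_le
  refine ⟨?_, ?_⟩
  · have := card_cast_eq_zero θ
    rw [hF, Nat.cast_pow] at this
    exact pow_eq_zero_iff (two_ne_zero) |>.1 this
  · obtain ⟨M, hM⟩ : ∃ M : ℕ, p ^ 2 = M + p + 1 := by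
      refine ⟨p ^ 2 - p - 1, ?_⟩
      have : p + 1 ≤ p ^ 2 := by nlinarith
      omega
    refine ⟨M, ?_, by omega⟩
    have : ((p ^ 2 : ℕ) : ℤ) = ((M + p + 1 : ℕ) : ℤ) := by rw [hM]
    push_cast at this
    linarith

/-- The first two lines. -/
theorem two_Fx (θ : F →+* k) (p M : ℕ) (hpk : (p : k) = 0) (hm : Fintype.card F - 1 = M + p)
    (hp : 2 ≤ p) (s : κ → k) (hs : Function.Injective (gen s)) {G : Type} [Group G]
    (ψ : G →* Aff F) (x y a b : Dat k G) (d : Option κ → Dat k G) (H1 H2 : Subgroup G)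
    (h1 : vtx (gen s) G (fun o => o.elim x fun o => o.elim a d) H1)
    (h2 : tri k G (fun o => o.elim y fun o => o.elim (dinv x) fun _ => b) H2)
    (la : LabD (Fintype.card F - 1) θ (Aff.lin.comp ψ) a (M : ℤ))
    (lb : LabD (Fintype.card F - 1) θ (Aff.lin.comp ψ) b (p : ℤ))
    (l1 : LabD (Fintype.card F - 1) θ (Aff.lin.comp ψ) (d none) 1)
    (l0 : ∀ i, LabD (Fintype.card F - 1) θ (Aff.lin.comp ψ) (d (some i)) 0) :
    LabD (Fintype.card F - 1) θ (Aff.lin.comp ψ) (dinv y) ((1 : ℕ) : ℤ) ∧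
      Aff.HasFix (H1.map ψ ⊔ H2.map ψ) ∧ y.2.2 ∈ H2 := by
  obtain ⟨a1, b1, c1⟩ := vtx_Fx θ s hs (fun o => o.elim M fun o => o.elim 1 fun _ => 0) _ H1 ψ h1
    (by
      rintro (_ | _ | i)
      exacts [la, l1, l0 i])
  have s1 : ∑ o : Option (Option κ), (o.elim M fun o => o.elim 1 fun _ => 0 : ℕ) = M + 1 := by
    simp [Fintype.sum_option]
  rw [s1] at a1 b1
  obtain ⟨a2, b2, c2⟩ := tri_Fx θ p M hpk hm hp _ H2 ψ h2 a1 lb
  have u1 : (ψ x.2.2).u ≠ 1 :=
    u_ne_one_Fix3 θ (c1 none).1 (c1 none).2.1.inv _ (M + 1) (by omega) (by omega) a1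
  exact ⟨a2, (b1 (Or.inl (by omega))).sup b2 (ψ x.2.2) (Subgroup.mem_map_of_mem ψ (c1 none).2.2)
    (Subgroup.mem_map_of_mem ψ (c2 (some none))) u1, c2 none⟩

theorem allFix_vtx (θ : F →+* k) (s : κ → k) (hs : Function.Injective (gen s))
    (n : Option (Option κ) → ℕ) (h2 : ∑ i, n i ≤ 2 * (Fintype.card F - 1))
    (hκ : (∏ j, (X - C (fin s j)) ^ n j : k[X]).coeff (Fintype.card F - 1) = 0) (N : W κ → ℤ)
    (hN : ∀ o, N (some o) = n o) : AllFix θ (vtx (gen s)) N := by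
  intro G _ d H ψ hA hl
  exact (vtx_Fx θ s hs n d H ψ hA fun o => hN o ▸ hl (some o)).2.1 (Or.inr ⟨h2, hκ⟩)

theorem allFix_two (θ : F →+* k) (p : ℕ) (hp : p.Prime) (hF : Fintype.card F = p ^ 2) (s : κ → k)
    (hs : Function.Injective (gen s)) (N : W (Option κ) → ℤ)
    (h0 : N (some none) = (p : ℤ) ^ 2 - p - 1) (h1 : N (some (some none)) = p)
    (h2 : N (some (some (some none))) = 1) (h3 : ∀ i, N (some (some (some (some i)))) = 0) :
    AllFix θ (two (vtx (gen s))) N := by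
  rintro G _ d H ψ ⟨x, H1, H2, a1, a2, rfl⟩ hl
  obtain ⟨hpk, M, hM, hm⟩ := num_Fx θ p hp hF
  rw [Subgroup.map_sup]
  exact (two_Fx θ p M hpk hm hp.two_le s hs ψ x _ _ _ _ H1 H2 a1 a2 (hM ▸ h0 ▸ hl _) (h1 ▸ hl _)
    (h2 ▸ hl _) fun i => h3 i ▸ hl _).2.1

theorem allFix_three (θ : F →+* k) (p : ℕ) (hp : p.Prime) (hF : Fintype.card F = p ^ 2)
    (s s' : κ → k) (hs : Function.Injective (gen s)) (hs' : Function.Injective (gen s'))
    (N : W (Option κ ⊕ Option κ) → ℤ)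
    (h0 : N (some none) = (p : ℤ) ^ 2 - p - 1) (h1 : N (some (some none)) = p)
    (h2 : N (some (some (some (.inl none)))) = 1)
    (h3 : ∀ i, N (some (some (some (.inl (some i))))) = 0)
    (h4 : ∀ o, N (some (some (some (.inr o)))) = 0) :
    AllFix θ (three (vtx (gen s)) (vtx (gen s'))) N := by
  rintro G _ d H ψ ⟨x, y, H1, H2, H3, a1, a2, a3, rfl⟩ hl
  obtain ⟨hpk, M, hM, hm⟩ := num_Fx θ p hp hF
  have hp2 := hp.two_le
  obtain ⟨b1, b2, b3⟩ := two_Fx θ p M hpk hm hp2 s hs ψ x _ _ _ _ H1 H2 a1 a2 (hM ▸ h0 ▸ hl _)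
    (h1 ▸ hl _) (h2 ▸ hl _) fun i => h3 i ▸ hl _
  obtain ⟨-, c2, c3⟩ := vtx_Fx θ s' hs' (fun o => o.elim 1 fun _ => 0) _ H3 ψ a3 (by
    rintro (_ | o)
    · exact b1
    · have := hl (some (some (some (.inr o))))
      rw [h4] at this
      exact this)
  have s1 : ∑ o : Option (Option κ), (o.elim 1 fun _ => 0 : ℕ) = 1 := by
    simp [Fintype.sum_option]
  rw [s1] at c2
  have u1 : (ψ y.2.2).u ≠ 1 :=
    u_ne_one_Fix3 θ (c3 (some none)).1 (c3 (some none)).2.1 _ 1 (by omega) (by omega) b1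
  rw [Subgroup.map_sup, Subgroup.map_sup]
  exact b2.sup (c2 (Or.inl (by omega))) (ψ y.2.2)
    (Subgroup.mem_sup_right (Subgroup.mem_map_of_mem ψ b3))
    (Subgroup.mem_map_of_mem ψ (c3 (some none)).2.2) u1

end Pool.Agent.AdmG
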