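import Pool.Agent.AdmG.AP

/-! Gluing two trees: the geometry. -/

namespace Pool.Agent.AdmG

open Pool.Agent.Adm
open scoped OnePoint

variable {k ι ι' : Type} [Field k]

/-- The special points of the glued tree. -/
def RC.gpt (X : RC k (Option ι)) (Y : RC k (Option ι')) :
    (Option (X.E ⊕ Y.E) ⊕ Option (X.E ⊕ Y.E)) ⊕ (ι ⊕ ι') → (X.V ⊕ Y.V) × OnePoint k
  | .inl (.inl none) => Prod.map .inl id (X.pt (.inr none))
  | .inl (.inr none) => Prod.map .inr id (Y.pt (.inr none))
  | .inl (.inl (some (.inl ε))) => Prod.map .inl id (X.pt (.inl (.inl ε)))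
  | .inl (.inr (some (.inl ε))) => Prod.map .inl id (X.pt (.inl (.inr ε)))
  | .inl (.inl (some (.inr ε))) => Prod.map .inr id (Y.pt (.inl (.inl ε)))
  | .inl (.inr (some (.inr ε))) => Prod.map .inr id (Y.pt (.inl (.inr ε)))
  | .inr (.inl i) => Prod.map .inl id (X.pt (.inr (some i)))
  | .inr (.inr i) => Prod.map .inr id (Y.pt (.inr (some i)))

/-- Sorting the special points of the glued tree by the side they come from. -/
def side_Real2 (A B ι ι' : Type) : (Option (A ⊕ B) ⊕ Option (A ⊕ B)) ⊕ (ι ⊕ ι') ≃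
    ((A ⊕ A) ⊕ Option ι) ⊕ ((B ⊕ B) ⊕ Option ι') where
  toFun
    | .inl (.inl none) => .inl (.inr none)
    | .inl (.inr none) => .inr (.inr none)
    | .inl (.inl (some (.inl ε))) => .inl (.inl (.inl ε))
    | .inl (.inr (some (.inl ε))) => .inl (.inl (.inr ε))
    | .inl (.inl (some (.inr ε))) => .inr (.inl (.inl ε))
    | .inl (.inr (some (.inr ε))) => .inr (.inl (.inr ε))
    | .inr (.inl i) => .inl (.inr (some i))
    | .inr (.inr i) => .inr (.inr (some i))
  invFun
    | .inl (.inr none) => .inl (.inl none)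
    | .inr (.inr none) => .inl (.inr none)
    | .inl (.inl (.inl ε)) => .inl (.inl (some (.inl ε)))
    | .inl (.inl (.inr ε)) => .inl (.inr (some (.inl ε)))
    | .inr (.inl (.inl ε)) => .inl (.inl (some (.inr ε)))
    | .inr (.inl (.inr ε)) => .inl (.inr (some (.inr ε)))
    | .inl (.inr (some i)) => .inr (.inl i)
    | .inr (.inr (some i)) => .inr (.inr i)
  left_inv := by rintro (((_ | _ | _) | (_ | _ | _)) | (_ | _)) <;> rfl
  right_inv := by rintro (((_ | _) | (_ | _)) | ((_ | _) | (_ | _))) <;> rfl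

theorem gpt_eq_Real2 (X : RC k (Option ι)) (Y : RC k (Option ι')) :
    X.gpt Y = Sum.elim (fun h => Prod.map .inl id (X.pt h)) (fun h => Prod.map .inr id (Y.pt h)) ∘
      side_Real2 X.E Y.E ι ι' := by
  funext h
  rcases h with (((_ | _ | _) | (_ | _ | _)) | (_ | _)) <;> rfl

theorem RC.gpt_inj (X : RC k (Option ι)) (Y : RC k (Option ι')) :
    Function.Injective (X.gpt Y) := by
  rw [gpt_eq_Real2]
  refine Function.Injective.comp (Function.Injective.sumElim
    ((Sum.inl_injective.prodMap Function.injective_id).comp X.inj)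
    ((Sum.inr_injective.prodMap Function.injective_id).comp Y.inj) fun a b e => ?_)
    (Equiv.injective _)
  exact Sum.inl_ne_inr (congrArg Prod.fst e)

theorem RC.mem_range_gpt_inl (X : RC k (Option ι)) (Y : RC k (Option ι')) (v : X.V)
    (a : OnePoint k) : (Sum.inl v, a) ∈ Set.range (X.gpt Y) ↔ (v, a) ∈ Set.range X.pt := by
  rw [gpt_eq_Real2, EquivLike.range_comp]
  simp [Prod.ext_iff]

theorem RC.mem_range_gpt_inr (X : RC k (Option ι)) (Y : RC k (Option ι')) (v : Y.V)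
    (a : OnePoint k) : (Sum.inr v, a) ∈ Set.range (X.gpt Y) ↔ (v, a) ∈ Set.range Y.pt := by
  rw [gpt_eq_Real2, EquivLike.range_comp]
  simp [Prod.ext_iff]

theorem RC.gpt_conn (X : RC k (Option ι)) (Y : RC k (Option ι')) (v w : X.V ⊕ Y.V) :
    Relation.EqvGen (fun a b => ∃ ε, (X.gpt Y (.inl (.inl ε))).1 = a ∧
      (X.gpt Y (.inl (.inr ε))).1 = b) v w := by
  generalize hr : (fun a b => ∃ ε, (X.gpt Y (.inl (.inl ε))).1 = a ∧
    (X.gpt Y (.inl (.inr ε))).1 = b) = r
  have h1 : ∀ a b, Relation.EqvGen r (.inl a) (.inl b) := fun a b => by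
    induction X.conn a b with
    | rel a b h =>
      obtain ⟨ε, rfl, rfl⟩ := h
      exact .rel _ _ (hr ▸ ⟨some (.inl ε), rfl, rfl⟩)
    | refl a => exact .refl _
    | symm a b _ ih => exact ih.symm
    | trans a b c _ _ ih ih' => exact ih.trans _ _ _ ih'
  have h2 : ∀ a b, Relation.EqvGen r (.inr a) (.inr b) := fun a b => by
    induction Y.conn a b with
    | rel a b h =>
      obtain ⟨ε, rfl, rfl⟩ := h
      exact .rel _ _ (hr ▸ ⟨some (.inr ε), rfl, rfl⟩)
    | refl a => exact .refl _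
    | symm a b _ ih => exact ih.symm
    | trans a b c _ _ ih ih' => exact ih.trans _ _ _ ih'
  have h0 : r (.inl (X.pt (.inr none)).1) (.inr (Y.pt (.inr none)).1) := hr ▸ ⟨none, rfl, rfl⟩
  have h3 : ∀ a b, Relation.EqvGen r (.inl a) (.inr b) := fun a b =>
    ((h1 a _).trans _ _ _ (.rel _ _ h0)).trans _ _ _ (h2 _ b)
  rcases v with v | v <;> rcases w with w | w
  exacts [h1 v w, h3 v w, (h3 w v).symm, h2 v w]

theorem RC.gpt_stable (X : RC k (Option ι)) (Y : RC k (Option ι')) (v : X.V ⊕ Y.V) :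
    2 < Nat.card {h // (X.gpt Y h).1 = v} := by
  rw [gpt_eq_Real2]
  refine lt_of_lt_of_eq ?_ (Nat.card_congr ((side_Real2 X.E Y.E ι ι').subtypeEquiv
    (q := fun h => (Sum.elim (fun h => Prod.map Sum.inl id (X.pt h))
      (fun h => Prod.map Sum.inr id (Y.pt h)) h).1 = v) fun _ => Iff.rfl)).symm
  rcases v with v | v
  · refine (X.stable v).trans_eq (Nat.card_eq_of_bijective
      (fun h => ⟨.inl h.1, congrArg Sum.inl h.2⟩) ⟨fun a b e => Subtype.ext
        (Sum.inl_injective (congrArg Subtype.val e)), ?_⟩)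
    rintro ⟨h | h, e⟩
    · exact ⟨⟨h, Sum.inl_injective e⟩, rfl⟩
    · exact absurd e Sum.inr_ne_inl
  · refine (Y.stable v).trans_eq (Nat.card_eq_of_bijective
      (fun h => ⟨.inr h.1, congrArg Sum.inr h.2⟩) ⟨fun a b e => Subtype.ext
        (Sum.inr_injective (congrArg Subtype.val e)), ?_⟩)
    rintro ⟨h | h, e⟩
    · exact absurd e Sum.inl_ne_inr
    · exact ⟨⟨h, Sum.inr_injective e⟩, rfl⟩

theorem RC.gpt_gauge (X : RC k (Option ι)) (Y : RC k (Option ι')) (G : Type) [Group G]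
    (t : Option (X.E ⊕ Y.E) → G) : ∃ u : X.V ⊕ Y.V → G,
      ∀ ε, t ε = (u (X.gpt Y (.inl (.inl ε))).1)⁻¹ * u (X.gpt Y (.inl (.inr ε))).1 := by
  obtain ⟨u, hu⟩ := X.gauge G fun ε => t (some (.inl ε))
  obtain ⟨w, hw⟩ := Y.gauge G fun ε => t (some (.inr ε))
  refine ⟨Sum.elim u fun y => u (X.pt (.inr none)).1 * t none * (w (Y.pt (.inr none)).1)⁻¹ * w y,
    ?_⟩
  rintro (_ | ε | ε)
  · simp [RC.gpt]
  · exact hu ε
  · simp [RC.gpt, hw ε, mul_assoc]

/-- The glued tree. -/
def RC.join (X : RC k (Option ι)) (Y : RC k (Option ι')) : RC k (ι ⊕ ι') where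
  V := X.V ⊕ Y.V
  ne := X.ne.map .inl
  E := Option (X.E ⊕ Y.E)
  pt := X.gpt Y
  inj := X.gpt_inj Y
  conn := X.gpt_conn Y
  card := by
    rw [Fintype.card_option, Fintype.card_sum, Fintype.card_sum, ← X.card, ← Y.card]
    omega
  stable := X.gpt_stable Y
  gauge := X.gpt_gauge Y

end Pool.Agent.AdmG
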