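import Pool.Agent.AdmG.Real1
import Pool.Agent.AdmG.Real2

/-! Gluing two trees: the coverings. -/

namespace Pool.Agent.AdmG

open Pool.Agent.Adm
open scoped OnePoint

variable {k ι ι' : Type} [Field k]

theorem RC.adm_join (X : RC k (Option ι)) (Y : RC k (Option ι')) :
    (X.join Y).Adm = glue X.Adm Y.Adm := by
  have e1 : ∀ v : X.V, {a | (Sum.inl v, a) ∈ Set.range (X.gpt Y)} =
      {a | (v, a) ∈ Set.range X.pt} := fun v => Set.ext fun a => X.mem_range_gpt_inl Y v a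
  have e2 : ∀ v : Y.V, {a | (Sum.inr v, a) ∈ Set.range (X.gpt Y)} =
      {a | (v, a) ∈ Set.range Y.pt} := fun v => Set.ext fun a => X.mem_range_gpt_inr Y v a
  funext G _ d H
  refine propext ⟨?_, ?_⟩
  · rintro ⟨c, h1, h2, h3, h4⟩
    obtain ⟨x, hx, hx'⟩ := h2 none
    refine ⟨x, _, _, ⟨fun v => c (.inl v), fun v => e1 v ▸ h1 (.inl v),
      fun ε => h2 (some (.inl ε)), ?_, rfl⟩, ⟨fun v => c (.inr v), fun v => e2 v ▸ h1 (.inr v),
      fun ε => h2 (some (.inr ε)), ?_, rfl⟩, ?_⟩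
    · rintro (_ | i)
      · exact hx
      · exact h3 (.inl i)
    · rintro (_ | i)
      · exact hx'
      · exact h3 (.inr i)
    · exact h4.symm.trans iSup_sum
  · rintro ⟨x, H1, H2, ⟨c, a1, a2, a3, a4⟩, ⟨c', b1, b2, b3, b4⟩, rfl⟩
    refine ⟨Sum.elim c c', ?_, ?_, ?_, ?_⟩
    · rintro (v | v)
      · exact (e1 v).symm ▸ a1 v
      · exact (e2 v).symm ▸ b1 v
    · rintro (_ | ε | ε)
      · exact ⟨x, a3 none, b3 none⟩
      · exact a2 ε
      · exact b2 ε
    · rintro (i | i)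
      · exact a3 (some i)
      · exact b3 (some i)
    · rw [← a4, ← b4]
      exact iSup_sum

theorem Tr.real {P : AP k ι} (h : Tr k ι P) : ∃ X : RC k ι, X.Adm = P := by
  induction h with
  | vtx a ha h3 => exact RC.exists_vtx a ha h3
  | glue _ _ ih ih' =>
    obtain ⟨X, rfl⟩ := ih
    obtain ⟨Y, rfl⟩ := ih'
    exact ⟨X.join Y, X.adm_join Y⟩
  | reidx e _ ih =>
    obtain ⟨X, rfl⟩ := ih
    exact X.exists_reidx e

end Pool.Agent.AdmG
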