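import Pool.Agent.AdmG.Str
import Pool.Agent.AdmG.Real3
import Pool.Agent.AdmG.Close1
import Pool.Agent.AdmG.Close2
import Pool.Agent.AdmG.Close3

/-! From paths to chains of irreducible closed sets. -/

namespace Pool.Agent.AdmG

open Pool.Agent.Adm
open scoped OnePoint

theorem Nd.exists_curve {p g n : ℕ} {J : Type} [Fintype J] (hJ : Fintype.card J = g)
    (N : Nd p ((J ⊕ J) ⊕ Fin n)) :
    ∃ Y : StableCurve p g n, ∀ (G : Type) [Group G], Y.HasCover G ↔ Cl N.P G := by
  obtain ⟨X, hX⟩ := N.tr.real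
  obtain ⟨Y, hY⟩ := RC.exists_curve p g n hJ X
  exact ⟨Y, fun G _ => (hY G).trans (hX ▸ ⟨X.cl_of_cv G, X.cv_of_cl G⟩)⟩

theorem mem_U_iff {p g n : ℕ} (X : StableCurve p g n) (G : Type) [Group G] [Finite G] :
    (Quot.mk _ X : PiBar p g n) ∈ U p g n G ↔ X.HasCover G := by
  constructor
  · rintro ⟨X', h, hX'⟩
    have hw : ∀ A B : StableCurve p g n,
        (∀ (G : Type) [Group G] [Finite G], A.HasCover G ↔ B.HasCover G) →
        A.HasCover G = B.HasCover G := fun A B hAB => propext (hAB G)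
    have : X'.HasCover G = X.HasCover G :=
      congrArg (Quot.lift (fun A : StableCurve p g n => A.HasCover G) hw) h
    exact this ▸ hX'
  · intro h
    exact ⟨X, rfl, h⟩

theorem specializes_iff {p g n : ℕ} (Y X : StableCurve p g n) :
    @Specializes (PiBar p g n) _ (Quot.mk _ X) (Quot.mk _ Y) ↔ QLe Y X := by
  rw [specializes_iff_forall_open]
  constructor
  · intro h G _ _ hG
    refine (mem_U_iff X G).1 (h _ ?_ ((mem_U_iff Y G).2 hG))
    exact TopologicalSpace.GenerateOpen.basic _ ⟨G, _, inferInstance, rfl⟩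
  · intro h s hs
    induction hs with
    | basic s hs =>
      obtain ⟨G, _, _, rfl⟩ := hs
      intro hG
      exact (mem_U_iff X G).2 (h G ((mem_U_iff Y G).1 hG))
    | univ => exact fun _ => Set.mem_univ _
    | inter s t _ _ h1 h2 => exact fun hm => ⟨h1 hm.1, h2 hm.2⟩
    | sUnion S _ ih =>
      rintro ⟨t, ht, hm⟩
      exact ⟨t, ht, ih t ht hm⟩

theorem Path.le_dim {p g n : ℕ} {J : Type} [Fintype J] (hJ : Fintype.card J = g)
    {N N' : Nd p ((J ⊕ J) ⊕ Fin n)} {φ : N.k →+* N'.k} {r : ℕ} (h : Path RP N N' φ r) :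
    (r : WithBot ℕ∞) ≤ topologicalKrullDim (PiBar p g n) := by
  choose Y hY using fun M : Nd p ((J ⊕ J) ⊕ Fin n) => Nd.exists_curve hJ M
  let f : Nd p ((J ⊕ J) ⊕ Fin n) → TopologicalSpace.IrreducibleCloseds (PiBar p g n) := fun M =>
    ⟨closure {(Quot.mk _ (Y M) : PiBar p g n)}, isIrreducible_singleton.closure, isClosed_closure⟩
  have hle : ∀ M M', f M ≤ f M' ↔
      ∀ (G : Type) [Group G] [Finite G], Cl M.P G → Cl M'.P G := by
    intro M M'
    have h1 : f M ≤ f M' ↔ QLe (Y M) (Y M') := by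
      rw [← specializes_iff, specializes_iff_closure_subset]
      rfl
    rw [h1]
    exact ⟨fun h G _ _ hG => (hY M' G).1 (h G ((hY M G).2 hG)),
      fun h G _ _ hG => (hY M' G).2 (h G ((hY M G).1 hG))⟩
  have key : ∃ s : LTSeries (TopologicalSpace.IrreducibleCloseds (PiBar p g n)),
      s.length = r ∧ s.last ≤ f N' := by
    induction h with
    | refl => exact ⟨RelSeries.singleton _ (f N), rfl, le_rfl⟩
    | lift _ ψ hl ih =>
      obtain ⟨s, h1, h2⟩ := ih
      exact ⟨s, h1, h2.trans ((hle _ _).2 fun G _ _ hG => Cl.lift hl G hG)⟩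
    | @step M M' _ _ _ ψ hs ih =>
      obtain ⟨s, h1, h2⟩ := ih
      have h3 : f M < f M' := lt_of_le_not_ge ((hle _ _).2 fun G _ _ hG => Cl.lift hs.1 G hG)
        fun e => hs.not_le M.tr M'.tr ((hle _ _).1 e)
      exact ⟨s.snoc (f M') (h2.trans_lt h3), by simp [h1], by simp⟩
  obtain ⟨s, rfl, -⟩ := key
  exact Order.LTSeries.length_le_krullDim s

end Pool.Agent.AdmG
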