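import Pool.Agent.AdmG.AP
import Pool.Agent.Adm.TW

/-! Algebraic independence. -/

namespace Pool.Agent.AdmG

open Pool.Agent.Adm
open scoped OnePoint

variable {k0 k K C κ κ' : Type} [Field k0] [Field k] [Field K] [Field C]

theorem gen_iff_Ind1 (s : κ → K) :
    Function.Injective (gen s) ↔ Function.Injective s ∧ ∀ i, s i ≠ 0 ∧ s i ≠ 1 := by
  refine ⟨fun h => ⟨fun i j e => ?_, fun i => ⟨fun e => ?_, fun e => ?_⟩⟩, fun h => ?_⟩
  · simpa using h (a₁ := some (some (some i))) (a₂ := some (some (some j))) (congrArg OnePoint.some e)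
  · simpa using h (a₁ := some (some (some i))) (a₂ := some none) (congrArg OnePoint.some e)
  · simpa using h (a₁ := some (some (some i))) (a₂ := some (some none)) (congrArg OnePoint.some e)
  · rintro (_ | a) (_ | b) e
    · rfl
    · exact (OnePoint.infty_ne_coe _ e).elim
    · exact (OnePoint.coe_ne_infty _ e).elim
    · have e' : fin s a = fin s b := OnePoint.coe_injective e
      rcases a with _ | _ | a <;> rcases b with _ | _ | b
      · rfl
      · exact (zero_ne_one e').elim
      · exact ((h.2 b).1 e'.symm).elim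
      · exact (one_ne_zero e').elim
      · rfl
      · exact ((h.2 b).2 e'.symm).elim
      · exact ((h.2 a).1 e').elim
      · exact ((h.2 a).2 e').elim
      · rw [h.1 e']

theorem ind_iff (φ : k →+* K) (s : κ → K) :
    Ind φ s ↔ ∀ P : MvPolynomial κ k, MvPolynomial.eval₂ φ s P = 0 → P = 0 := by
  let := φ.toAlgebra
  exact algebraicIndependent_iff

theorem ind_empty [IsEmpty κ] (φ : k →+* K) (s : κ → K) : Ind φ s := by
  let := φ.toAlgebra
  exact algebraicIndependent_empty_type_iff.2 φ.injective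

theorem Ind.map {φ : k →+* K} {s : κ → K} (h : Ind φ s) (ψ : K →+* C) :
    Ind (ψ.comp φ) fun i => ψ (s i) := by
  refine (ind_iff _ _).2 fun P hP => (ind_iff _ _).1 h P (ψ.injective ?_)
  rw [MvPolynomial.eval₂_comp_left, map_zero]
  exact hP

theorem Ind.down {φ : k →+* K} {s : κ → K} (h : Ind φ s) (φ0 : k0 →+* k) :
    Ind (φ.comp φ0) s := by
  refine (ind_iff _ _).2 fun P hP => MvPolynomial.map_injective φ0 φ0.injective ?_
  rw [map_zero]
  exact (ind_iff _ _).1 h _ ((MvPolynomial.eval₂_map φ0 s φ P).trans hP)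

theorem Ind.comp {φ : k →+* K} {s : κ → K} (h : Ind φ s) (f : κ' → κ)
    (hf : Function.Injective f) : Ind φ fun i => s (f i) := by
  let := φ.toAlgebra
  exact AlgebraicIndependent.comp h f hf

theorem Ind.notMem {φ : k →+* K} {s : κ → K} (h : Ind φ s) (i : κ) : s i ∉ Set.range φ := by
  let := φ.toAlgebra
  rintro ⟨c, hc⟩
  exact AlgebraicIndependent.transcendental h i (hc ▸ isAlgebraic_algebraMap c)

theorem Ind.gen_inj {φ : k →+* K} {s : κ → K} (h : Ind φ s) : Function.Injective (gen s) := by
  let := φ.toAlgebra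
  exact (gen_iff_Ind1 s).2 ⟨AlgebraicIndependent.injective h, fun i =>
    ⟨fun e => h.notMem i ⟨0, (map_zero φ).trans e.symm⟩,
      fun e => h.notMem i ⟨1, (map_one φ).trans e.symm⟩⟩⟩

theorem gen_inj_iff (s : κ → K) :
    Function.Injective (gen s) ↔ Function.Injective s ∧ ∀ i, s i ≠ 0 ∧ s i ≠ 1 := by
  exact gen_iff_Ind1 s

theorem Ind.option [IsAlgClosed K] {φ : k →+* K} {s : κ → K} (h : Ind φ s) (ψ : K →+* C) (x : C)
    (hx : x ∉ Set.range ψ) : Ind (ψ.comp φ) fun o : Option κ => o.elim x fun i => ψ (s i) := by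
  refine (ind_iff _ _).2 fun P hP => (MvPolynomial.optionEquivLeft k κ).injective ?_
  have hi : Function.Injective (MvPolynomial.eval₂Hom φ s) :=
    (injective_iff_map_eq_zero _).2 ((ind_iff _ _).1 h)
  have e : (Polynomial.eval₂RingHom (ψ.comp (MvPolynomial.eval₂Hom φ s)) x).comp
      (MvPolynomial.optionEquivLeft k κ).toRingEquiv.toRingHom =
      MvPolynomial.eval₂Hom (ψ.comp φ) fun o : Option κ => o.elim x fun i => ψ (s i) := by
    refine MvPolynomial.ringHom_ext (fun c => by simp) fun o => ?_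
    cases o <;> simp
  rw [map_zero]
  by_contra h0
  refine eval₂_ne_zero_of_notMem ψ x hx _ ((Polynomial.map_ne_zero_iff hi).2 h0) ?_
  rw [Polynomial.eval₂_map]
  exact (RingHom.congr_fun e P).trans hP

theorem Ind.update [IsAlgClosed K] [DecidableEq κ] {φ : k →+* K} {s : κ → K} (A : Set κ)
    (h : Ind φ fun i : A => s i) (ψ : K →+* C) (i0 : κ) (hi : i0 ∉ A) (x : C)
    (hx : x ∉ Set.range ψ) :
    Ind (ψ.comp φ) fun i : (insert i0 A : Set κ) =>
      Function.update (fun i => ψ (s i)) i0 x i := by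
  have h1 := (h.option ψ x hx).comp (fun i : (insert i0 A : Set κ) =>
    if e : i.1 = i0 then none else some (⟨i, i.2.resolve_left e⟩ : A)) fun i j e => by
      dsimp only at e
      split_ifs at e with a b
      · exact Subtype.ext (a.trans b.symm)
      · exact Subtype.ext (congrArg (fun z : A => z.1) (Option.some.inj e))
  convert h1 using 2 with i
  by_cases e : i.1 = i0
  · rw [dif_pos e, e, Function.update_self]
    rfl
  · rw [dif_neg e, Function.update_of_ne e]
    rfl

theorem gen_update_inj [DecidableEq κ] {s : κ → K} (hs : Function.Injective (gen s))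
    (ψ : K →+* C) (i0 : κ) (x : C) (hx : x ∉ Set.range ψ) :
    Function.Injective (gen (Function.update (fun i => ψ (s i)) i0 x)) := by
  obtain ⟨h1, h2⟩ := (gen_inj_iff s).1 hs
  refine (gen_inj_iff _).2 ⟨fun i j e => ?_, fun i => ?_⟩
  · by_cases a : i = i0 <;> by_cases b : j = i0
    · rw [a, b]
    · rw [a, Function.update_self, Function.update_of_ne b] at e
      exact (hx ⟨_, e.symm⟩).elim
    · rw [b, Function.update_self, Function.update_of_ne a] at e
      exact (hx ⟨_, e⟩).elim
    · rw [Function.update_of_ne a, Function.update_of_ne b] at e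
      exact h1 (ψ.injective e)
  · by_cases a : i = i0
    · rw [a, Function.update_self]
      exact ⟨fun e => hx ⟨0, (map_zero ψ).trans e.symm⟩, fun e => hx ⟨1, (map_one ψ).trans e.symm⟩⟩
    · rw [Function.update_of_ne a]
      exact ⟨(map_ne_zero ψ).2 (h2 i).1, (map_ne_one_iff ψ ψ.injective).2 (h2 i).2⟩

end Pool.Agent.AdmG
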