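import Pool.Agent.AdmG.AP
import Pool.Agent.Adm.H1
import Pool.Agent.Adm.TR0

/-! Reparametrisation of Laurent series. -/

namespace Pool.Agent.AdmG

open Pool.Agent.Adm
open scoped OnePoint

theorem root_Rep {k : Type} [Field k] [IsAlgClosed k] (e : ℕ) (he : 0 < e) (ζ : k)
    (hζ : IsPrimitiveRoot ζ e) (w : LaurentSeries k) (ho : w.order = e)
    (hs : scL ζ (hζ.ne_zero he.ne') w = w) :
    ∃ y : PowerSeries k, PowerSeries.constantCoeff y = 0 ∧ IsUnit (PowerSeries.coeff 1 y) ∧
      HahnSeries.ofPowerSeries ℤ k (y ^ e) = w ∧ PowerSeries.rescale ζ y = ζ • y := by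
  have hw : w ≠ 0 := by
    rintro rfl
    rw [HahnSeries.order_zero] at ho
    omega
  have hek : (e : k) ≠ 0 := by
    have : NeZero e := ⟨he.ne'⟩
    exact hζ.neZero'.1
  obtain ⟨w', hw'⟩ := exists_powL_of_scL e he ζ hζ w hs
  let u : PowerSeries k := PowerSeries.mk fun n => PowerSeries.coeff (e * n) w.powerSeriesPart
  have hu : PowerSeries.expand e he.ne' u = w.powerSeriesPart := by
    ext n
    rw [PowerSeries.coeff_expand]
    split_ifs with h
    · rw [PowerSeries.coeff_mk, Nat.mul_div_cancel' h]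
    · rw [LaurentSeries.powerSeriesPart_coeff, ho, ← hw', powL_coeff_of_not_dvd]
      rwa [Int.dvd_add_right dvd_rfl, Int.natCast_dvd_natCast]
  have hu0 : PowerSeries.constantCoeff u ≠ 0 := by
    rw [← PowerSeries.coeff_zero_eq_constantCoeff_apply, PowerSeries.coeff_mk,
      LaurentSeries.powerSeriesPart_coeff]
    simpa using hw
  obtain ⟨v, hv⟩ := exists_pow_eq_ps e hek u hu0
  refine ⟨PowerSeries.X * PowerSeries.expand e he.ne' v, by simp, ?_, ?_, ?_⟩
  · rw [PowerSeries.coeff_succ_X_mul, PowerSeries.coeff_zero_eq_constantCoeff_apply,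
      PowerSeries.constantCoeff_expand]
    refine Ne.isUnit fun h0 => hu0 ?_
    rw [← hv, map_pow, h0, zero_pow he.ne']
  · rw [mul_pow, ← map_pow (PowerSeries.expand e he.ne'), hv, hu, map_mul,
      HahnSeries.ofPowerSeries_X_pow, ← ho]
    exact w.single_order_mul_powerSeriesPart
  · rw [map_mul, rescale_expand_TR0 e he.ne' ζ hζ.pow_eq_one, PowerSeries.rescale_X,
      PowerSeries.smul_eq_C_mul, mul_assoc]

theorem exists_reparam_order {k : Type} [Field k] [IsAlgClosed k] (e : ℕ) (he : 0 < e) (ζ : k)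
    (hζ : IsPrimitiveRoot ζ e) (w : LaurentSeries k) (ho : w.order = e)
    (hs : scL ζ (hζ.ne_zero he.ne') w = w) :
    ∃ Φ : LaurentSeries k →+* LaurentSeries k, (∀ c, Φ (HahnSeries.C c) = HahnSeries.C c) ∧
      Φ w = HahnSeries.single (e : ℤ) 1 ∧
      ∀ x, Φ (scL ζ (hζ.ne_zero he.ne') x) = scL ζ (hζ.ne_zero he.ne') (Φ x) := by
  obtain ⟨y, hy0, hy1, hyw, hyζ⟩ := root_Rep e he ζ hζ w ho hs
  have hy : PowerSeries.HasSubst y := PowerSeries.HasSubst.of_constantCoeff_zero' hy0
  obtain ⟨φ, hs, hr, hl⟩ : ∃ φ : PowerSeries k, PowerSeries.HasSubst φ ∧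
      y.subst φ = PowerSeries.X ∧ φ.subst y = PowerSeries.X :=
    ⟨_, PowerSeries.HasSubst.substInvOfIsUnit y hy1, y.subst_substInvOfIsUnit_right hy0 hy1,
      y.subst_substInvOfIsUnit_left hy0 hy1⟩
  have hz : PowerSeries.HasSubst (ζ • PowerSeries.X : PowerSeries k) :=
    PowerSeries.HasSubst.smul_X' ζ
  have hφne : φ ≠ 0 := by
    rintro rfl
    rw [← PowerSeries.coe_substAlgHom hy, map_zero] at hl
    exact PowerSeries.X_ne_zero hl.symm
  have key0 : ∀ ψ : PowerSeries k, PowerSeries.HasSubst ψ → PowerSeries.rescale ζ ψ = ζ • ψ →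
      ∀ f : PowerSeries k,
        (PowerSeries.rescale ζ f).subst ψ = PowerSeries.rescale ζ (f.subst ψ) := by
    intro ψ hψ h f
    rw [PowerSeries.rescale_eq_subst ζ f, PowerSeries.rescale_eq_subst,
      PowerSeries.subst_comp_subst_apply hz hψ, PowerSeries.subst_comp_subst_apply hψ hz,
      ← PowerSeries.rescale_eq_subst ζ ψ, h, PowerSeries.subst_smul hψ, PowerSeries.subst_X hψ]
  have hinv : ∀ f : PowerSeries k, PowerSeries.subst φ (f.subst y) = f := fun f => by
    rw [PowerSeries.subst_comp_subst_apply hy hs, hr, PowerSeries.X_subst]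
  have hφζ : PowerSeries.rescale ζ φ = ζ • φ := by
    rw [← hinv (PowerSeries.rescale ζ φ), key0 y hy hyζ, hl, PowerSeries.rescale_X,
      ← PowerSeries.smul_eq_C_mul, PowerSeries.subst_smul hs, PowerSeries.subst_X hs]
  let S : PowerSeries k →+* PowerSeries k :=
    (PowerSeries.substAlgHom (R := k) hs : PowerSeries k →ₐ[k] PowerSeries k)
  have hS : ∀ f, S f = PowerSeries.subst φ f := fun f =>
    congrFun (PowerSeries.coe_substAlgHom (R := k) hs) f
  have hSX : S PowerSeries.X = φ := by rw [hS, PowerSeries.subst_X hs]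
  have hSC : ∀ c : k, S (PowerSeries.C c) = PowerSeries.C c := fun c => by
    rw [hS, PowerSeries.subst_C]; rfl
  let ι : PowerSeries k →+* LaurentSeries k := HahnSeries.ofPowerSeries ℤ k
  have hι : Function.Injective ι := HahnSeries.ofPowerSeries_injective
  have hιφ : ι φ ≠ 0 := fun h0 => hφne (hι (by rw [h0, map_zero]))
  have hunit : ∀ y : Submonoid.powers (PowerSeries.X : PowerSeries k),
      IsUnit ((ι.comp S) y) := by
    rintro ⟨y, n, rfl⟩
    simp only [RingHom.comp_apply, map_pow, hSX]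
    exact (pow_ne_zero n hιφ).isUnit
  let Φ : LaurentSeries k →+* LaurentSeries k := IsLocalization.lift hunit
  have hΦ : ∀ f : PowerSeries k, Φ (ι f) = ι (S f) := fun f =>
    IsLocalization.lift_eq hunit f
  have hιC : ∀ c : k, ι (PowerSeries.C c) = HahnSeries.C c := fun c =>
    HahnSeries.ofPowerSeries_C c
  refine ⟨Φ, fun c => ?_, ?_, ?_⟩
  · rw [← hιC, hΦ, hSC]
  · rw [← hyw, hΦ, map_pow S, hS, hr]
    exact HahnSeries.ofPowerSeries_X_pow e
  · have hsc : ∀ f : PowerSeries k, scL ζ (hζ.ne_zero he.ne') (ι f) =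
        ι (PowerSeries.rescale ζ f) := fun f => scL_coe ζ _ f
    have : Φ.comp (scL ζ (hζ.ne_zero he.ne')) = (scL ζ (hζ.ne_zero he.ne')).comp Φ := by
      apply IsLocalization.ringHom_ext (Submonoid.powers (PowerSeries.X : PowerSeries k))
      refine RingHom.ext fun f => ?_
      change Φ (scL ζ (hζ.ne_zero he.ne') (ι f)) = scL ζ (hζ.ne_zero he.ne') (Φ (ι f))
      rw [hsc, hΦ, hΦ, hsc, hS, hS, key0 φ hs hφζ]
    exact fun x => DFunLike.congr_fun this x

end Pool.Agent.AdmG
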