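import Pool.Agent.AdmG.Plc
import Pool.Agent.AdmG.Rep

/-! The two notions of local monodromy agree on the line. -/

namespace Pool.Agent.AdmG

open Pool.Agent.Adm
open scoped OnePoint

theorem order_powL_MonoE {k : Type} [Field k] (e : ℕ) (he : 0 < e) (x : LaurentSeries k) :
    (powL e he x).order = e * x.order := by
  rcases eq_or_ne x 0 with rfl | hx
  · simp
  have h0 : (0 : ℤ) < e := by exact_mod_cast he
  refine le_antisymm (HahnSeries.order_le_of_coeff_ne_zero ?_) ?_
  · rw [powL_coeff_mul]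
    exact HahnSeries.coeff_order_eq_zero.not.2 hx
  · have h1 : (powL e he x).coeff (powL e he x).order ≠ 0 :=
      HahnSeries.coeff_order_eq_zero.not.2 ((map_ne_zero (powL e he)).2 hx)
    by_cases hd : (e : ℤ) ∣ (powL e he x).order
    · obtain ⟨l, hl⟩ := hd
      rw [hl, powL_coeff_mul] at h1
      rw [hl]
      exact mul_le_mul_of_nonneg_left (HahnSeries.order_le_of_coeff_ne_zero h1) h0.le
    · exact absurd (powL_coeff_of_not_dvd _ _ _ _ hd) h1

theorem reparam_MonoE {k G : Type} [Field k] [IsAlgClosed k] [Group G] (c : Cover k G)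
    {P : Place k (RatFunc k)} {e : ℕ} {ζ : k} {g : G} (h : (toCov c).Mono P e ζ g)
    (f : RatFunc k) (hf : P.1 f = WithZero.exp (-1)) :
    ∃ j : c.L →+* LaurentSeries k,
      (∀ x : k, j (algebraMap (RatFunc k) c.L (RatFunc.C x)) = HahnSeries.C x) ∧
      j (algebraMap (RatFunc k) c.L f) = HahnSeries.single (e : ℤ) 1 ∧
      ∃ σ : c.L ≃ₐ[RatFunc k] c.L, c.ι σ = g ∧
        ∀ (x : c.L) (n : ℤ), (j (σ x)).coeff n = ζ ^ n * (j x).coeff n := by
  obtain ⟨he, hζ, j, h1, h2, σ, h3, h4⟩ := h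
  have h5 : ∀ x, j (σ x) = scL ζ (hζ.ne_zero he.ne') (j x) := fun x => by
    ext n
    exact h4 x n
  obtain ⟨Φ, a1, a2, a3⟩ := exists_reparam_order e he ζ hζ (j (algebraMap _ _ f))
    (by rw [h2 f 1 hf, mul_one]) (by rw [← h5, σ.commutes])
  refine ⟨Φ.comp j, fun x => ?_, a2, σ, h3, fun x n => ?_⟩
  · exact (congrArg Φ (h1 x)).trans (a1 x)
  · change (Φ (j (σ x))).coeff n = ζ ^ n * (Φ (j x)).coeff n
    rw [h5, a3, scL_coeff]

theorem IsPlc.mono_iff {k G : Type} [Field k] [IsAlgClosed k] [Group G]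
    {π : OnePoint k → Place k (RatFunc k)} (hπ : IsPlc π) (c : Cover k G) (a : OnePoint k)
    (e : ℕ) (ζ : k) (g : G) : (toCov c).Mono (π a) e ζ g ↔ c.Mono a e ζ g := by
  constructor
  · intro h
    refine ⟨h.1, h.2.1, ?_⟩
    induction a using OnePoint.rec with
    | infty =>
      have h1 := hπ.val_infty Polynomial.X Polynomial.X_ne_zero
      rw [RatFunc.algebraMap_X, Polynomial.natDegree_X] at h1
      obtain ⟨j, a1, a2, a3⟩ := reparam_MonoE c h (RatFunc.X)⁻¹
        (by rw [map_inv₀, h1, WithZero.exp_neg]; rfl)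
      refine ⟨j, a1, ?_, a3⟩
      rw [map_inv₀, map_inv₀, inv_eq_iff_eq_inv] at a2
      rw [a2]
      refine inv_eq_of_mul_eq_one_right ?_
      change _ * HahnSeries.single (-(e : ℤ)) (1 : k) = 1
      rw [HahnSeries.single_mul_single, add_neg_cancel, mul_one, HahnSeries.single_zero_one]
    | coe b =>
      have h1 := hπ.val_coe b (Polynomial.X - Polynomial.C b) (Polynomial.X_sub_C_ne_zero b)
      rw [Polynomial.rootMultiplicity_X_sub_C_self, map_sub, RatFunc.algebraMap_X,
        RatFunc.algebraMap_C] at h1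
      obtain ⟨j, a1, a2, a3⟩ := reparam_MonoE c h _ h1
      refine ⟨j, a1, ?_, a3⟩
      rw [map_sub, map_sub, a1, sub_eq_iff_eq_add'] at a2
      exact a2
  · rintro ⟨he, hζ, j, h1, h2, σ, h3, h4⟩
    refine ⟨he, hζ, j, h1, fun f m hf => ?_, σ, h3, h4⟩
    obtain ⟨J, b1, b2⟩ :=
      exists_ratFunc_hom HahnSeries.C (expand a 1) (eval₂_expand_ne_zero a 1 one_pos)
    have b3 : j.comp (algebraMap (RatFunc k) c.L) = (powL e he).comp J :=
      ratFunc_hom_ext _ _ (fun x => by simp only [RingHom.comp_apply, h1, b1, powL_C])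
        (by simp only [RingHom.comp_apply, h2, b2, powL_expand, mul_one])
    have b4 : f ≠ 0 := by
      rintro rfl
      rw [map_zero] at hf
      exact WithZero.exp_ne_zero hf.symm
    have b5 : -m = -(J f).order := WithZero.exp_injective (hf.symm.trans (hπ a J b1 b2 f b4))
    have b6 : j (algebraMap (RatFunc k) c.L f) = powL e he (J f) := DFunLike.congr_fun b3 f
    change (j (algebraMap (RatFunc k) c.L f)).order = e * m
    rw [b6, order_powL_MonoE, neg_inj.1 b5]

end Pool.Agent.AdmG
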