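import Pool.Agent.AdmG.AP
import Pool.Agent.Adm.H1

/-! Places of the rational function field. -/

namespace Pool.Agent.AdmG

open Pool.Agent.Adm
open scoped OnePoint
open Polynomial

variable {k : Type} [Field k] {π : OnePoint k → Place k (RatFunc k)}

open Classical in
/-- The order valuation on Laurent series. -/
noncomputable def ordVal_Plc (k : Type) [Field k] :
    Valuation (LaurentSeries k) (WithZero (Multiplicative ℤ)) where
  toFun x := if x = 0 then 0 else WithZero.exp (-x.order)
  map_zero' := by simp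
  map_one' := by simp
  map_mul' x y := by
    by_cases hx : x = 0
    · simp [hx]
    by_cases hy : y = 0
    · simp [hy]
    rw [if_neg (mul_ne_zero hx hy), if_neg hx, if_neg hy, HahnSeries.order_mul hx hy, neg_add,
      WithZero.exp_add]
  map_add_le_max' x y := by
    by_cases h : x + y = 0
    · simp [h]
    by_cases hx : x = 0
    · simp [hx]
    by_cases hy : y = 0
    · simp [hy]
    simp only [if_neg h, if_neg hx, if_neg hy, le_max_iff, WithZero.exp_le_exp, neg_le_neg_iff]
    exact min_le_iff.1 (HahnSeries.min_order_le_order_add h)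

theorem ordVal_apply_Plc {x : LaurentSeries k} (hx : x ≠ 0) :
    ordVal_Plc k x = WithZero.exp (-x.order) := if_neg hx

theorem surj_Plc {K : Type} [Field K] (v : Valuation K (WithZero (Multiplicative ℤ))) (t : K)
    (ht : v t = WithZero.exp 1) : Function.Surjective v := by
  intro γ
  rcases eq_or_ne γ 0 with rfl | h
  · exact ⟨0, map_zero v⟩
  · refine ⟨t ^ WithZero.log γ, ?_⟩
    rw [map_zpow₀, ht, ← WithZero.exp_zsmul, smul_eq_mul, mul_one, WithZero.exp_log h]

theorem ord_coe_Plc (a : k) (j : RatFunc k →+* LaurentSeries k)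
    (hC : ∀ c, j (RatFunc.C c) = HahnSeries.C c) (hX : j RatFunc.X = expand (a : OnePoint k) 1)
    (P : k[X]) (hP : P ≠ 0) :
    (j (algebraMap k[X] (RatFunc k) P)).order = P.rootMultiplicity a := by
  rw [hom_algebraMap j HahnSeries.C _ hC hX, order_eval₂_expand_coe a 1 one_pos P hP]
  simp

theorem ord_infty_Plc (j : RatFunc k →+* LaurentSeries k)
    (hC : ∀ c, j (RatFunc.C c) = HahnSeries.C c) (hX : j RatFunc.X = expand (∞ : OnePoint k) 1)
    (P : k[X]) (hP : P ≠ 0) :
    (j (algebraMap k[X] (RatFunc k) P)).order = -(P.natDegree : ℤ) := by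
  rw [hom_algebraMap j HahnSeries.C _ hC hX, order_eval₂_expand_infty 1 one_pos P hP]
  simp

theorem exists_isPlc (k : Type) [Field k] : ∃ π : OnePoint k → Place k (RatFunc k), IsPlc π := by
  choose J hC hX using fun a : OnePoint k => exists_chart a 1 one_pos
  have hne : ∀ a (f : RatFunc k), f ≠ 0 → J a f ≠ 0 := fun a f hf => (map_ne_zero (J a)).2 hf
  have hP : ∀ P : k[X], P ≠ 0 → algebraMap k[X] (RatFunc k) P ≠ 0 := fun P h =>
    RatFunc.algebraMap_ne_zero h
  refine ⟨fun a => ⟨(ordVal_Plc k).comap (J a), ?_, fun c hc => ?_⟩, fun a j h1 h2 f hf => ?_⟩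
  · induction a using OnePoint.rec with
    | infty =>
      refine surj_Plc _ (algebraMap k[X] (RatFunc k) X) ?_
      rw [Valuation.comap_apply, ordVal_apply_Plc (hne _ _ (hP _ X_ne_zero)),
        ord_infty_Plc _ (hC _) (hX _) _ X_ne_zero]
      simp
    | coe a =>
      refine surj_Plc _ (algebraMap k[X] (RatFunc k) (X - C a))⁻¹ ?_
      rw [map_inv₀, Valuation.comap_apply, ordVal_apply_Plc (hne _ _ (hP _ (X_sub_C_ne_zero a))),
        ord_coe_Plc a _ (hC _) (hX _) _ (X_sub_C_ne_zero a), rootMultiplicity_X_sub_C_self,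
        ← WithZero.exp_neg]
      simp
  · rw [Valuation.comap_apply, RatFunc.algebraMap_eq_C, hC,
      ordVal_apply_Plc (HahnSeries.C_ne_zero hc), HahnSeries.order_C]
    simp
  · obtain rfl : j = J a := ratFunc_hom_ext _ _ (fun c => (h1 c).trans (hC a c).symm)
      (h2.trans (hX a).symm)
    exact ordVal_apply_Plc (hne a f hf)

theorem IsPlc.val_coe (hπ : IsPlc π) (a : k) (P : k[X]) (hP : P ≠ 0) :
    (π a).1 (algebraMap k[X] (RatFunc k) P) = WithZero.exp (-(P.rootMultiplicity a : ℤ)) := by
  obtain ⟨j, hC, hX⟩ := exists_chart (a : OnePoint k) 1 one_pos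
  rw [hπ a j hC hX _ (RatFunc.algebraMap_ne_zero hP), ord_coe_Plc a j hC hX P hP]

theorem IsPlc.val_infty (hπ : IsPlc π) (P : k[X]) (hP : P ≠ 0) :
    (π ∞).1 (algebraMap k[X] (RatFunc k) P) = WithZero.exp (P.natDegree : ℤ) := by
  obtain ⟨j, hC, hX⟩ := exists_chart (∞ : OnePoint k) 1 one_pos
  rw [hπ ∞ j hC hX _ (RatFunc.algebraMap_ne_zero hP), ord_infty_Plc j hC hX P hP, neg_neg]

theorem IsPlc.injective (hπ : IsPlc π) : Function.Injective π := by
  classical
  have h1 : ∀ a : k, π ∞ ≠ π a := fun a e => by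
    have h2 := hπ.val_infty (X - C a) (X_sub_C_ne_zero a)
    rw [e, hπ.val_coe a _ (X_sub_C_ne_zero a), rootMultiplicity_X_sub_C_self, natDegree_X_sub_C,
      WithZero.exp_inj] at h2
    omega
  intro a b e
  induction a using OnePoint.rec with
  | infty =>
    induction b using OnePoint.rec with
    | infty => rfl
    | coe b => exact absurd e (h1 b)
  | coe a =>
    induction b using OnePoint.rec with
    | infty => exact absurd e.symm (h1 a)
    | coe b =>
      have h2 := hπ.val_coe a (X - C a) (X_sub_C_ne_zero a)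
      rw [e, hπ.val_coe b _ (X_sub_C_ne_zero a), rootMultiplicity_X_sub_C_self,
        rootMultiplicity_X_sub_C, WithZero.exp_inj] at h2
      by_contra hne
      rw [if_neg fun h => hne (by rw [h])] at h2
      omega

end Pool.Agent.AdmG
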