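import Pool.Agent.AdmG.Plc

/-! Every place of k(X) is the place of a point. -/

namespace Pool.Agent.AdmG

open Pool.Agent.Adm
open scoped OnePoint
open Polynomial

theorem const_Plc2 {k : Type} [Field k] (v : Place k (RatFunc k)) {c : k} (hc : c ≠ 0) :
    v.1 (algebraMap k[X] (RatFunc k) (C c)) = 1 := by
  have h := v.2.2 c hc
  rwa [IsScalarTower.algebraMap_apply k k[X] (RatFunc k), Polynomial.algebraMap_eq] at h

open WithZero in
theorem gt_Plc2 {x : WithZero (Multiplicative ℤ)} (h : 1 < x) : ∃ e : ℕ, x = exp (e : ℤ) := by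
  have h0 : x ≠ 0 := (zero_lt_one.trans h).ne'
  rw [← exp_log h0, ← exp_zero, exp_lt_exp] at h
  exact ⟨(log x).toNat, by rw [Int.toNat_of_nonneg h.le, exp_log h0]⟩

open WithZero in
theorem lt_Plc2 {x : WithZero (Multiplicative ℤ)} (h0 : x ≠ 0) (h : x < 1) :
    ∃ e : ℕ, x = exp (-(e : ℤ)) := by
  rw [← exp_log h0, ← exp_zero, exp_lt_exp] at h
  exact ⟨(-log x).toNat, by rw [Int.toNat_of_nonneg (by omega), neg_neg, exp_log h0]⟩

theorem eq_Plc2 {k : Type} [Field k] [IsAlgClosed k] (v w : Place k (RatFunc k)) (e : ℕ)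
    (h : ∀ a : k, v.1 (algebraMap k[X] (RatFunc k) (X - C a))
      = w.1 (algebraMap k[X] (RatFunc k) (X - C a)) ^ e) : w = v := by
  have h1 : ∀ s : Multiset k, v.1 (algebraMap k[X] (RatFunc k) (s.map fun a => X - C a).prod)
      = w.1 (algebraMap k[X] (RatFunc k) (s.map fun a => X - C a).prod) ^ e := by
    intro s
    induction s using Multiset.induction_on with
    | empty => simp
    | cons a s ih => simp only [Multiset.map_cons, Multiset.prod_cons, map_mul, mul_pow, h, ih]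
  have h2 : ∀ P : k[X], P ≠ 0 → v.1 (algebraMap k[X] (RatFunc k) P)
      = w.1 (algebraMap k[X] (RatFunc k) P) ^ e := by
    intro P hP
    have hl := leadingCoeff_ne_zero.2 hP
    rw [(IsAlgClosed.splits P).eq_prod_roots, map_mul, map_mul, map_mul, const_Plc2 v hl,
      const_Plc2 w hl, one_mul, one_mul, h1]
  have h3 : ∀ f : RatFunc k, f ≠ 0 → v.1 f = w.1 f ^ e := by
    intro f hf
    rw [← RatFunc.num_div_denom f, map_div₀, map_div₀, h2 _ (RatFunc.num_ne_zero hf),
      h2 _ (RatFunc.denom_ne_zero f), div_pow]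
  obtain ⟨f, hf⟩ := v.2.1 (WithZero.exp 1)
  have hf0 : f ≠ 0 := by
    rintro rfl
    rw [map_zero] at hf
    exact WithZero.exp_ne_zero hf.symm
  have hw : w.1 f ≠ 0 := by simpa using hf0
  have he : e = 1 := by
    rw [h3 f hf0, ← WithZero.exp_log hw, ← WithZero.exp_nsmul, WithZero.exp_inj,
      nsmul_eq_mul] at hf
    exact_mod_cast Int.eq_one_of_mul_eq_one_right (Int.natCast_nonneg e) hf
  refine Subtype.ext (Valuation.ext fun g => ?_)
  rcases eq_or_ne g 0 with rfl | hg
  · simp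
  · rw [h3 g hg, he, pow_one]

theorem IsPlc.surjective {k : Type} [Field k] [IsAlgClosed k]
    {π : OnePoint k → Place k (RatFunc k)} (hπ : IsPlc π) : Function.Surjective π := by
  intro v
  have hC : ∀ c : k, v.1 (algebraMap k[X] (RatFunc k) (C c)) ≤ 1 := fun c => by
    rcases eq_or_ne c 0 with rfl | hc
    · simp
    · exact (const_Plc2 v hc).le
  have hne : ∀ a : k, v.1 (algebraMap k[X] (RatFunc k) (X - C a)) ≠ 0 := fun a => by
    rw [ne_eq, map_eq_zero, FaithfulSMul.algebraMap_eq_zero_iff]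
    exact X_sub_C_ne_zero a
  rcases lt_or_ge 1 (v.1 (algebraMap k[X] (RatFunc k) X)) with hX | hX
  · obtain ⟨e, he⟩ := gt_Plc2 hX
    refine ⟨∞, eq_Plc2 v _ e fun a => ?_⟩
    rw [hπ.val_infty _ (X_sub_C_ne_zero a), natDegree_X_sub_C, map_sub,
      v.1.map_sub_eq_of_lt_left ((hC a).trans_lt hX), he, ← WithZero.exp_nsmul]
    simp
  · by_cases h1 : ∀ a : k, v.1 (algebraMap k[X] (RatFunc k) (X - C a)) = 1
    · exact ⟨∞, eq_Plc2 v _ 0 fun a => by rw [h1, pow_zero]⟩
    · obtain ⟨a, ha⟩ := not_forall.1 h1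
      have hlt : v.1 (algebraMap k[X] (RatFunc k) (X - C a)) < 1 :=
        lt_of_le_of_ne (by rw [map_sub]; exact v.1.map_sub_le hX (hC a)) ha
      obtain ⟨e, he⟩ := lt_Plc2 (hne a) hlt
      refine ⟨a, eq_Plc2 v _ e fun b => ?_⟩
      rw [hπ.val_coe _ _ (X_sub_C_ne_zero b), ← WithZero.exp_nsmul]
      rcases eq_or_ne b a with rfl | hb
      · rw [he, rootMultiplicity_X_sub_C_self]
        simp
      · have e1 : (X - C b : k[X]) = C (a - b) + (X - C a) := by rw [map_sub]; ring
        have e2 := const_Plc2 v (sub_ne_zero.2 hb.symm)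
        rw [rootMultiplicity_eq_zero (by simpa using sub_ne_zero.2 hb.symm), e1, map_add,
          v.1.map_add_eq_of_lt_left (by rw [e2]; exact hlt), e2]
        simp

end Pool.Agent.AdmG
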