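import Pool.Agent.AdmG.AP

/-! One line, and renumbering. -/

namespace Pool.Agent.AdmG

open Pool.Agent.Adm
open scoped OnePoint

variable {k ι ι' : Type} [Field k]

/-- The line with marked points a. -/
def vtx_Real1 (a : ι → OnePoint k) (ha : Function.Injective a) (h3 : 2 < Nat.card ι) :
    RC k ι where
  V := Unit
  ne := ⟨()⟩
  E := Empty
  pt := Sum.elim (Sum.elim Empty.elim Empty.elim) fun i => ((), a i)
  inj := by
    rintro ((e | e) | i) ((e' | e') | j) h
    all_goals first | exact e.elim | exact e'.elim | skip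
    exact congrArg Sum.inr (ha (congrArg Prod.snd h))
  conn := fun _ _ => Relation.EqvGen.refl _
  card := rfl
  stable := fun v => by
    refine h3.trans_eq (Nat.card_congr ?_)
    exact
      { toFun := fun i => ⟨.inr i, rfl⟩
        invFun := fun h => Sum.elim (Sum.elim Empty.elim Empty.elim) id h.1
        left_inv := fun _ => rfl
        right_inv := by
          rintro ⟨(e | e) | i, h⟩
          · exact e.elim
          · exact e.elim
          · rfl }
  gauge := fun _ _ _ => ⟨fun _ => 1, fun ε => ε.elim⟩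

theorem range_vtx_Real1 (a : ι → OnePoint k) (ha : Function.Injective a) (h3 : 2 < Nat.card ι)
    (v : Unit) : {b | (v, b) ∈ Set.range (vtx_Real1 a ha h3).pt} = Set.range a := by
  ext b
  constructor
  · rintro ⟨(e | e) | i, h⟩
    · exact e.elim
    · exact e.elim
    · exact ⟨i, congrArg Prod.snd h⟩
  · rintro ⟨i, rfl⟩
    exact ⟨.inr i, rfl⟩

theorem RC.exists_vtx [Finite ι] (a : ι → OnePoint k) (ha : Function.Injective a)
    (h3 : 2 < Nat.card ι) : ∃ X : RC k ι, X.Adm = vtx a := by
  refine ⟨vtx_Real1 a ha h3, ?_⟩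
  funext G _ d H
  refine propext ⟨?_, ?_⟩
  · rintro ⟨c, h1, -, h2, h4⟩
    refine ⟨c (), ?_, h2, ?_⟩
    · exact range_vtx_Real1 a ha h3 () ▸ h1 ()
    · rw [← h4]
      exact (iSup_unique (ι := Unit) (f := fun v => (c v).ι.range)).symm
  · rintro ⟨c, h1, h2, h4⟩
    refine ⟨fun _ => c, fun v => ?_, fun ε => ε.elim, h2, ?_⟩
    · exact (range_vtx_Real1 a ha h3 v).symm ▸ h1
    · rw [← h4]
      exact iSup_unique (ι := Unit) (f := fun _ => c.ι.range)

/-- Renumbering of the marked points of a tree. -/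
def reidx_Real1 (e : ι ≃ ι') (X : RC k ι) : RC k ι' where
  V := X.V
  ne := X.ne
  E := X.E
  pt := X.pt ∘ Equiv.sumCongr (Equiv.refl _) e.symm
  inj := X.inj.comp (Equiv.injective _)
  conn := X.conn
  card := X.card
  stable := fun v => (X.stable v).trans_eq (Nat.card_congr
    (Equiv.subtypeEquiv (Equiv.sumCongr (Equiv.refl _) e.symm) fun _ => Iff.rfl).symm)
  gauge := X.gauge

theorem RC.exists_reidx (e : ι ≃ ι') (X : RC k ι) : ∃ Y : RC k ι', Y.Adm = reidx e X.Adm := by
  refine ⟨reidx_Real1 e X, ?_⟩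
  have hr : Set.range (reidx_Real1 e X).pt = Set.range X.pt :=
    (Equiv.surjective _).range_comp X.pt
  funext G _ d H
  refine propext ⟨?_, ?_⟩
  · rintro ⟨c, h1, h2, h3, h4⟩
    refine ⟨c, fun v => hr ▸ h1 v, h2, fun i => ?_, h4⟩
    have := h3 (e i)
    have e1 : (reidx_Real1 e X).pt (.inr (e i)) = X.pt (.inr i) :=
      congrArg (fun j => X.pt (.inr j)) (e.symm_apply_apply i)
    rw [e1] at this
    exact this
  · rintro ⟨c, h1, h2, h3, h4⟩
    refine ⟨c, fun v => hr.symm ▸ h1 v, h2, fun i => ?_, h4⟩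
    have := h3 (e.symm i)
    simp only [Equiv.apply_symm_apply] at this
    exact this

end Pool.Agent.AdmG
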