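import Pool.Agent.AdmG.Ext3
import Pool.Agent.AdmG.Fx
import Pool.Agent.AdmG.Ctx2
import Pool.Agent.AdmG.Nice
import Pool.Agent.AdmG.Lf
import Pool.Agent.Adm.Kap

/-! The smoothing steps are strict. -/

namespace Pool.Agent.AdmG

open Pool.Agent.Adm
open scoped OnePoint
open Polynomial

theorem exists_theta (p : ℕ) [Fact p.Prime] (k : Type) [Field k] [IsAlgClosed k] [CharP k p] :
    ∃ (F : Type) (_ : Field F) (_ : Fintype F) (_ : F →+* k), Fintype.card F = p ^ 2 := by
  classical
  let : Algebra (ZMod p) k := ZMod.algebra k p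
  let : Fintype (GaloisField p 2) := Fintype.ofFinite _
  refine ⟨GaloisField p 2, inferInstance, inferInstance,
    (IsAlgClosed.lift : GaloisField p 2 →ₐ[ZMod p] k).toRingHom, ?_⟩
  rw [← Nat.card_eq_fintype_card, GaloisField.card p 2 two_ne_zero]

variable {k k' κ : Type} [Field k] [IsAlgClosed k] [Field k'] [IsAlgClosed k'] [Fintype κ]

omit [IsAlgClosed k] in
theorem step_aux_St1 (p : ℕ) [hp : Fact p.Prime] [CharP k p] (φ : k →+* k') {F : Type} [Field F]
    [Fintype F] (θ : F →+* k) (hF : Fintype.card F = p ^ 2) {P : AP k (W κ)} (hP : Nice P)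
    (u : κ → k') (hu : Function.Injective (gen u)) (hl : Lifts φ P (vtx (gen u))) (j0 : κ)
    (hfix : ∀ N : W κ → ℤ, N (some none) = (p : ℤ) ^ 2 - p - 1 → N (some (some none)) = p →
      N (some (some (some j0))) = 1 → (∀ j, j ≠ j0 → N (some (some (some j))) = 0) →
      AllFix θ P N) : Step R0 φ P (vtx (gen u)) := by
  classical
  have h2 : 2 ≤ p := hp.out.two_le
  have h3 : p + 2 ≤ p ^ 2 := by nlinarith
  have : CharP k' p := charP_of_injective_ringHom φ.injective p
  let n : Option (Option κ) → ℕ := fun o =>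
    o.elim (p ^ 2 - p - 1) fun o => o.elim p fun j => if j = j0 then 1 else 0
  have hs : ∑ i, n i = p ^ 2 := by
    simp only [n, Fintype.sum_option, Option.elim_none, Option.elim_some, Finset.sum_ite_eq',
      Finset.mem_univ, if_true]
    omega
  have h0 : u j0 ≠ 0 := fun e => by
    have : gen u (some (some (some j0))) = gen u (some none) := by
      simp only [gen, Option.elim_none, Option.elim_some, e]
    simpa using hu this
  refine step_of φ θ hP u hu hl n ?_ (by omega) (by omega) ?_ (hfix _ ?_ rfl ?_ fun j hj => ?_)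
  · rintro (_ | _ | j)
    · change p ^ 2 - p - 1 < _
      omega
    · change p < _
      omega
    · change (if j = j0 then 1 else 0) < _
      split_ifs <;> omega
  · rw [coeff_prod_pred _ n _ (by omega), neg_ne_zero]
    simpa [n, fin, Fintype.sum_option] using h0
  · change ((p ^ 2 - p - 1 : ℕ) : ℤ) = _
    rw [Nat.cast_sub (by omega), Nat.cast_sub (by omega)]
    push_cast
    rfl
  · simp [n]
  · simp [n, hj]

theorem step_two (p : ℕ) [Fact p.Prime] [CharP k p] (φ : k →+* k') (s : κ → k)
    (hs : Function.Injective (gen s)) (u : Option κ → k') (hu : Function.Injective (gen u))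
    (hl : Lifts φ (two (vtx (gen s))) (vtx (gen u))) :
    Step R0 φ (two (vtx (gen s))) (vtx (gen u)) := by
  obtain ⟨F, _, _, θ, hF⟩ := exists_theta p k
  exact step_aux_St1 p φ θ hF (tr_gen s hs).two.nice u hu hl none fun N h0 h1 h2 h3 =>
    allFix_two θ p Fact.out hF s hs N h0 h1 h2 fun i => h3 _ (by simp)

theorem step_three (p : ℕ) [Fact p.Prime] [CharP k p] (φ : k →+* k') (s s' : κ → k)
    (hs : Function.Injective (gen s)) (hs' : Function.Injective (gen s'))
    (u : Option κ ⊕ Option κ → k') (hu : Function.Injective (gen u))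
    (hl : Lifts φ (three (vtx (gen s)) (vtx (gen s'))) (vtx (gen u))) :
    Step R0 φ (three (vtx (gen s)) (vtx (gen s'))) (vtx (gen u)) := by
  obtain ⟨F, _, _, θ, hF⟩ := exists_theta p k
  exact step_aux_St1 p φ θ hF ((tr_gen s hs).three (tr_gen s' hs')).nice u hu hl (.inl none)
    fun N h0 h1 h2 h3 => allFix_three θ p Fact.out hF s s' hs hs' N h0 h1 h2
      (fun i => h3 _ (by simp)) fun o => h3 _ (by simp)

end Pool.Agent.AdmG
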