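import Pool.Agent.AdmG.Ext3
import Pool.Agent.AdmG.Fx
import Pool.Agent.AdmG.St1
import Pool.Agent.AdmG.Nice
import Pool.Agent.Adm.Kap

/-! Moving a point off the involution locus is strict. -/

namespace Pool.Agent.AdmG

open Pool.Agent.Adm
open scoped OnePoint
open Polynomial

/-- The labels at the finite points. -/
def lab_St2 {κ : Type} [DecidableEq κ] (p : ℕ) (i0 i1 : κ) : Option (Option κ) → ℕ := fun o =>
  o.elim (p - 1) fun o => o.elim (p ^ 2 - 2) fun i =>
    (if i = i0 then 1 else 0) + (if i = i1 then 1 else 0)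

theorem sum_erase_St2 {κ M : Type} [Fintype κ] [DecidableEq κ] [AddCommMonoid M]
    (f : Option (Option κ) → M) :
    ∑ i ∈ Finset.univ.erase (some none), f i = f none + ∑ i, f (some (some i)) := by
  rw [← Finset.filter_ne', Finset.sum_filter, Fintype.sum_option, Fintype.sum_option]
  simp

theorem sum_lab_St2 {κ : Type} [Fintype κ] [DecidableEq κ] (p : ℕ) (i0 i1 : κ) :
    ∑ i, lab_St2 p i0 i1 (some (some i)) = 2 := by
  simp [lab_St2, Finset.sum_add_distrib]

theorem coeff_St2 {K κ : Type} [Field K] [Fintype κ] [DecidableEq κ] (p : ℕ) [Fact p.Prime]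
    [CharP K p] (s : κ → K) (hs : Function.Injective (gen s)) (i0 i1 : κ) :
    (∏ j, (X - C (fin s j)) ^ lab_St2 p i0 i1 j : K[X]).coeff (p ^ 2 - 1) = 0 ↔
      s i0 * s i1 = 1 := by
  have hp : 2 ≤ p := (Fact.out : p.Prime).two_le
  have hi := fin_inj hs
  have hne : ∀ i, 1 - s i ≠ 0 := fun i e => by
    have : fin s (some none) = fin s (some (some i)) := sub_eq_zero.1 e
    cases hi this
  rw [coeff_prod_one p 2 two_pos (fin s) hi (lab_St2 p i0 i1) (some none) rfl rfl (by
    rw [sum_erase_St2, sum_lab_St2]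
    change p - 1 + 2 ≤ p ^ 2
    have : p * 2 ≤ p * p := Nat.mul_le_mul_left p hp
    rw [pow_two]
    omega), sum_erase_St2]
  have e1 : ((lab_St2 p i0 i1 none : ℕ) : K) / (1 - fin s none) = -1 := by
    change ((p - 1 : ℕ) : K) / (1 - 0) = -1
    rw [Nat.cast_sub (by omega), CharP.cast_eq_zero]
    simp
  have e2 : ∑ i, ((lab_St2 p i0 i1 (some (some i)) : ℕ) : K) / (1 - fin s (some (some i))) =
      1 / (1 - s i0) + 1 / (1 - s i1) := by
    have : ∀ i, ((lab_St2 p i0 i1 (some (some i)) : ℕ) : K) / (1 - fin s (some (some i))) =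
        (if i = i0 then 1 / (1 - s i) else 0) + (if i = i1 then 1 / (1 - s i) else 0) := by
      intro i
      change (((if i = i0 then 1 else 0) + (if i = i1 then 1 else 0) : ℕ) : K) / (1 - s i) = _
      rw [Nat.cast_add, add_div]
      congr 1 <;> split_ifs <;> simp
    simp only [this, Finset.sum_add_distrib, Finset.sum_ite_eq', Finset.mem_univ, if_true]
  rw [e1, e2]
  have a0 := hne i0
  have a1 := hne i1
  have e3 : -1 + (1 / (1 - s i0) + 1 / (1 - s i1)) =
      (1 - s i0 * s i1) / ((1 - s i0) * (1 - s i1)) := by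
    field_simp
    ring
  rw [e3, div_eq_zero_iff, or_iff_left (mul_ne_zero a0 a1), sub_eq_zero, eq_comm]

variable {k k' κ : Type} [Field k] [IsAlgClosed k] [Field k'] [IsAlgClosed k'] [Fintype κ]

theorem step_move (p : ℕ) [Fact p.Prime] [CharP k p] (φ : k →+* k') (s : κ → k)
    (hs : Function.Injective (gen s)) (u : κ → k') (hu : Function.Injective (gen u))
    (hl : Lifts φ (vtx (gen s)) (vtx (gen u))) (i0 i1 : κ) (hne : i0 ≠ i1)
    (h : s i0 * s i1 = 1) (h' : u i0 * u i1 ≠ 1) : Step R0 φ (vtx (gen s)) (vtx (gen u)) := by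
  classical
  obtain ⟨F, _, _, θ, hF⟩ := exists_theta p k
  have : CharP k' p := charP_of_injective_ringHom φ.injective p
  have hp : 2 ≤ p := (Fact.out : p.Prime).two_le
  have hpp : p * 2 ≤ p ^ 2 := by rw [pow_two]; exact Nat.mul_le_mul_left p hp
  have hsum : ∑ i, lab_St2 p i0 i1 i = p - 1 + (p ^ 2 - 2 + 2) := by
    rw [Fintype.sum_option, Fintype.sum_option, sum_lab_St2]
    rfl
  have h2 : ∑ i, lab_St2 p i0 i1 i ≤ 2 * (Fintype.card F - 1) := by
    rw [hsum, hF]
    omega
  refine step_of φ θ (nice_vtx _) u hu hl (lab_St2 p i0 i1) ?_ ?_ h2 ?_ ?_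
  · rw [hF]
    rintro (_ | _ | i)
    · change p - 1 < _
      omega
    · change p ^ 2 - 2 < _
      omega
    · change (if i = i0 then 1 else 0) + (if i = i1 then 1 else 0) < _
      split_ifs <;> omega
  · rw [hsum, hF]
    omega
  · rw [hF]
    exact fun e => h' ((coeff_St2 p u hu i0 i1).1 e)
  · refine allFix_vtx θ s hs (lab_St2 p i0 i1) h2 ?_ _ fun _ => rfl
    rw [hF]
    exact (coeff_St2 p s hs i0 i1).2 h

end Pool.Agent.AdmG
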