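import Pool.Agent.AdmG.Bd6
import Pool.Agent.AdmG.Ext2
import Pool.Agent.Adm.AffL
import Pool.Agent.Adm.LabL0

/-! Strictness of a step after gluing pairs of marked points. -/

namespace Pool.Agent.AdmG

open Pool.Agent.Adm
open scoped OnePoint

variable {k k' J I : Type} [Field k] [Field k'] {P : AP k ((J ⊕ J) ⊕ I)} {P' : AP k' ((J ⊕ J) ⊕ I)}

theorem Cl.lift {φ : k →+* k'} (h : Lifts φ P P') (G : Type) [Group G] [Finite G] (hG : Cl P G) :
    Cl P' G := by
  obtain ⟨d, H, t, h1, h2, h3⟩ := hG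
  refine ⟨fun i => (d i).map φ, H, t, h G d H h1, fun j => ?_, h3⟩
  simp only [h2 j, Dat.map, dinv, dpush, map_inv₀]

theorem Nice.cl_punit (h : Nice P) : Cl P PUnit := by
  refine ⟨fun _ => (1, 1, 1), ⊥, fun _ => 1, h.triv _, fun j => ?_, Subsingleton.elim _ _⟩
  exact Prod.ext rfl (Prod.ext inv_one.symm (Subsingleton.elim _ _))

theorem Cl.bigger [IsAlgClosed k'] {F : Type} [Field F] [Fintype F] {φ : k →+* k'}
    {θ : F →+* k'} {n : (J ⊕ J) ⊕ I → ℤ} (hP : Nice P) (hP' : Nice P') (hn : RP n)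
    (h : Dom True φ θ P P' n) (G : Type) [Group G] [Finite G] (hG : Cl P G) :
    ∃ (G' : Type) (_ : Group G') (_ : Finite G'), Cl P' G' ∧
      Nat.card (G →* Aff F) < Nat.card (G' →* Aff F) := by
  obtain ⟨d, H, t, h1, h2, h3⟩ := hG
  have hv := hP.valid G d H h1
  choose ξ0 r1 r2 using fun i => exists_root_lift (card_sub_one_cast_ne_zero θ) (hv i).1
    ((hv i).2.1.map_of_injective φ.injective)
  let ξ : (J ⊕ J) ⊕ I → k' := Sum.elim
    (Sum.elim (fun j => ξ0 (.inl (.inl j))) fun j => (ξ0 (.inl (.inl j)))⁻¹) fun i => ξ0 (.inr i)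
  have e1 : ∀ j, (d (.inl (.inr j))).1 = (d (.inl (.inl j))).1 := fun j => by rw [h2 j]; rfl
  have e2 : ∀ j, (d (.inl (.inr j))).2.1 = (d (.inl (.inl j))).2.1⁻¹ := fun j => by
    rw [h2 j]; rfl
  have e3 : ∀ j, (d (.inl (.inr j))).2.2 = (t j)⁻¹ * (d (.inl (.inl j))).2.2 * t j := fun j => by
    rw [h2 j]; rfl
  have hξ : Roots φ (Fintype.card F - 1) d ξ := by
    rintro ((j | j) | i)
    · exact ⟨r1 _, r2 _⟩
    · refine ⟨?_, ?_⟩
      · rw [e1]
        exact (r1 _).inv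
      · rw [e2, map_inv₀, ← r2]
        exact inv_pow _ _
    · exact ⟨r1 _, r2 _⟩
  obtain ⟨y, H', k1, k2, k3, k4⟩ := h G d H h1 ξ hξ
  obtain ⟨a, a1, a2⟩ := k4 trivial
  have hv' := hP'.valid _ _ _ k1
  have hone : ∀ i, (y i).u = 1 → y i = 1 := fun i hi => by
    obtain ⟨b1, b2, b3, -⟩ := hv' i
    have : NeZero ((d i).1 * (Fintype.card F - 1)) := ⟨b1.ne'⟩
    have b4 : (((d i).1 * (Fintype.card F - 1) : ℕ) : k') ≠ 0 :=
      (IsPrimitiveRoot.neZero' (n := (d i).1 * (Fintype.card F - 1)) b2).ne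
    refine Aff.eq_one_of_pow (e := (d i).1 * (Fintype.card F - 1)) (fun b5 => b4 ?_)
      (congrArg Prod.snd b3) hi
    rw [← map_natCast θ, b5, map_zero]
  have hu : ∀ j, (y (.inl (.inl j))).u = (y (.inl (.inr j))).u := fun j => by
    refine Units.ext (θ.injective ?_)
    rw [k3, k3, hn j, e1]
    change _ = ((ξ0 (.inl (.inl j)))⁻¹ ^ _) ^ _
    rw [inv_pow, inv_zpow', neg_neg]
    rfl
  choose γ hγ using fun j => Aff.exists_conj (hu j) fun b => ⟨hone _ b, hone _ (hu j ▸ b)⟩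
  let t' : J → G × Aff F := fun j => (t j, γ j)
  let M : Subgroup (G × Aff F) := H' ⊔ Subgroup.closure (Set.range t')
  have hM : H' ≤ M := le_sup_left
  have ht : ∀ j, t' j ∈ M := fun j =>
    (le_sup_right : _ ≤ M) (Subgroup.subset_closure ⟨j, rfl⟩)
  obtain ⟨d', m1, m2⟩ := hP'.restr _ _ H' M k1 hM
  have f1 : ∀ i, (d' i).1 = (d i).1 * (Fintype.card F - 1) := fun i => congrArg Prod.fst (m2 i)
  have f2 : ∀ i, (d' i).2.1 = ξ i := fun i => congrArg (fun x => x.2.1) (m2 i)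
  have f3 : ∀ i, ((d' i).2.2 : G × Aff F) = ((d i).2.2, y i) := fun i =>
    congrArg (fun x => x.2.2) (m2 i)
  refine ⟨M, inferInstance, inferInstance,
    ⟨d', H'.subgroupOf M, fun j => ⟨t' j, ht j⟩, m1, fun j => ?_, ?_⟩, ?_⟩
  · refine Prod.ext ?_ (Prod.ext ?_ (Subtype.ext ?_))
    · change _ = (d' (.inl (.inl j))).1
      rw [f1, f1, e1]
    · change _ = (d' (.inl (.inl j))).2.1⁻¹
      rw [f2, f2]
      rfl
    · change _ = (t' j)⁻¹ * ((d' (.inl (.inl j))).2.2 : G × Aff F) * t' j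
      rw [f3, f3, e3, ← hγ j]
      refine Prod.ext rfl ?_
      change _ = (γ j)⁻¹ * (γ j * y (.inl (.inr j)) * (γ j)⁻¹) * γ j
      group
  · refine Subgroup.map_injective M.subtype_injective ?_
    rw [Subgroup.map_sup, Subgroup.subgroupOf_map_subtype, inf_eq_left.2 hM,
      MonoidHom.map_closure, ← Set.range_comp, ← MonoidHom.range_eq_map, Subgroup.range_subtype]
    rfl
  · refine card_hom_lt ((MonoidHom.fst G (Aff F)).comp M.subtype) ?_
      ((MonoidHom.snd G (Aff F)).comp M.subtype) ⟨(1, a), hM a2⟩ rfl a1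
    rw [← MonoidHom.range_eq_top, MonoidHom.range_comp, Subgroup.range_subtype, Subgroup.map_sup,
      k2, MonoidHom.map_closure, ← Set.range_comp]
    exact h3

theorem Step.not_le [IsAlgClosed k'] {φ : k →+* k'} (h : Step RP φ P P') (hP : Tr k _ P)
    (hP' : Tr k' _ P') : ¬ ∀ (G : Type) [Group G] [Finite G], Cl P' G → Cl P G := by
  intro hq
  obtain ⟨-, F, _, _, θ, n, hn, hd⟩ := h
  obtain ⟨N, hN⟩ := hP'.bound_cl θ
  have key : ∀ m : ℕ, ∃ (G : Type) (_ : Group G) (_ : Finite G), Cl P' G ∧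
      m ≤ Nat.card (G →* Aff F) := by
    intro m
    induction m with
    | zero => exact ⟨PUnit, inferInstance, inferInstance, hP'.nice.cl_punit, Nat.zero_le _⟩
    | succ m ih =>
      obtain ⟨G, _, _, h1, h2⟩ := ih
      obtain ⟨G', _, _, h3, h4⟩ := Cl.bigger hP.nice hP'.nice hn hd G (hq G h1)
      exact ⟨G', _, inferInstance, h3, h2.trans_lt h4⟩
  obtain ⟨G, _, _, h1, h2⟩ := key (N + 1)
  have := hN G h1
  omega

end Pool.Agent.AdmG
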